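import Pool.Agent.Work.MP_465498_pr.Explore

/-!
# Counting pivotal sprinkles
-/

namespace Pool.Agent.Work.MP_465498_pr

variable {V E ι : Type*} [DecidableEq V] [LinearOrder E] [DecidableEq ι]

/-- one step of the undirected model -/
def Ue (A : E → Finset V) (K : ι → Finset V) (ω : Finset E) (σ : Finset ι) (x y : V) : Prop :=
  (∃ e, Own A ω e x ∧ Own A ω e y) ∨ ∃ i ∈ σ, x ∈ K i ∧ y ∈ K i

/-- undirected connection -/
def Conn (A : E → Finset V) (K : ι → Finset V) (ω : Finset E) (σ : Finset ι) (x y : V) : Prop :=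
  Relation.ReflTransGen (Ue A K ω σ) x y

variable {A : E → Finset V} {K : ι → Finset V}

omit [DecidableEq V] [DecidableEq ι] in
lemma Ue_symm {ω : Finset E} {σ : Finset ι} {x y : V} (h : Ue A K ω σ x y) : Ue A K ω σ y x := by
  rcases h with ⟨e, h1, h2⟩ | ⟨i, hi, h1, h2⟩
  · exact Or.inl ⟨e, h2, h1⟩
  · exact Or.inr ⟨i, hi, h2, h1⟩

omit [DecidableEq V] [DecidableEq ι] in
lemma Conn.symm {ω : Finset E} {σ : Finset ι} {x y : V} (h : Conn A K ω σ x y) :
    Conn A K ω σ y x := by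
  induction h with
  | refl => exact Relation.ReflTransGen.refl
  | tail _ h ih => exact Relation.ReflTransGen.head (Ue_symm h) ih

omit [DecidableEq V] [DecidableEq ι] in
lemma Conn.reach {ω : Finset E} {σ : Finset ι} {x y : V} (h : Conn A K ω σ x y) :
    Relation.ReflTransGen (St A K ω σ) x y := by
  induction h with
  | refl => exact Relation.ReflTransGen.refl
  | tail _ h ih =>
    refine ih.tail ?_
    rcases h with ⟨e, h1, h2⟩ | ⟨i, hi, h1, h2⟩
    · exact Or.inl ⟨e, h1, h2.2.1⟩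
    · exact Or.inr ⟨i, hi, h1, h2⟩

omit [DecidableEq V] [DecidableEq ι] in
lemma Conn.mono {ω : Finset E} {σ σ' : Finset ι} (hσ : σ ⊆ σ') {x y : V}
    (h : Conn A K ω σ x y) : Conn A K ω σ' x y := by
  induction h with
  | refl => exact Relation.ReflTransGen.refl
  | tail _ h ih =>
    refine ih.tail ?_
    rcases h with ⟨e, h1, h2⟩ | ⟨i, hi, h1, h2⟩
    · exact Or.inl ⟨e, h1, h2⟩
    · exact Or.inr ⟨i, hσ hi, h1, h2⟩

/-- `w` is covered -/
def Cov (A : E → Finset V) (ω : Finset E) (w : V) : Prop := ∃ e, Own A ω e w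

lemma cov_of_mem {ω : Finset E} {e : E} {w : V} (he : e ∈ ω) (hw : w ∈ A e) : Cov A ω w := by
  have hne : (ω.filter (fun e => w ∈ A e)).Nonempty := ⟨e, Finset.mem_filter.mpr ⟨he, hw⟩⟩
  refine ⟨(ω.filter (fun e => w ∈ A e)).min' hne, ?_⟩
  have hmem := Finset.mem_filter.mp (Finset.min'_mem _ hne)
  exact ⟨hmem.1, hmem.2, fun e' he' hw' => Finset.min'_le _ _ (Finset.mem_filter.mpr ⟨he', hw'⟩)⟩

omit [DecidableEq V] in
lemma Own.unique {ω : Finset E} {e e' : E} {w : V} (h : Own A ω e w) (h' : Own A ω e' w) :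
    e = e' := le_antisymm (h.2.2 e' h'.1 h'.2.1) (h'.2.2 e h.1 h.2.1)

/-- both sets are covered, but no covered vertices of the two sets are connected -/
def Bad (A : E → Finset V) (K : ι → Finset V) (B1 B2 : Finset V) (ω : Finset E) (σ : Finset ι) :
    Prop :=
  (∃ b ∈ B1, Cov A ω b) ∧ (∃ b ∈ B2, Cov A ω b) ∧
    ∀ b ∈ B1, ∀ c ∈ B2, Cov A ω b → Cov A ω c → ¬ Conn A K ω σ b c

omit [DecidableEq V] [DecidableEq ι] in
lemma Bad.mono {B1 B2 : Finset V} {ω : Finset E} {σ σ' : Finset ι} (hσ : σ ⊆ σ')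
    (h : Bad A K B1 B2 ω σ') : Bad A K B1 B2 ω σ :=
  ⟨h.1, h.2.1, fun b hb c hc h1 h2 h3 => h.2.2 b hb c hc h1 h2 (h3.mono hσ)⟩

open Classical in
/-- the number of pivotal sprinkles is at most the number of open hyperedges -/
lemma count_pivotal (B1 B2 : ι → Finset V) (h1 : ∀ i, B1 i ⊆ K i) (h2 : ∀ i, B2 i ⊆ K i)
    (ω : Finset E) (σ : Finset ι) :
    (σ.filter (fun i => Bad A K (B1 i) (B2 i) ω (σ.erase i))).card ≤ ω.card := by
  set P := σ.filter (fun i => Bad A K (B1 i) (B2 i) ω (σ.erase i)) with hP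
  have hPb : ∀ i : P, Bad A K (B1 i) (B2 i) ω (σ.erase i) := fun i => (Finset.mem_filter.mp i.2).2
  choose b hb hbc using fun i : P => (hPb i).1
  choose c hc hcc using fun i : P => (hPb i).2.1
  choose e1 he1 using hbc
  choose e2 he2 using hcc
  have hnc : ∀ i : P, ¬ Conn A K ω (σ.erase i) (b i) (c i) := fun i =>
    (hPb i).2.2 (b i) (hb i) (c i) (hc i) ⟨_, he1 i⟩ ⟨_, he2 i⟩
  -- the functionals
  set g : P → E → ℝ := fun i e =>
    if ∃ w, Own A ω e w ∧ Conn A K ω (σ.erase i) (b i) w then 1 else 0 with hg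
  have hg1 : ∀ i : P, g i (e1 i) = 1 := by
    intro i
    simp only [hg]
    rw [if_pos]
    exact ⟨b i, he1 i, Relation.ReflTransGen.refl⟩
  have hg2 : ∀ i : P, g i (e2 i) = 0 := by
    intro i
    simp only [hg]
    rw [if_neg]
    rintro ⟨w, hw, hcw⟩
    exact hnc i (hcw.tail (Or.inl ⟨e2 i, hw, he2 i⟩))
  have hg3 : ∀ i j : P, i ≠ j → g i (e1 j) = g i (e2 j) := by
    intro i j hij
    have hj : (j : ι) ∈ σ.erase i := by
      rw [Finset.mem_erase]
      exact ⟨fun h => hij (Subtype.ext h.symm), (Finset.mem_filter.mp j.2).1⟩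
    have hbj : b j ∈ K j := h1 _ (hb j)
    have hcj : c j ∈ K j := h2 _ (hc j)
    have hiff : (∃ w, Own A ω (e1 j) w ∧ Conn A K ω (σ.erase i) (b i) w) ↔
        (∃ w, Own A ω (e2 j) w ∧ Conn A K ω (σ.erase i) (b i) w) := by
      constructor
      · rintro ⟨w, hw, hcw⟩
        refine ⟨c j, he2 j, ?_⟩
        exact (hcw.tail (Or.inl ⟨e1 j, hw, he1 j⟩)).tail (Or.inr ⟨j, hj, hbj, hcj⟩)
      · rintro ⟨w, hw, hcw⟩
        refine ⟨b j, he1 j, ?_⟩
        exact (hcw.tail (Or.inl ⟨e2 j, hw, he2 j⟩)).tail (Or.inr ⟨j, hj, hcj, hbj⟩)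
    simp only [hg]
    simp only [hiff]
  -- the vectors
  set x : P → (ω → ℝ) := fun i e => (if (e : E) = e1 i then 1 else 0) - (if (e : E) = e2 i then 1 else 0)
    with hx
  have hpair : ∀ i j : P, ∑ e : ω, x j e * g i e = g i (e1 j) - g i (e2 j) := by
    intro i j
    have hs : ∀ a : E, a ∈ ω → ∑ e : ω, (if (e : E) = a then (1 : ℝ) else 0) * g i e = g i a := by
      intro a ha
      rw [Finset.sum_eq_single (⟨a, ha⟩ : ω)]
      · simp
      · intro e _ hne
        rw [if_neg, zero_mul]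
        exact fun h => hne (Subtype.ext h)
      · intro h; exact absurd (Finset.mem_univ _) h
    simp only [hx, sub_mul]
    rw [Finset.sum_sub_distrib, hs _ (he1 j).1, hs _ (he2 j).1]
  have hli : LinearIndependent ℝ x := by
    rw [Fintype.linearIndependent_iff]
    intro cc hcc0 i
    have h3 : ∑ e : ω, (∑ j, cc j • x j) e * g i e = 0 := by
      rw [hcc0]; simp
    have h4 : ∑ e : ω, (∑ j, cc j • x j) e * g i e = ∑ j, cc j * (g i (e1 j) - g i (e2 j)) := by
      simp_rw [Finset.sum_apply, Pi.smul_apply, smul_eq_mul, Finset.sum_mul]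
      rw [Finset.sum_comm]
      apply Finset.sum_congr rfl
      intro j _
      rw [← hpair i j, Finset.mul_sum]
      apply Finset.sum_congr rfl
      intro e _
      ring
    rw [h4, Finset.sum_eq_single i] at h3
    · rw [hg1, hg2] at h3
      linarith
    · intro j _ hji
      rw [hg3 i j hji.symm, sub_self, mul_zero]
    · intro h; exact absurd (Finset.mem_univ _) h
  have hcard := hli.fintype_card_le_finrank
  rw [Module.finrank_fintype_fun_eq_card, Fintype.card_coe, Fintype.card_coe] at hcard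
  exact hcard

/-- expected number of pivotal sprinkles -/
lemma sum_bad {q ε : ℝ} (hq0 : 0 ≤ q) (hq1 : q ≤ 1) (hε0 : 0 ≤ ε) (hε1 : ε ≤ 1)
    (Γ : Finset E) (M : Finset ι) (B1 B2 : ι → Finset V) (h1 : ∀ i, B1 i ⊆ K i)
    (h2 : ∀ i, B2 i ⊆ K i) :
    ∑ i ∈ M, ε * ex2 q ε Γ M (fun ω σ => ind (Bad A K (B1 i) (B2 i) ω σ)) ∅ ∅ ≤ q * Γ.card := by
  classical
  have hstep : ∀ i ∈ M, ε * ex2 q ε Γ M (fun ω σ => ind (Bad A K (B1 i) (B2 i) ω σ)) ∅ ∅ ≤
      ex2 q ε Γ M (fun ω σ => ind (i ∈ σ ∧ Bad A K (B1 i) (B2 i) ω (σ.erase i))) ∅ ∅ := by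
    intro i hi
    rw [ex2_erase_right hi, ex2_erase_right hi]
    have e1 : ex2 q ε Γ (M.erase i) (fun ω σ => ind (i ∈ σ ∧ Bad A K (B1 i) (B2 i) ω (σ.erase i)))
        ∅ (insert i ∅) = ex2 q ε Γ (M.erase i) (fun ω σ => ind (Bad A K (B1 i) (B2 i) ω σ)) ∅ ∅ := by
      unfold ex2
      apply ex_congr
      intro T _
      apply ex_congr
      intro T' hT'
      apply ind_congr
      have hiT' : i ∉ T' := fun h => Finset.notMem_erase i M (hT' h)
      have h3 : (insert i ∅ ∪ T').erase i = ∅ ∪ T' := by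
        ext j
        simp only [Finset.mem_erase, Finset.mem_union, Finset.mem_insert, Finset.notMem_empty,
          or_false, false_or]
        constructor
        · rintro ⟨h4, h5 | h5⟩
          · exact absurd h5 h4
          · exact h5
        · intro h4
          exact ⟨fun h => hiT' (h ▸ h4), Or.inr h4⟩
      rw [h3]
      constructor
      · exact fun h => h.2
      · exact fun h => ⟨by simp, h⟩
    have e2 : 0 ≤ ex2 q ε Γ (M.erase i)
        (fun ω σ => ind (i ∈ σ ∧ Bad A K (B1 i) (B2 i) ω (σ.erase i))) ∅ ∅ := by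
      unfold ex2
      apply ex_nonneg (fun _ => hq0) (fun _ => hq1)
      intro T
      apply ex_nonneg (fun _ => hε0) (fun _ => hε1)
      intro T'
      exact ind_nonneg _
    have e3 : ex2 q ε Γ (M.erase i) (fun ω σ => ind (Bad A K (B1 i) (B2 i) ω σ)) ∅ (insert i ∅) ≤
        ex2 q ε Γ (M.erase i) (fun ω σ => ind (Bad A K (B1 i) (B2 i) ω σ)) ∅ ∅ := by
      unfold ex2
      apply ex_mono (fun _ => hq0) (fun _ => hq1)
      intro T _
      rw [ex_congr (g := fun σ => ind (Bad A K (B1 i) (B2 i) (∅ ∪ T) (insert i σ))) (O' := ∅)]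
      · apply ex_mono (fun _ => hε0) (fun _ => hε1)
        intro T' _
        apply ind_mono
        exact Bad.mono (Finset.subset_insert _ _)
      · intro T' _
        congr 2
        ext j
        simp
    rw [e1]
    have h1ε : 0 ≤ 1 - ε := by linarith
    have e4 := mul_nonneg h1ε e2
    nlinarith [mul_le_mul_of_nonneg_left e3 (mul_nonneg hε0 hε0)]
  calc ∑ i ∈ M, ε * ex2 q ε Γ M (fun ω σ => ind (Bad A K (B1 i) (B2 i) ω σ)) ∅ ∅
      ≤ ∑ i ∈ M, ex2 q ε Γ M
          (fun ω σ => ind (i ∈ σ ∧ Bad A K (B1 i) (B2 i) ω (σ.erase i))) ∅ ∅ :=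
        Finset.sum_le_sum hstep
    _ = ex2 q ε Γ M (fun ω σ => ∑ i ∈ M, ind (i ∈ σ ∧ Bad A K (B1 i) (B2 i) ω (σ.erase i))) ∅ ∅ := by
        unfold ex2
        rw [← ex_sum]
        apply ex_congr
        intro T _
        rw [ex_sum]
    _ ≤ ex2 q ε Γ M (fun ω _ => (ω.card : ℝ)) ∅ ∅ := by
        apply ex2_mono hq0 hq1 hε0 hε1
        intro T _ T' hT'
        rw [Finset.empty_union, Finset.empty_union]
        have hc := count_pivotal (A := A) (K := K) B1 B2 h1 h2 T T'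
        calc ∑ i ∈ M, ind (i ∈ T' ∧ Bad A K (B1 i) (B2 i) T (T'.erase i))
            = ((M.filter (fun i => i ∈ T' ∧ Bad A K (B1 i) (B2 i) T (T'.erase i))).card : ℝ) := by
              rw [Finset.card_filter]
              push_cast
              apply Finset.sum_congr rfl
              intro i _
              unfold ind
              congr
          _ ≤ (T.card : ℝ) := by
              have hsub : M.filter (fun i => i ∈ T' ∧ Bad A K (B1 i) (B2 i) T (T'.erase i)) =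
                  T'.filter (fun i => Bad A K (B1 i) (B2 i) T (T'.erase i)) := by
                ext i
                simp only [Finset.mem_filter]
                constructor
                · rintro ⟨_, h3, h4⟩; exact ⟨h3, h4⟩
                · rintro ⟨h3, h4⟩; exact ⟨hT' h3, h3, h4⟩
              rw [hsub]
              exact_mod_cast hc
    _ = q * Γ.card := by
        unfold ex2
        simp only [ex_const]
        rw [ex_card]
        simp [mul_comm]

/-- probability that both sets are covered -/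
lemma both_covered {q ε : ℝ} (hq0 : 0 ≤ q) (hq1 : q ≤ 1)
    (Γ : Finset E) (M : Finset ι) (B1 B2 : Finset V) :
    (1 - (1 - q) ^ (Γ.filter (fun e => (A e ∩ B1).Nonempty)).card) *
      (1 - (1 - q) ^ (Γ.filter (fun e => (A e ∩ B2).Nonempty)).card) ≤
    ex2 q ε Γ M (fun ω _ => ind ((∃ b ∈ B1, Cov A ω b) ∧ (∃ b ∈ B2, Cov A ω b))) ∅ ∅ := by
  classical
  set Z1 := Γ.filter (fun e => (A e ∩ B1).Nonempty) with hZ1
  set Z2 := Γ.filter (fun e => (A e ∩ B2).Nonempty) with hZ2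
  have hZ1s : Z1 ⊆ Γ := Finset.filter_subset _ _
  have hZ2s : Z2 ⊆ Γ := Finset.filter_subset _ _
  have hcov : ∀ (B : Finset V) (T : Finset E), T ⊆ Γ →
      ¬ Disjoint T (Γ.filter (fun e => (A e ∩ B).Nonempty)) → ∃ b ∈ B, Cov A T b := by
    intro B T hT hd
    rw [Finset.not_disjoint_iff] at hd
    obtain ⟨e, he, he'⟩ := hd
    obtain ⟨b, hb⟩ := (Finset.mem_filter.mp he').2
    rw [Finset.mem_inter] at hb
    exact ⟨b, hb.2, cov_of_mem he hb.1⟩
  have hred : ex2 q ε Γ M (fun ω _ => ind ((∃ b ∈ B1, Cov A ω b) ∧ (∃ b ∈ B2, Cov A ω b))) ∅ ∅ =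
      ex (fun _ => q) Γ (fun ω => ind ((∃ b ∈ B1, Cov A ω b) ∧ (∃ b ∈ B2, Cov A ω b))) ∅ := by
    unfold ex2
    simp only [ex_const]
  rw [hred]
  have h1 : ∀ Z : Finset E, Z ⊆ Γ → ex (fun _ : E => q) Γ
      (fun T => if Disjoint T Z then (1 : ℝ) else 0) ∅ = (1 - q) ^ Z.card := by
    intro Z hZ
    rw [ex_disjoint _ _ _ hZ, Finset.prod_const]
  have h3 : ex (fun _ : E => q) Γ (fun T => 1 - (if Disjoint T Z1 then (1 : ℝ) else 0) -
      (if Disjoint T Z2 then (1 : ℝ) else 0) + (if Disjoint T (Z1 ∪ Z2) then (1 : ℝ) else 0)) ∅ ≤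
      ex (fun _ => q) Γ (fun ω => ind ((∃ b ∈ B1, Cov A ω b) ∧ (∃ b ∈ B2, Cov A ω b))) ∅ := by
    apply ex_mono (fun _ => hq0) (fun _ => hq1)
    intro T hT
    rw [Finset.empty_union]
    by_cases hd1 : Disjoint T Z1 <;> by_cases hd2 : Disjoint T Z2
    · have : Disjoint T (Z1 ∪ Z2) := Finset.disjoint_union_right.mpr ⟨hd1, hd2⟩
      rw [if_pos hd1, if_pos hd2, if_pos this]
      have := ind_nonneg ((∃ b ∈ B1, Cov A T b) ∧ (∃ b ∈ B2, Cov A T b))
      linarith
    · have : ¬ Disjoint T (Z1 ∪ Z2) := fun h => hd2 (Finset.disjoint_union_right.mp h).2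
      rw [if_pos hd1, if_neg hd2, if_neg this]
      have := ind_nonneg ((∃ b ∈ B1, Cov A T b) ∧ (∃ b ∈ B2, Cov A T b))
      linarith
    · have : ¬ Disjoint T (Z1 ∪ Z2) := fun h => hd1 (Finset.disjoint_union_right.mp h).1
      rw [if_neg hd1, if_pos hd2, if_neg this]
      have := ind_nonneg ((∃ b ∈ B1, Cov A T b) ∧ (∃ b ∈ B2, Cov A T b))
      linarith
    · have : ¬ Disjoint T (Z1 ∪ Z2) := fun h => hd1 (Finset.disjoint_union_right.mp h).1
      rw [if_neg hd1, if_neg hd2, if_neg this, ind_true ⟨hcov B1 T hT hd1, hcov B2 T hT hd2⟩]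
      norm_num
  refine le_trans ?_ h3
  rw [ex_add, ex_sub, ex_sub, ex_const, h1 Z1 hZ1s, h1 Z2 hZ2s,
    h1 (Z1 ∪ Z2) (Finset.union_subset hZ1s hZ2s)]
  have h4 : (1 - q) ^ (Z1.card + Z2.card) ≤ (1 - q) ^ (Z1 ∪ Z2).card :=
    pow_le_pow_of_le_one (by linarith) (by linarith) (Finset.card_union_le _ _)
  rw [pow_add] at h4
  linarith

/-- the uniqueness estimate -/
theorem akn {q ε : ℝ} (hq0 : 0 ≤ q) (hq1 : q ≤ 1) (hε0 : 0 < ε) (hε1 : ε ≤ 1)
    (Γ : Finset E) (M : Finset ι) (hM : M.Nonempty) (B1 B2 : ι → Finset V)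
    (h1 : ∀ i, B1 i ⊆ K i) (h2 : ∀ i, B2 i ⊆ K i) (P a b : ℝ) (ha1 : a ≤ 1) (hb1 : b ≤ 1)
    (hP : ∀ i ∈ M, ex2 q ε Γ M (fun ω σ => ind (Rch A K (B1 i) (B2 i) ω σ)) ∅ ∅ ≤ P)
    (ha : ∀ i ∈ M, (1 - q) ^ (Γ.filter (fun e => (A e ∩ B1 i).Nonempty)).card ≤ a)
    (hb : ∀ i ∈ M, (1 - q) ^ (Γ.filter (fun e => (A e ∩ B2 i).Nonempty)).card ≤ b) :
    (1 - a) * (1 - b) - q * Γ.card / (ε * M.card) ≤ P := by
  have hMc : (0 : ℝ) < M.card := by exact_mod_cast hM.card_pos
  have hi : ∀ i ∈ M, (1 - a) * (1 - b) -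
      ex2 q ε Γ M (fun ω σ => ind (Bad A K (B1 i) (B2 i) ω σ)) ∅ ∅ ≤ P := by
    intro i hiM
    refine le_trans ?_ (hP i hiM)
    have hcov := both_covered (A := A) (ε := ε) hq0 hq1 Γ M (B1 i) (B2 i)
    have hle : ex2 q ε Γ M (fun ω _ => ind ((∃ b ∈ B1 i, Cov A ω b) ∧ (∃ b ∈ B2 i, Cov A ω b)))
        ∅ ∅ ≤ ex2 q ε Γ M (fun ω σ => ind (Rch A K (B1 i) (B2 i) ω σ)) ∅ ∅ +
          ex2 q ε Γ M (fun ω σ => ind (Bad A K (B1 i) (B2 i) ω σ)) ∅ ∅ := by
      have hadd : ex2 q ε Γ M (fun ω σ => ind (Rch A K (B1 i) (B2 i) ω σ) +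
          ind (Bad A K (B1 i) (B2 i) ω σ)) ∅ ∅ =
          ex2 q ε Γ M (fun ω σ => ind (Rch A K (B1 i) (B2 i) ω σ)) ∅ ∅ +
          ex2 q ε Γ M (fun ω σ => ind (Bad A K (B1 i) (B2 i) ω σ)) ∅ ∅ := by
        unfold ex2
        rw [← ex_add]
        apply ex_congr
        intro T _
        rw [ex_add]
      rw [← hadd]
      apply ex2_mono hq0 hq1 hε0.le hε1
      intro T _ T' _
      by_cases hc : (∃ b ∈ B1 i, Cov A (∅ ∪ T) b) ∧ (∃ b ∈ B2 i, Cov A (∅ ∪ T) b)
      · rw [ind_true hc]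
        by_cases hbad : Bad A K (B1 i) (B2 i) (∅ ∪ T) (∅ ∪ T')
        · rw [ind_true hbad]
          have := ind_nonneg (Rch A K (B1 i) (B2 i) (∅ ∪ T) (∅ ∪ T'))
          linarith
        · have hr : Rch A K (B1 i) (B2 i) (∅ ∪ T) (∅ ∪ T') := by
            unfold Bad at hbad
            rw [not_and] at hbad
            have h3 := hbad hc.1
            rw [not_and] at h3
            have h4 := h3 hc.2
            push Not at h4
            obtain ⟨x, hx, y, hy, _, _, hxy⟩ := h4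
            exact ⟨x, hx, y, hy, hxy.reach⟩
          rw [ind_true hr]
          have := ind_nonneg (Bad A K (B1 i) (B2 i) (∅ ∪ T) (∅ ∪ T'))
          linarith
      · rw [ind_false hc]
        have := ind_nonneg (Rch A K (B1 i) (B2 i) (∅ ∪ T) (∅ ∪ T'))
        have := ind_nonneg (Bad A K (B1 i) (B2 i) (∅ ∪ T) (∅ ∪ T'))
        linarith
    have hprod : (1 - a) * (1 - b) ≤
        (1 - (1 - q) ^ (Γ.filter (fun e => (A e ∩ B1 i).Nonempty)).card) *
        (1 - (1 - q) ^ (Γ.filter (fun e => (A e ∩ B2 i).Nonempty)).card) := by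
      apply mul_le_mul
      · linarith [ha i hiM]
      · linarith [hb i hiM]
      · linarith
      · linarith [ha i hiM]
    linarith
  have hsum := sum_bad (A := A) (K := K) hq0 hq1 hε0.le hε1 Γ M B1 B2 h1 h2
  have hs : ∑ i ∈ M, ε * ((1 - a) * (1 - b) -
      ex2 q ε Γ M (fun ω σ => ind (Bad A K (B1 i) (B2 i) ω σ)) ∅ ∅) ≤ ∑ _i ∈ M, ε * P :=
    Finset.sum_le_sum fun i hiM => mul_le_mul_of_nonneg_left (hi i hiM) hε0.le
  simp only [mul_sub, Finset.sum_sub_distrib, Finset.sum_const, nsmul_eq_mul] at hs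
  have hε' : 0 < ε * (M.card : ℝ) := by positivity
  have h5 : (1 - a) * (1 - b) * (ε * M.card) - q * Γ.card ≤ P * (ε * M.card) := by
    have e1 : ∑ x ∈ M, ε * ex2 q ε Γ M (fun ω σ => ind (Bad A K (B1 x) (B2 x) ω σ)) ∅ ∅ ≤
      q * Γ.card := hsum
    nlinarith
  calc (1 - a) * (1 - b) - q * Γ.card / (ε * M.card)
      = ((1 - a) * (1 - b) * (ε * M.card) - q * Γ.card) / (ε * M.card) := by
        rw [sub_div, mul_div_cancel_right₀ _ hε'.ne']
    _ ≤ P * (ε * M.card) / (ε * M.card) := div_le_div_of_nonneg_right h5 hε'.le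
    _ = P := mul_div_cancel_right₀ _ hε'.ne'

end Pool.Agent.Work.MP_465498_pr
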