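import Pool.Agent.Work.MP_465498_pr.Star

/-!
# The cluster in the three-layer environment
-/

set_option linter.unusedSectionVars false
set_option linter.style.haveILetI false

namespace Pool.Agent.Work.MP_465498_pr

open MeasureTheory Measure ProbabilityTheory
open scoped ENNReal NNReal

section merge

variable {ι : Type*} {X : ι → Type*} [∀ i, MeasurableSpace (X i)]

open Classical in
/-- take the coordinates in `S` from the first configuration -/
noncomputable def merge (S : Set ι) (q : (∀ i, X i) × (∀ i, X i)) : ∀ i, X i :=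
  fun i => if i ∈ S then q.1 i else q.2 i

lemma merge_mem {S : Set ι} {q : (∀ i, X i) × (∀ i, X i)} {i : ι} (hi : i ∈ S) :
    merge S q i = q.1 i := by unfold merge; rw [if_pos hi]

lemma merge_notMem {S : Set ι} {q : (∀ i, X i) × (∀ i, X i)} {i : ι} (hi : i ∉ S) :
    merge S q i = q.2 i := by unfold merge; rw [if_neg hi]

lemma measurable_merge (S : Set ι) :
    Measurable (merge S : (∀ i, X i) × (∀ i, X i) → ∀ i, X i) := by
  rw [measurable_pi_iff]
  intro i
  by_cases hi : i ∈ S
  · simp_rw [merge_mem hi]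
    exact (measurable_pi_apply i).comp measurable_fst
  · simp_rw [merge_notMem hi]
    exact (measurable_pi_apply i).comp measurable_snd

variable (μ : ∀ i, Measure (X i)) [∀ i, IsProbabilityMeasure (μ i)]

theorem map_merge (S : Set ι) :
    ((infinitePi μ).prod (infinitePi μ)).map (merge S) = infinitePi μ := by
  classical
  refine eq_infinitePi μ (fun s t ht => ?_)
  rw [Measure.map_apply (measurable_merge S) (MeasurableSet.pi s.countable_toSet (fun j _ => ht j))]
  have h1 : merge S ⁻¹' (Set.pi s t) =
      (Set.pi ((s.filter (· ∈ S) : Finset ι) : Set ι) t) ×ˢ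
        (Set.pi ((s.filter (· ∉ S) : Finset ι) : Set ι) t) := by
    ext q
    simp only [Set.mem_preimage, Set.mem_pi, Set.mem_prod, Finset.mem_coe, Finset.mem_filter]
    constructor
    · intro h
      refine ⟨fun i hi => ?_, fun i hi => ?_⟩
      · have := h i hi.1
        rwa [merge_mem hi.2] at this
      · have := h i hi.1
        rwa [merge_notMem hi.2] at this
    · rintro ⟨h1, h2⟩ i hi
      by_cases hiS : i ∈ S
      · rw [merge_mem hiS]; exact h1 i ⟨hi, hiS⟩
      · rw [merge_notMem hiS]; exact h2 i ⟨hi, hiS⟩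
  rw [h1, Measure.prod_prod, infinitePi_pi μ (fun j _ => ht j), infinitePi_pi μ (fun j _ => ht j),
    Finset.prod_filter_mul_prod_filter_not]

end merge

variable {V : Type*} [MeasurableSpace V] [DiscreteMeasurableSpace V] [Countable V]
  {W : V → Measure (ℕ → V)} [∀ x, IsProbabilityMeasure (W x)]
  {G : SimpleGraph V} [G.LocallyFinite] {D : ℕ}

/-- infinitely many devices of a layer hit `y` -/
theorem ae_infinite_hitting (h : Srw G D W) {lam : ℝ≥0} (hlam : 0 < lam) (a : Fin 3) (y : V)
    (he : W y (noret {y}) ≠ 0) : ∀ᵐ R ∂(env W lam), {x | y ∈ R (x, a)}.Infinite := by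
  classical
  have hlam' : (0 : ℝ) < lam := hlam
  have h1 : ∀ K : Finset V, ∀ᵐ R ∂(env W lam), ¬ {x | y ∈ R (x, a)} ⊆ (K : Set V) := by
    intro K
    rw [ae_iff]
    simp only [not_not]
    have hbound : ∀ L : Finset V, env W lam {R | {x | y ∈ R (x, a)} ⊆ (K : Set V)} ≤
        ENNReal.ofReal (Real.exp (-(lam * ∑ x ∈ L \ K, (W x).real (hit {y})))) := by
      intro L
      have hpi : (∏ c ∈ (L \ K).image (fun x => (x, a)), nu W lam c.1 {T | y ∉ T}) =
          ENNReal.ofReal (Real.exp (-(lam * ∑ x ∈ L \ K, (W x).real (hit {y})))) := by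
        rw [Finset.prod_image (fun x _ x' _ hxx => (Prod.mk.inj hxx).1)]
        simp_rw [nu_mem]
        rw [← ENNReal.ofReal_prod_of_nonneg (fun _ _ => Real.exp_nonneg _), ← Real.exp_sum,
          Finset.mul_sum, Finset.sum_neg_distrib]
      rw [← hpi]
      unfold env
      rw [← Measure.infinitePi_pi (fun c : V × Fin 3 => nu W lam c.1)
        (t := fun _ => {T | y ∉ T}) (fun _ _ => measurableSet_notMem y)]
      apply measure_mono
      intro R hR c hc
      rw [Finset.mem_coe, Finset.mem_image] at hc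
      obtain ⟨x, hx, rfl⟩ := hc
      rw [Finset.mem_sdiff] at hx
      intro hy
      exact hx.2 (hR hy)
    -- the sums are unbounded
    have hsum := h.tsum_hit y he
    have hlarge : ∀ C : ℝ, ∃ L : Finset V, C ≤ ∑ x ∈ L \ K, (W x).real (hit {y}) := by
      intro C
      have hex : ∃ L : Finset V, ENNReal.ofReal (C + K.card) < ∑ x ∈ L, W x (hit {y}) := by
        rw [ENNReal.tsum_eq_iSup_sum] at hsum
        have := lt_iSup_iff.mp (show ENNReal.ofReal (C + K.card) < ⨆ s : Finset V,
          ∑ x ∈ s, W x (hit {y}) by rw [hsum]; exact ENNReal.ofReal_lt_top)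
        exact this
      obtain ⟨L, hL⟩ := hex
      refine ⟨L, ?_⟩
      have h3 : C + K.card < ∑ x ∈ L, (W x).real (hit {y}) := by
        have e : ∑ x ∈ L, W x (hit {y}) = ENNReal.ofReal (∑ x ∈ L, (W x).real (hit {y})) := by
          rw [ENNReal.ofReal_sum_of_nonneg (fun _ _ => measureReal_nonneg)]
          exact Finset.sum_congr rfl fun x _ => (ofReal_measureReal).symm
        rw [e] at hL
        exact lt_of_not_ge fun hle => absurd hL (not_lt.mpr (ENNReal.ofReal_le_ofReal hle))
      have h4 : ∑ x ∈ L, (W x).real (hit {y}) =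
          ∑ x ∈ L ∩ K, (W x).real (hit {y}) + ∑ x ∈ L \ K, (W x).real (hit {y}) :=
        (Finset.sum_inter_add_sum_sdiff L K _).symm
      have h5 : ∑ x ∈ L ∩ K, (W x).real (hit {y}) ≤ K.card := by
        calc ∑ x ∈ L ∩ K, (W x).real (hit {y}) ≤ ∑ x ∈ L ∩ K, (1 : ℝ) :=
              Finset.sum_le_sum fun _ _ => measureReal_le_one
          _ = ((L ∩ K).card : ℝ) := by simp
          _ ≤ K.card := by exact_mod_cast Finset.card_le_card Finset.inter_subset_right
      linarith
    have hn : ∀ n : ℕ, env W lam {R | {x | y ∈ R (x, a)} ⊆ (K : Set V)} ≤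
        ENNReal.ofReal (Real.exp (-(lam * n))) := by
      intro n
      obtain ⟨L, hL⟩ := hlarge n
      refine (hbound L).trans (ENNReal.ofReal_le_ofReal (Real.exp_le_exp.mpr ?_))
      apply neg_le_neg
      gcongr
    have hlim : Filter.Tendsto (fun n : ℕ => ENNReal.ofReal (Real.exp (-(lam * n))))
        Filter.atTop (nhds 0) := by
      rw [← ENNReal.ofReal_zero]
      apply ENNReal.tendsto_ofReal
      apply Real.tendsto_exp_atBot.comp
      apply Filter.tendsto_neg_atTop_atBot.comp
      exact Filter.Tendsto.const_mul_atTop hlam' tendsto_natCast_atTop_atTop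
    exact le_antisymm (ge_of_tendsto' hlim hn) zero_le
  rw [← ae_all_iff] at h1
  filter_upwards [h1] with R hR hfin
  apply hR hfin.toFinset
  simp

/-- a nonempty device is infinite -/
theorem ae_infinite_device (h : Srw G D W) (lam : ℝ≥0) (c : V × Fin 3)
    (he : ∀ y, W y (noret {y}) ≠ 0) : ∀ᵐ R ∂(env W lam), (R c).Nonempty → (R c).Infinite := by
  have h1 : ∀ᵐ T ∂(nu W lam c.1), T.Nonempty → T.Infinite := by
    apply nu_ae lam c.1 MeasurableSet.setOfPred_infinite
    filter_upwards [h.ae_infinite he c.1] with ω hω T hT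
    exact hω.mono hT
  have hmp := measurePreserving_eval_infinitePi (fun c : V × Fin 3 => nu W lam c.1) c
  exact hmp.quasiMeasurePreserving.ae h1

/-- the transient case in the three-layer environment -/
theorem canon (h : Srw G D W) (hc : G.Connected) (htr : ∀ x y : V, ∃ φ : G ≃g G, φ x = y)
    (hfol : ∀ n, ∃ F : Finset V, F.Nonempty ∧ (nbn G n F).card ≤ 2 * F.card)
    (he : ∀ y, W y (noret {y}) ≠ 0) {lam : ℝ≥0} (hlam : 0 < lam) {a k1 k2 : Fin 3}
    (h1 : k1 ≠ a) (h2 : k2 ≠ a) (hk : k1 ≠ k2) (o y : V) :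
    ∀ᵐ R ∂(env W lam), o ∈ R (o, a) →
      Relation.ReflTransGen (Stp (Set.univ : Set (V × Fin 3)) R) o y := by
  classical
  set S : Set (V × Fin 3) := {c | c.2 = a} with hS
  set bad : Set (V × Fin 3 → Set V) := {R | ¬ (o ∈ R (o, a) →
      Relation.ReflTransGen (Stp (Set.univ : Set (V × Fin 3)) R) o y)} with hbad
  have hbadm : MeasurableSet bad := by
    rw [hbad, measurableSet_setOfPred]
    apply Measurable.not
    apply Measurable.imp
    · exact (measurable_set_mem o).comp (measurable_pi_apply (o, a))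
    · exact measurable_reach _ o y
  rw [ae_iff]
  have hmerge : env W lam bad =
      ((env W lam).prod (env W lam)) (merge S ⁻¹' bad) := by
    conv_lhs => unfold env
    rw [← map_merge (fun c : V × Fin 3 => nu W lam c.1) S,
      Measure.map_apply (measurable_merge S) hbadm]
    rfl
  change env W lam bad = 0
  rw [hmerge, Measure.measure_prod_null ((measurable_merge S) hbadm)]
  filter_upwards [ae_infinite_device h lam (o, a) he,
    ae_infinite_hitting h hlam a y (he y)] with R hR1 hR2
  show env W lam (Prod.mk R ⁻¹' (merge S ⁻¹' bad)) = 0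
  by_cases hoR : o ∈ R (o, a)
  · have hinf1 := hR1 ⟨o, hoR⟩
    have hu0 : 0 < u2 lam := u2_pos hlam
    have hn : ∀ n : ℕ, env W lam (Prod.mk R ⁻¹' (merge S ⁻¹' bad)) ≤
        ENNReal.ofReal (2 * Real.exp (-(u2 lam * n))) := by
      intro n
      obtain ⟨B1, hB1, hB1c⟩ := h.exists_cap htr o (he o) hinf1 (C := n) (ENNReal.natCast_ne_top n)
      obtain ⟨B2, hB2, hB2c⟩ := h.exists_cap htr o (he o) hR2 (C := n) (ENNReal.natCast_ne_top n)
      have hsub : Prod.mk R ⁻¹' (merge S ⁻¹' bad) ⊆
          {R' | Hits (dev k1 k2 ∅ ∅) (B1 : Set V) (B2 : Set V) R'}ᶜ := by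
        intro R' hR' hhit
        apply hR'
        intro _
        obtain ⟨s, hs, b, hb, hr⟩ := hhit
        have hm1 : ∀ x, merge S (R, R') (x, a) = R (x, a) := by
          intro x
          exact merge_mem (show (x, a) ∈ S from rfl)
        have e1 : Stp (Set.univ : Set (V × Fin 3)) (merge S (R, R')) o s := by
          refine ⟨a, trivial, ?_⟩
          rw [hm1]
          exact hB1 hs
        have e2 : Stp (Set.univ : Set (V × Fin 3)) (merge S (R, R')) b y := by
          refine ⟨a, trivial, ?_⟩
          rw [hm1]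
          exact hB2 hb
        refine (Relation.ReflTransGen.head e1 ?_).tail e2
        refine Relation.ReflTransGen.mono ?_ _ _ hr
        rintro x z ⟨j, hj, hz⟩
        refine ⟨j, trivial, ?_⟩
        rw [merge_notMem]
        · exact hz
        · intro hja
          have hja' : j = a := hja
          rcases hj with hj | hj
          · exact h1 (hj.1.symm.trans hja')
          · exact h2 (hj.1.symm.trans hja')
      refine (measure_mono hsub).trans ?_
      rw [prob_compl_eq_one_sub (measurableSet_hits _ _ _)]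
      have hstar := star h hc htr hfol hlam hk B1 B2
      have hcap : ∀ B : Finset V, (n : ℝ≥0∞) ≤ cap W B →
          Real.exp (-(u2 lam * (cap W B).toReal)) ≤ Real.exp (-(u2 lam * n)) := by
        intro B hB
        apply Real.exp_le_exp.mpr
        apply neg_le_neg
        have := ENNReal.toReal_mono (cap_ne_top B) hB
        rw [ENNReal.toReal_natCast] at this
        gcongr
      have c1 := hcap B1 hB1c
      have c2 := hcap B2 hB2c
      have p1 : 0 < Real.exp (-(u2 lam * (cap W B1).toReal)) := Real.exp_pos _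
      have p2 : 0 < Real.exp (-(u2 lam * (cap W B2).toReal)) := Real.exp_pos _
      have hpf : 1 - 2 * Real.exp (-(u2 lam * n)) ≤
          pf W lam (dev k1 k2 ∅ ∅) (B1 : Set V) (B2 : Set V) := by
        refine le_trans ?_ hstar
        nlinarith [mul_pos p1 p2]
      have hpf' : env W lam {R' | Hits (dev k1 k2 ∅ ∅) (B1 : Set V) (B2 : Set V) R'} =
          ENNReal.ofReal (pf W lam (dev k1 k2 ∅ ∅) (B1 : Set V) (B2 : Set V)) := by
        unfold pf
        rw [ofReal_measureReal]
      rw [hpf', ← ENNReal.ofReal_one, ← ENNReal.ofReal_sub _ (pf_nonneg _ _ _ _)]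
      apply ENNReal.ofReal_le_ofReal
      linarith
    have hlim : Filter.Tendsto (fun n : ℕ => ENNReal.ofReal (2 * Real.exp (-(u2 lam * n))))
        Filter.atTop (nhds 0) := by
      rw [← ENNReal.ofReal_zero]
      apply ENNReal.tendsto_ofReal
      rw [← mul_zero (2 : ℝ)]
      apply Filter.Tendsto.const_mul
      apply Real.tendsto_exp_atBot.comp
      apply Filter.tendsto_neg_atTop_atBot.comp
      exact Filter.Tendsto.const_mul_atTop hu0 tendsto_natCast_atTop_atTop
    exact le_antisymm (ge_of_tendsto' hlim hn) zero_le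
  · have : Prod.mk R ⁻¹' (merge S ⁻¹' bad) = ∅ := by
      ext R'
      simp only [Set.mem_preimage, Set.mem_empty_iff_false, iff_false]
      intro hR'
      apply hR'
      intro ho
      rw [merge_mem (show (o, a) ∈ S from rfl)] at ho
      exact absurd ho hoR
    rw [this, measure_empty]

/-- the transient case in the three-layer environment, all layers together -/
theorem canon_all (h : Srw G D W) (hc : G.Connected) (htr : ∀ x y : V, ∃ φ : G ≃g G, φ x = y)
    (hfol : ∀ n, ∃ F : Finset V, F.Nonempty ∧ (nbn G n F).card ≤ 2 * F.card)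
    (he : ∀ y, W y (noret {y}) ≠ 0) {lam : ℝ≥0} (hlam : 0 < lam) (o : V) :
    ∀ᵐ R ∂(env W lam), (∃ a, o ∈ R (o, a)) →
      ∀ y, Relation.ReflTransGen (Stp (Set.univ : Set (V × Fin 3)) R) o y := by
  have h0 : ∀ a : Fin 3, ∀ y, ∀ᵐ R ∂(env W lam), o ∈ R (o, a) →
      Relation.ReflTransGen (Stp (Set.univ : Set (V × Fin 3)) R) o y := by
    intro a y
    refine canon h hc htr hfol he hlam (a := a) (k1 := a + 1) (k2 := a + 2) ?_ ?_ ?_ o y
    all_goals
      revert a
      decide
  have h1 : ∀ᵐ R ∂(env W lam), ∀ a : Fin 3, ∀ y, o ∈ R (o, a) →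
      Relation.ReflTransGen (Stp (Set.univ : Set (V × Fin 3)) R) o y := by
    rw [ae_all_iff]
    intro a
    rw [ae_all_iff]
    intro y
    exact h0 a y
  filter_upwards [h1] with R hR
  rintro ⟨a, ha⟩ y
  exact hR a y ha

end Pool.Agent.Work.MP_465498_pr
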