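import Mathlib

/-!
# Frog model with infinite lifespan: definitions
-/

namespace Pool.Agent.Work.MP_465498_pr

open MeasureTheory ProbabilityTheory
open scoped ENNReal NNReal

variable {V : Type*}

/-- `G` is vertex-transitive: automorphisms act transitively on the vertices. -/
def IsVertexTransitive (G : SimpleGraph V) : Prop := ∀ x y : V, ∃ φ : G ≃g G, φ x = y

/-- The (outer) vertex boundary of a finite set of vertices. -/
def vertexBoundary (G : SimpleGraph V) (F : Finset V) : Set V :=
  {y | y ∉ F ∧ ∃ x ∈ F, G.Adj x y}

/-- `G` is amenable: there are finite nonempty sets `F n` with `|∂ F n| / |F n| → 0`. -/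
def IsAmenable (G : SimpleGraph V) : Prop :=
  ∃ F : ℕ → Finset V, (∀ n, (F n).Nonempty) ∧
    Filter.Tendsto (fun n => ((vertexBoundary G (F n)).ncard : ℝ) / ((F n).card : ℝ))
      Filter.atTop (nhds 0)

open Classical in
/-- The probability that simple random walk started at `x` follows `γ 0, γ 1, …, γ n` during its
first `n` steps: every step is uniform among the neighbours of the present vertex. -/
noncomputable def srwProb (G : SimpleGraph V) [G.LocallyFinite] (x : V) (n : ℕ) (γ : ℕ → V) :
    ℝ≥0∞ :=
  if γ 0 = x ∧ ∀ k < n, G.Adj (γ k) (γ (k + 1)) then
    ∏ k ∈ Finset.range n, (G.degree (γ k) : ℝ≥0∞)⁻¹ else 0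

/-- The number of jumps made up to time `t`, when `τ k` is the time between the `k`-th and the
`k + 1`-st jump (`τ 0` being the time of the first jump). -/
noncomputable def jumpCount (τ : ℕ → ℝ) (t : ℝ) : ℕ :=
  sSup {n | ∑ k ∈ Finset.range n, τ k ≤ t}

/-- The random elements of the frog model with infinite lifespan on the graph `G`, with parameter
`lam`, on the probability space `(Ω, P)`: `η x` particles start at `x`, and the `i`-th particle of
`x` (`i < η x`), once active, follows the rate-1 continuous-time simple random walk with jump chain
`jump x i` and holding times `hold x i`. All of them are independent, `η x` is Poisson(`lam`),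
`jump x i` is a (discrete-time) simple random walk started at `x`, and the holding times are
independent exponential variables of rate 1. -/
structure FrogModel (G : SimpleGraph V) [G.LocallyFinite] [MeasurableSpace V] (lam : ℝ≥0)
    {Ω : Type*} [MeasurableSpace Ω] (P : Measure Ω) where
  /-- the number of particles starting at `x` -/
  η : V → Ω → ℕ
  /-- the jump chain of the `i`-th particle of `x` -/
  jump : V → ℕ → Ω → ℕ → V
  /-- the holding times of the `i`-th particle of `x` -/
  hold : V → ℕ → Ω → ℕ → ℝ
  measurable_η : ∀ x, Measurable (η x)
  measurable_jump : ∀ x i, Measurable (jump x i)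
  measurable_hold : ∀ x i, Measurable (hold x i)
  /-- `η x` is Poisson(`lam`) -/
  law_η : ∀ x, P.map (η x) = poissonMeasure lam
  /-- the jump chains are simple random walks -/
  law_jump : ∀ x i n (γ : ℕ → V), P {ω | ∀ k ≤ n, jump x i ω k = γ k} = srwProb G x n γ
  /-- the holding times are independent and exponential of rate 1 -/
  law_hold : ∀ x i, P.map (hold x i) = Measure.infinitePi (fun _ : ℕ => expMeasure 1)
  /-- the particle systems of different vertices are independent -/
  indep_sites : iIndepFun (fun x ω => (η x ω, fun i => (jump x i ω, hold x i ω))) P
  /-- at every vertex, the number of particles is independent of the walks -/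
  indep_number : ∀ x, IndepFun (η x) (fun ω i => (jump x i ω, hold x i ω)) P
  /-- the walks of different particles are independent -/
  indep_particles : ∀ x, iIndepFun (fun i ω => (jump x i ω, hold x i ω)) P
  /-- the jump chain and the holding times of a particle are independent -/
  indep_clock : ∀ x i, IndepFun (jump x i) (hold x i) P

namespace FrogModel

variable [MeasurableSpace V] {G : SimpleGraph V} [G.LocallyFinite] {lam : ℝ≥0} {Ω : Type*}
  [MeasurableSpace Ω] {P : Measure Ω}

/-- The position at time `t` (counted from its activation) of the `i`-th particle of `x`. -/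
noncomputable def position (m : FrogModel G lam P) (x : V) (i : ℕ) (ω : Ω) (t : ℝ) : V :=
  m.jump x i ω (jumpCount (m.hold x i ω) t)

/-- The set `𝓡_x`: the union of the ranges of the continuous-time walks of the particles starting
at `x`, and `{x}` if there is no such particle. -/
def visitSet (m : FrogModel G lam P) (x : V) (ω : Ω) : Set V :=
  {y | (m.η x ω = 0 ∧ y = x) ∨ ∃ i < m.η x ω, ∃ t : ℝ, 0 ≤ t ∧ m.position x i ω t = y}

/-- The set `𝓒_o` of the vertices ever visited by an active particle: the vertices that can be
reached from `o` by a directed path, where there is a directed edge from `x` to each vertex of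
`𝓡_x`. -/
def cluster (m : FrogModel G lam P) (o : V) (ω : Ω) : Set V :=
  {y | Relation.ReflTransGen (fun x z => z ∈ m.visitSet x ω) o y}

end FrogModel

end Pool.Agent.Work.MP_465498_pr
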