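import Pool.Agent.Work.MP_465498_pr.FrogSet2

/-!
# Two walkers at a vertex dominate the hyperedges through this vertex
-/

set_option linter.unusedSectionVars false
set_option linter.style.haveILetI false

namespace Pool.Agent.Work.MP_465498_pr

open MeasureTheory Measure ProbabilityTheory
open scoped ENNReal NNReal

variable {V : Type*} [MeasurableSpace V] [DiscreteMeasurableSpace V] [Countable V] [DecidableEq V]
  {G : SimpleGraph V} [G.LocallyFinite] {D : ℕ} {W : V → Measure (ℕ → V)}

/-- the first walker follows `z` backwards from time `j`, the second one forwards -/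
def evt (n j : ℕ) (z : ℕ → V) : Set (ℕ × (ℕ → ℕ → V)) :=
  {k | 2 ≤ k} ×ˢ {q | q 0 ∈ cyl j (fun i => z (j - i)) ∧ q 1 ∈ cyl (n - j) (fun i => z (j + i))}

lemma measurableSet_evt (n j : ℕ) (z : ℕ → V) : MeasurableSet (evt n j z) := by
  apply MeasurableSet.prod MeasurableSet.of_discrete
  have e0 : Measurable (fun q : ℕ → ℕ → V => q 0) := measurable_pi_apply 0
  have e1 : Measurable (fun q : ℕ → ℕ → V => q 1) := measurable_pi_apply 1
  exact (e0 (measurableSet_cyl j (fun i => z (j - i)))).inter
    (e1 (measurableSet_cyl (n - j) (fun i => z (j + i))))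

/-- the probability of at least two walkers -/
noncomputable def u2 (lam : ℝ≥0) : ℝ := (poissonMeasure lam).real {k | 2 ≤ k}

lemma u2_pos {lam : ℝ≥0} (hlam : 0 < lam) : 0 < u2 lam := by
  have h1 : 0 < (poissonMeasure lam).real {2} := poissonMeasure_real_singleton_pos 2 hlam
  refine h1.trans_le ?_
  unfold u2
  apply measureReal_mono
  · intro k hk
    rw [Set.mem_singleton_iff] at hk
    subst hk
    exact le_refl (2 : ℕ)
  · exact measure_ne_top _ _

lemma u2_le_one (lam : ℝ≥0) : u2 lam ≤ 1 := measureReal_le_one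

lemma qm_evt [∀ x, IsProbabilityMeasure (W x)] (h : Srw G D W) (lam : ℝ≥0) {n j : ℕ}
    (hj : j ≤ n) {z : ℕ → V} (hz : IsPath G n z) :
    (qm W lam (z j)).real (evt n j z) = u2 lam * (D : ℝ)⁻¹ ^ n := by
  unfold qm evt
  rw [measureReal_def, Measure.prod_prod, pi_two _ (measurableSet_cyl _ _) (measurableSet_cyl _ _),
    h.cyl_path, h.cyl_path, ENNReal.toReal_mul, ENNReal.toReal_mul, ENNReal.toReal_pow,
    ENNReal.toReal_pow, ENNReal.toReal_inv, ENNReal.toReal_natCast, ← pow_add]
  · unfold u2
    rw [measureReal_def]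
    congr 2
    omega
  · show z (j + 0) = z j
    rfl
  · intro k hk
    exact hz (j + k) (by omega)
  · show z (j - 0) = z j
    rfl
  · intro k hk
    have := (hz (j - (k + 1)) (by omega)).symm
    rw [show j - (k + 1) + 1 = j - k by omega] at this
    exact this

lemma verts_subset {n j : ℕ} (hj : j ≤ n) {z : ℕ → V} {p : ℕ × (ℕ → ℕ → V)}
    (hp : p ∈ evt n j z) : (verts n z : Set V) ⊆ uset p := by
  obtain ⟨h2, h0, h1⟩ := hp
  simp only [Set.mem_ofPred_eq] at h2
  intro y hy
  unfold verts at hy
  rw [Finset.coe_image] at hy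
  obtain ⟨k, hk, rfl⟩ := hy
  rw [Finset.mem_coe, Finset.mem_range] at hk
  by_cases hkj : k ≤ j
  · refine ⟨0, by omega, j - k, ?_⟩
    rw [h0 (j - k) (by omega)]
    show z (j - (j - k)) = z k
    rw [Nat.sub_sub_self hkj]
  · refine ⟨1, by omega, k - j, ?_⟩
    rw [h1 (k - j) (by omega)]
    show z (j + (k - j)) = z k
    rw [Nat.add_sub_cancel' (by omega)]

lemma evt_unique {n j : ℕ} (hj : j ≤ n) {F : Finset V} {z z' : ℕ → V} (hz : z ∈ gam G n F)
    (hz' : z' ∈ gam G n F) {p : ℕ × (ℕ → ℕ → V)} (hp : p ∈ evt n j z) (hp' : p ∈ evt n j z') :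
    z = z' := by
  obtain ⟨-, h0, h1⟩ := hp
  obtain ⟨-, h0', h1'⟩ := hp'
  have key : ∀ k ≤ n, z k = z' k := by
    intro k hk
    by_cases hkj : k ≤ j
    · have e1 : p.2 0 (j - k) = z (j - (j - k)) := h0 (j - k) (by omega)
      have e2 : p.2 0 (j - k) = z' (j - (j - k)) := h0' (j - k) (by omega)
      rw [Nat.sub_sub_self hkj] at e1 e2
      rw [← e1, e2]
    · have e1 : p.2 1 (k - j) = z (j + (k - j)) := h1 (k - j) (by omega)
      have e2 : p.2 1 (k - j) = z' (j + (k - j)) := h1' (k - j) (by omega)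
      rw [Nat.add_sub_cancel' (by omega)] at e1 e2
      rw [← e1, e2]
  rw [mem_gam] at hz hz'
  funext k
  by_cases hk : k ≤ n
  · exact key k hk
  · rw [hz.2.2 k (by omega), hz'.2.2 k (by omega), key n le_rfl]

/-- the domination inequality -/
theorem dominate [∀ x, IsProbabilityMeasure (W x)] (h : Srw G D W) (lam : ℝ≥0) (n : ℕ)
    (F : Finset V) (w : V) {g : Set V → ℝ} (hg : Measurable g) (hg0 : ∀ T, 0 ≤ g T)
    (hg1 : ∀ T, g T ≤ 1) (hmono : ∀ S T, S ⊆ T → g S ≤ g T) :
    g ∅ + u2 lam * (D : ℝ)⁻¹ ^ n / (n + 1) *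
      ∑ z ∈ (gam G n F).filter (fun z => w ∈ verts n z), (g (verts n z) - g ∅) ≤
      ∫ T, g T ∂(nu W lam w) := by
  classical
  set Z := (gam G n F).filter (fun z => w ∈ verts n z) with hZ
  -- an index at which `z` visits `w`
  have hex : ∀ z ∈ Z, ∃ j ≤ n, z j = w := by
    intro z hz
    have := (Finset.mem_filter.mp hz).2
    unfold verts at this
    obtain ⟨j, hj, hjw⟩ := Finset.mem_image.mp this
    exact ⟨j, by rw [Finset.mem_range] at hj; omega, hjw⟩
  set idx : (ℕ → V) → ℕ := fun z => sInf {j | z j = w} with hidx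
  have hidx1 : ∀ z ∈ Z, z (idx z) = w := by
    intro z hz
    obtain ⟨j, _, hj⟩ := hex z hz
    exact Nat.sInf_mem (s := {j | z j = w}) ⟨j, hj⟩
  have hidx2 : ∀ z ∈ Z, idx z ≤ n := by
    intro z hz
    obtain ⟨j, hjn, hj⟩ := hex z hz
    exact (Nat.sInf_le (s := {j | z j = w}) hj).trans hjn
  have hint : Integrable (fun p => g (uset p)) (qm W lam w) := by
    apply Integrable.of_bound (C := 1) (hg.comp measurable_uset).aestronglyMeasurable
    filter_upwards with p
    show ‖g (uset p)‖ ≤ 1
    rw [Real.norm_eq_abs, abs_of_nonneg (hg0 _)]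
    exact hg1 _
  have hgint : ∫ T, g T ∂(nu W lam w) = ∫ p, g (uset p) ∂(qm W lam w) := by
    unfold nu
    rw [integral_map measurable_uset.aemeasurable hg.aestronglyMeasurable]
  -- one index
  have hj : ∀ j ∈ Finset.range (n + 1), u2 lam * (D : ℝ)⁻¹ ^ n *
      ∑ z ∈ Z.filter (fun z => idx z = j), (g (verts n z) - g ∅) ≤
      ∫ T, g T ∂(nu W lam w) - g ∅ := by
    intro j hj
    rw [Finset.mem_range] at hj
    set Zj := Z.filter (fun z => idx z = j) with hZj
    have hind : ∀ z, Integrable (fun p => (evt n j z).indicator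
        (fun _ => g (verts n z) - g ∅) p) (qm W lam w) := by
      intro z
      exact (integrable_const _).indicator (measurableSet_evt n j z)
    have hpt : ∀ p, ∑ z ∈ Zj, (evt n j z).indicator (fun _ => g (verts n z) - g ∅) p ≤
        g (uset p) - g ∅ := by
      intro p
      by_cases hp : ∃ z ∈ Zj, p ∈ evt n j z
      · obtain ⟨z, hz, hpz⟩ := hp
        rw [Finset.sum_eq_single_of_mem z hz]
        · rw [Set.indicator_of_mem hpz]
          have := hmono _ _ (verts_subset (by omega) hpz)
          linarith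
        · intro z' hz' hne
          rw [Set.indicator_of_notMem]
          intro hpz'
          apply hne
          have m1 := (Finset.mem_filter.mp ((Finset.mem_filter.mp hz).1)).1
          have m2 := (Finset.mem_filter.mp ((Finset.mem_filter.mp hz').1)).1
          exact evt_unique (by omega) m2 m1 hpz' hpz
      · push Not at hp
        rw [Finset.sum_eq_zero]
        · have := hmono _ _ (Set.empty_subset (uset p))
          linarith
        · intro z hz
          exact Set.indicator_of_notMem (hp z hz) _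
    have hsub : Integrable (fun p => g (uset p) - g ∅) (qm W lam w) :=
      hint.sub (integrable_const (g ∅))
    have hmain := integral_mono (μ := qm W lam w)
      (integrable_finsetSum Zj (fun z _ => hind z)) hsub hpt
    rw [integral_finsetSum _ (fun z _ => hind z)] at hmain
    have hrhs : ∫ p, (g (uset p) - g ∅) ∂(qm W lam w) = ∫ T, g T ∂(nu W lam w) - g ∅ := by
      rw [integral_sub hint (integrable_const _), hgint]
      simp
    rw [hrhs] at hmain
    refine le_trans (le_of_eq ?_) hmain
    rw [Finset.mul_sum]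
    apply Finset.sum_congr rfl
    intro z hz
    rw [integral_indicator (measurableSet_evt n j z), setIntegral_const, smul_eq_mul]
    congr 1
    have hzZ := (Finset.mem_filter.mp hz).1
    have hzj : idx z = j := (Finset.mem_filter.mp hz).2
    have hzw : z j = w := by rw [← hzj]; exact hidx1 z hzZ
    have hzg := mem_gam.mp (Finset.mem_filter.mp hzZ).1
    rw [← hzw]
    exact (qm_evt h lam (by omega) hzg.2.1).symm
  have hsum := Finset.sum_le_sum hj
  rw [← Finset.mul_sum, Finset.sum_fiberwise_of_maps_to (fun z hz => Finset.mem_range.mpr (by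
    have := hidx2 z hz; omega)), Finset.sum_const, Finset.card_range, nsmul_eq_mul] at hsum
  push_cast at hsum
  have hn : (0 : ℝ) < (n : ℝ) + 1 := by positivity
  have : u2 lam * (D : ℝ)⁻¹ ^ n / (n + 1) * ∑ z ∈ Z, (g (verts n z) - g ∅) ≤
      ∫ T, g T ∂(nu W lam w) - g ∅ := by
    rw [div_mul_eq_mul_div, div_le_iff₀ hn]
    linarith
  linarith

end Pool.Agent.Work.MP_465498_pr
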