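import Pool.Agent.Work.MP_465498_pr.Reach
import Pool.Agent.Work.MP_465498_pr.Akn

/-!
# The environment, and the dominating function
-/

set_option linter.unusedSectionVars false
set_option linter.style.haveILetI false

namespace Pool.Agent.Work.MP_465498_pr

open MeasureTheory Measure ProbabilityTheory
open scoped ENNReal NNReal

variable {V : Type*} [MeasurableSpace V] [DiscreteMeasurableSpace V] [Countable V]
  {W : V → Measure (ℕ → V)} [∀ x, IsProbabilityMeasure (W x)]

/-- the environment of three layers -/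
noncomputable def env (W : V → Measure (ℕ → V)) (lam : ℝ≥0) : Measure (V × Fin 3 → Set V) :=
  infinitePi (fun c : V × Fin 3 => nu W lam c.1)

instance (lam : ℝ≥0) : IsProbabilityMeasure (env W lam) := by
  unfold env; infer_instance

/-- the reach probability -/
noncomputable def pf (W : V → Measure (ℕ → V)) (lam : ℝ≥0) (U : Set (V × Fin 3)) (S B : Set V) :
    ℝ := (env W lam).real {R | Hits U S B R}

lemma pf_nonneg (lam : ℝ≥0) (U : Set (V × Fin 3)) (S B : Set V) : 0 ≤ pf W lam U S B :=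
  measureReal_nonneg

lemma pf_le_one (lam : ℝ≥0) (U : Set (V × Fin 3)) (S B : Set V) : pf W lam U S B ≤ 1 :=
  measureReal_le_one

lemma pf_mono (lam : ℝ≥0) {U U' : Set (V × Fin 3)} {S S' : Set V} (B : Set V) (hU : U ⊆ U')
    (hS : S ⊆ S') : pf W lam U S B ≤ pf W lam U' S' B := by
  unfold pf
  apply measureReal_mono
  · intro R hR
    exact Hits.mono hU hS hR
  · exact measure_ne_top _ _

lemma measurable_pf (lam : ℝ≥0) (U : Set (V × Fin 3)) (S B : Set V) :
    Measurable (fun T : Set V => pf W lam U (S ∪ T) B) := by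
  unfold pf
  simp_rw [measureReal_def]
  apply Measurable.ennreal_toReal
  exact measurable_measure_prodMk_left (ν := env W lam) (measurableSet_hits_joint U S B)

/-- resampling one device -/
theorem pf_resample (lam : ℝ≥0) {U : Set (V × Fin 3)} {S B : Set V} {c : V × Fin 3}
    (hc : c ∈ U) (hcS : c.1 ∈ S) :
    pf W lam U S B = ∫ T, pf W lam (U \ {c}) (S ∪ T) B ∂(nu W lam c.1) := by
  classical
  have hm := measurableSet_hits_joint (U \ {c}) S B
  unfold pf
  simp_rw [measureReal_def]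
  rw [integral_toReal]
  · congr 1
    unfold env
    rw [measure_resample (fun c : V × Fin 3 => nu W lam c.1) c (measurableSet_hits U S B)]
    have e : {q : Set V × (V × Fin 3 → Set V) |
        Function.update q.2 c q.1 ∈ {R | Hits U S B R}} =
        {q : Set V × (V × Fin 3 → Set V) | Hits (U \ {c}) (S ∪ q.1) B q.2} := by
      ext q
      exact hits_update hc hcS q.1
    rw [e, Measure.prod_apply hm]
    rfl
  · exact (measurable_measure_prodMk_left (ν := env W lam) hm).aemeasurable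
  · filter_upwards with T
    exact measure_lt_top _ _

/-- the devices of the layers `k1`, `k2` outside `W1`, `W2` -/
def dev (k1 k2 : Fin 3) (W1 W2 : Set V) : Set (V × Fin 3) :=
  {c | (c.2 = k1 ∧ c.1 ∉ W1) ∨ (c.2 = k2 ∧ c.1 ∉ W2)}

omit [MeasurableSpace V] [DiscreteMeasurableSpace V] [Countable V] in
lemma dev_insert1 {k1 k2 : Fin 3} (hk : k1 ≠ k2) (W1 W2 : Set V) (w : V) :
    dev k1 k2 W1 W2 \ {(w, k1)} = dev k1 k2 (insert w W1) W2 := by
  ext ⟨x, k⟩
  simp only [dev, Set.mem_sdiff, Set.mem_ofPred_eq, Set.mem_singleton_iff, Prod.mk.injEq,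
    Set.mem_insert_iff, not_or, not_and]
  constructor
  · rintro ⟨⟨rfl, h⟩ | ⟨rfl, h⟩, h2⟩
    · exact Or.inl ⟨rfl, fun hx => h2 hx rfl, h⟩
    · exact Or.inr ⟨rfl, h⟩
  · rintro (⟨rfl, h1, h2⟩ | ⟨rfl, h⟩)
    · exact ⟨Or.inl ⟨rfl, h2⟩, fun hx => absurd hx h1⟩
    · exact ⟨Or.inr ⟨rfl, h⟩, fun _ hk' => hk hk'.symm⟩

omit [MeasurableSpace V] [DiscreteMeasurableSpace V] [Countable V] in
lemma dev_insert2 {k1 k2 : Fin 3} (hk : k1 ≠ k2) (W1 W2 : Set V) (w : V) :
    dev k1 k2 W1 W2 \ {(w, k2)} = dev k1 k2 W1 (insert w W2) := by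
  ext ⟨x, k⟩
  simp only [dev, Set.mem_sdiff, Set.mem_ofPred_eq, Set.mem_singleton_iff, Prod.mk.injEq,
    Set.mem_insert_iff, not_or, not_and]
  constructor
  · rintro ⟨⟨rfl, h⟩ | ⟨rfl, h⟩, h2⟩
    · exact Or.inl ⟨rfl, h⟩
    · exact Or.inr ⟨rfl, fun hx => h2 hx rfl, h⟩
  · rintro (⟨rfl, h⟩ | ⟨rfl, h1, h2⟩)
    · exact ⟨Or.inl ⟨rfl, h⟩, fun _ hk' => hk hk'⟩
    · exact ⟨Or.inr ⟨rfl, h2⟩, fun hx => absurd hx h1⟩

/-- covering inequality -/
lemma cover_ineq (lam : ℝ≥0) (w : V) {g : Set V → ℝ} (hg : Measurable g) (hg0 : ∀ T, 0 ≤ g T)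
    (hg1 : ∀ T, g T ≤ 1) (hmono : ∀ S T, S ⊆ T → g S ≤ g T) (K : Set V) {ε : ℝ}
    (hε : ε ≤ (nu W lam w).real {T | K ⊆ T}) :
    g ∅ + ε * (g K - g ∅) ≤ ∫ T, g T ∂(nu W lam w) := by
  have hint : Integrable g (nu W lam w) := by
    apply Integrable.of_bound (C := 1) hg.aestronglyMeasurable
    filter_upwards with T
    rw [Real.norm_eq_abs, abs_of_nonneg (hg0 _)]
    exact hg1 _
  have hgK : 0 ≤ g K - g ∅ := sub_nonneg.mpr (hmono _ _ (Set.empty_subset K))
  have hpt : ∀ T, g ∅ + {T : Set V | K ⊆ T}.indicator (fun _ => g K - g ∅) T ≤ g T := by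
    intro T
    by_cases hT : K ⊆ T
    · rw [Set.indicator_of_mem (show T ∈ {T : Set V | K ⊆ T} from hT)]
      have := hmono _ _ hT
      linarith
    · rw [Set.indicator_of_notMem (show T ∉ {T : Set V | K ⊆ T} from hT)]
      have := hmono _ _ (Set.empty_subset T)
      linarith
  have hint2 : Integrable ({T : Set V | K ⊆ T}.indicator (fun _ => g K - g ∅)) (nu W lam w) :=
    (integrable_const _).indicator (measurableSet_supset K)
  have hint3 : Integrable (fun T => g ∅ + {T : Set V | K ⊆ T}.indicator (fun _ => g K - g ∅) T)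
      (nu W lam w) := (integrable_const (g ∅)).add hint2
  have hmain := integral_mono (μ := nu W lam w) hint3 hint hpt
  have e : ∫ T, (g ∅ + {T : Set V | K ⊆ T}.indicator (fun _ => g K - g ∅) T) ∂(nu W lam w) =
      g ∅ + (nu W lam w).real {T | K ⊆ T} * (g K - g ∅) := by
    rw [integral_add (integrable_const _) hint2, integral_indicator (measurableSet_supset K),
      setIntegral_const, smul_eq_mul]
    simp
  calc g ∅ + ε * (g K - g ∅) ≤ g ∅ + (nu W lam w).real {T | K ⊆ T} * (g K - g ∅) := by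
        gcongr
    _ ≤ _ := by rw [← e]; exact hmain

section dominates

variable [DecidableEq V] {G : SimpleGraph V} [G.LocallyFinite] {D : ℕ}

/-- the reach probabilities dominate the exploration of the hypergraph model -/
theorem dominates (h : Srw G D W) (lam : ℝ≥0) {k1 k2 : Fin 3} (hk : k1 ≠ k2) (n : ℕ)
    (F B M : Finset V) (K : V → Finset V) {ε : ℝ}
    (hε : ∀ i ∈ M, ∀ w ∈ K i, ε ≤ (nu W lam w).real {T | (K i : Set V) ⊆ T}) :
    Dominates (V := V) (E := ℕ → V) (ι := V) (verts n) K (gam G n F) M B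
      (u2 lam * (D : ℝ)⁻¹ ^ n / (n + 1)) ε
      (fun S W1 W2 => pf W lam (dev k1 k2 (W1 : Set V) (W2 : Set V)) (S : Set V) (B : Set V)) := by
  refine ⟨?_, ?_, ?_, ?_, ?_, ?_⟩
  · intro S W1 W2
    exact pf_nonneg _ _ _ _
  · rintro S W1 W2 ⟨x, hx⟩
    rw [Finset.mem_inter] at hx
    have : {R : V × Fin 3 → Set V | Hits (dev k1 k2 (W1 : Set V) (W2 : Set V)) (S : Set V)
        (B : Set V) R} = Set.univ := by
      ext R
      simp only [Set.mem_ofPred_eq, Set.mem_univ, iff_true]
      exact ⟨x, hx.1, x, hx.2, Relation.ReflTransGen.refl⟩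
    show 1 ≤ pf _ _ _ _ _
    unfold pf
    rw [this]
    simp
  · intro S S' W1 W2 hS
    exact pf_mono _ _ le_rfl (by exact_mod_cast hS)
  · intro S W1 W2 w hwS hwW
    have hc : (w, k1) ∈ dev k1 k2 (W1 : Set V) (W2 : Set V) := Or.inl ⟨rfl, by simpa using hwW⟩
    show _ ≤ pf W lam (dev k1 k2 (W1 : Set V) (W2 : Set V)) (S : Set V) (B : Set V)
    rw [pf_resample lam hc (by exact_mod_cast hwS), dev_insert1 hk]
    set U' := dev k1 k2 (insert w (W1 : Set V)) (W2 : Set V) with hU'
    have hd := dominate h lam n F w (g := fun T => pf W lam U' ((S : Set V) ∪ T) (B : Set V))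
      (measurable_pf lam U' S B) (fun _ => pf_nonneg _ _ _ _) (fun _ => pf_le_one _ _ _ _)
      (fun S' T hST => pf_mono _ _ le_rfl (Set.union_subset_union_right _ hST))
    have e0 : pf W lam U' ((S : Set V) ∪ ∅) (B : Set V) =
        pf W lam (dev k1 k2 ((insert w W1 : Finset V) : Set V) (W2 : Set V)) (S : Set V)
          (B : Set V) := by
      rw [Set.union_empty, hU', Finset.coe_insert]
    have e1 : ∀ z : ℕ → V, pf W lam U' ((S : Set V) ∪ (verts n z : Set V)) (B : Set V) =
        pf W lam (dev k1 k2 ((insert w W1 : Finset V) : Set V) (W2 : Set V))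
          ((S ∪ verts n z : Finset V) : Set V) (B : Set V) := by
      intro z
      rw [hU', Finset.coe_insert, Finset.coe_union]
    simp only [e0, e1] at hd
    exact hd
  · intro S W1 W2 w hwS hwW
    apply pf_mono _ _ _ le_rfl
    rw [Finset.coe_insert]
    rintro c (hc | hc)
    · exact Or.inl hc
    · exact Or.inr ⟨hc.1, fun h => hc.2 (Set.mem_insert_of_mem _ h)⟩
  · intro S W1 W2 w hwS hwW i hi hwi
    have hc : (w, k2) ∈ dev k1 k2 (W1 : Set V) (W2 : Set V) := Or.inr ⟨rfl, by simpa using hwW⟩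
    show _ ≤ pf W lam (dev k1 k2 (W1 : Set V) (W2 : Set V)) (S : Set V) (B : Set V)
    rw [pf_resample lam hc (by exact_mod_cast hwS), dev_insert2 hk]
    set U' := dev k1 k2 (W1 : Set V) (insert w (W2 : Set V)) with hU'
    have hd := cover_ineq lam w (g := fun T => pf W lam U' ((S : Set V) ∪ T) (B : Set V))
      (measurable_pf lam U' S B) (fun _ => pf_nonneg _ _ _ _) (fun _ => pf_le_one _ _ _ _)
      (fun S' T hST => pf_mono _ _ le_rfl (Set.union_subset_union_right _ hST)) (K i : Set V)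
      (hε i hi w hwi)
    have e0 : pf W lam U' ((S : Set V) ∪ ∅) (B : Set V) =
        pf W lam (dev k1 k2 (W1 : Set V) ((insert w W2 : Finset V) : Set V)) (S : Set V)
          (B : Set V) := by
      rw [Set.union_empty, hU', Finset.coe_insert]
    have e1 : pf W lam U' ((S : Set V) ∪ (K i : Set V)) (B : Set V) =
        pf W lam (dev k1 k2 (W1 : Set V) ((insert w W2 : Finset V) : Set V))
          ((S ∪ K i : Finset V) : Set V) (B : Set V) := by
      rw [hU', Finset.coe_insert, Finset.coe_union]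
    simp only [e0, e1] at hd
    exact hd

end dominates

end Pool.Agent.Work.MP_465498_pr
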