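import Mathlib

/-!
# Expectations over finitely many independent coins
-/

namespace Pool.Agent.Work.MP_465498_pr

variable {I : Type*} [DecidableEq I]

/-- expectation over independent coins `i ∈ U` with success probabilities `p i`; the function `f`
receives the set of successes, added to the already known successes `O` -/
noncomputable def ex (p : I → ℝ) (U : Finset I) (f : Finset I → ℝ) (O : Finset I) : ℝ :=
  ∑ T ∈ U.powerset, ((∏ i ∈ T, p i) * ∏ i ∈ U \ T, (1 - p i)) * f (O ∪ T)

lemma ex_weights (p : I → ℝ) (U : Finset I) :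
    ∑ T ∈ U.powerset, ((∏ i ∈ T, p i) * ∏ i ∈ U \ T, (1 - p i)) = 1 := by
  rw [← Finset.prod_add]
  simp

lemma ex_const (p : I → ℝ) (U : Finset I) (c : ℝ) (O : Finset I) : ex p U (fun _ => c) O = c := by
  unfold ex
  rw [← Finset.sum_mul, ex_weights, one_mul]

lemma weight_nonneg (p : I → ℝ) (h0 : ∀ i, 0 ≤ p i) (h1 : ∀ i, p i ≤ 1) (U T : Finset I) :
    0 ≤ (∏ i ∈ T, p i) * ∏ i ∈ U \ T, (1 - p i) :=
  mul_nonneg (Finset.prod_nonneg fun i _ => h0 i)
    (Finset.prod_nonneg fun i _ => sub_nonneg.mpr (h1 i))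

lemma ex_mono {p : I → ℝ} (h0 : ∀ i, 0 ≤ p i) (h1 : ∀ i, p i ≤ 1) {U O : Finset I}
    {f g : Finset I → ℝ} (h : ∀ T ⊆ U, f (O ∪ T) ≤ g (O ∪ T)) : ex p U f O ≤ ex p U g O := by
  unfold ex
  apply Finset.sum_le_sum
  intro T hT
  exact mul_le_mul_of_nonneg_left (h T (Finset.mem_powerset.mp hT)) (weight_nonneg p h0 h1 U T)

lemma ex_congr {p : I → ℝ} {U O O' : Finset I}
    {f g : Finset I → ℝ} (h : ∀ T ⊆ U, f (O ∪ T) = g (O' ∪ T)) : ex p U f O = ex p U g O' := by
  unfold ex
  apply Finset.sum_congr rfl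
  intro T hT
  rw [h T (Finset.mem_powerset.mp hT)]

lemma ex_nonneg {p : I → ℝ} (h0 : ∀ i, 0 ≤ p i) (h1 : ∀ i, p i ≤ 1) {U O : Finset I}
    {f : Finset I → ℝ} (h : ∀ T, 0 ≤ f T) : 0 ≤ ex p U f O := by
  unfold ex
  exact Finset.sum_nonneg fun T _ => mul_nonneg (weight_nonneg p h0 h1 U T) (h _)

lemma ex_le_const {p : I → ℝ} (h0 : ∀ i, 0 ≤ p i) (h1 : ∀ i, p i ≤ 1) {U O : Finset I}
    {f : Finset I → ℝ} {c : ℝ} (h : ∀ T ⊆ U, f (O ∪ T) ≤ c) : ex p U f O ≤ c := by
  calc ex p U f O ≤ ex p U (fun _ => c) O := ex_mono h0 h1 h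
    _ = c := ex_const p U c O

lemma ex_empty (p : I → ℝ) (f : Finset I → ℝ) (O : Finset I) : ex p ∅ f O = f O := by
  simp [ex]

/-- reveal one coin -/
lemma ex_insert (p : I → ℝ) (U : Finset I) (i : I) (hi : i ∉ U) (f : Finset I → ℝ)
    (O : Finset I) :
    ex p (insert i U) f O = p i * ex p U f (insert i O) + (1 - p i) * ex p U f O := by
  unfold ex
  rw [Finset.sum_powerset_insert hi, add_comm, Finset.mul_sum, Finset.mul_sum]
  congr 1
  · apply Finset.sum_congr rfl
    intro T hT
    have hiT : i ∉ T := fun h => hi (Finset.mem_powerset.mp hT h)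
    rw [Finset.prod_insert hiT, Finset.insert_sdiff_insert,
      Finset.union_insert, ← Finset.insert_union]
    have : U \ insert i T = U \ T := by
      ext j
      simp only [Finset.mem_sdiff, Finset.mem_insert, not_or]
      constructor
      · rintro ⟨h1, _, h2⟩; exact ⟨h1, h2⟩
      · rintro ⟨h1, h2⟩; exact ⟨h1, fun h => hi (h ▸ h1), h2⟩
    rw [this]
    ring
  · apply Finset.sum_congr rfl
    intro T hT
    have hiT : i ∉ T := fun h => hi (Finset.mem_powerset.mp hT h)
    rw [Finset.insert_sdiff_of_notMem _ hiT, Finset.prod_insert (by simp [hi])]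
    ring

lemma ex_erase (p : I → ℝ) {U : Finset I} {i : I} (hi : i ∈ U) (f : Finset I → ℝ)
    (O : Finset I) :
    ex p U f O = p i * ex p (U.erase i) f (insert i O) + (1 - p i) * ex p (U.erase i) f O := by
  rw [← ex_insert p (U.erase i) i (Finset.notMem_erase i U), Finset.insert_erase hi]

lemma ex_add (p : I → ℝ) (U O : Finset I) (f g : Finset I → ℝ) :
    ex p U (fun T => f T + g T) O = ex p U f O + ex p U g O := by
  unfold ex
  rw [← Finset.sum_add_distrib]
  apply Finset.sum_congr rfl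
  intro T _
  ring

lemma ex_sub (p : I → ℝ) (U O : Finset I) (f g : Finset I → ℝ) :
    ex p U (fun T => f T - g T) O = ex p U f O - ex p U g O := by
  unfold ex
  rw [← Finset.sum_sub_distrib]
  apply Finset.sum_congr rfl
  intro T _
  ring

lemma ex_mul_left (p : I → ℝ) (U O : Finset I) (c : ℝ) (f : Finset I → ℝ) :
    ex p U (fun T => c * f T) O = c * ex p U f O := by
  unfold ex
  rw [Finset.mul_sum]
  apply Finset.sum_congr rfl
  intro T _
  ring

lemma ex_sum {κ : Type*} (s : Finset κ) (p : I → ℝ) (U O : Finset I) (f : κ → Finset I → ℝ) :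
    ex p U (fun T => ∑ k ∈ s, f k T) O = ∑ k ∈ s, ex p U (f k) O := by
  classical
  unfold ex
  rw [Finset.sum_comm]
  apply Finset.sum_congr rfl
  intro T _
  rw [Finset.mul_sum]

/-- the probability that coin `i` shows success -/
lemma ex_mem (p : I → ℝ) {U : Finset I} {i : I} (hi : i ∈ U) :
    ex p U (fun T => if i ∈ T then 1 else 0) ∅ = p i := by
  rw [ex_erase p hi]
  have h1 : ex p (U.erase i) (fun T => if i ∈ T then (1 : ℝ) else 0) (insert i ∅) = 1 := by
    rw [ex_congr (g := fun _ => (1 : ℝ)) (O' := ∅)]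
    · exact ex_const _ _ _ _
    · intro T _
      simp
  have h2 : ex p (U.erase i) (fun T => if i ∈ T then (1 : ℝ) else 0) ∅ = 0 := by
    rw [ex_congr (g := fun _ => (0 : ℝ)) (O' := ∅)]
    · exact ex_const _ _ _ _
    · intro T hT
      have : i ∉ T := fun h => Finset.notMem_erase i U (hT h)
      simp [this]
  rw [h1, h2]
  ring

/-- expected number of successes -/
lemma ex_card (p : I → ℝ) (U : Finset I) :
    ex p U (fun T => (T.card : ℝ)) ∅ = ∑ i ∈ U, p i := by
  have h : ex p U (fun T => (T.card : ℝ)) ∅ =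
      ex p U (fun T => ∑ i ∈ U, if i ∈ T then (1 : ℝ) else 0) ∅ := by
    apply ex_congr
    intro T hT
    rw [Finset.empty_union, Finset.sum_ite_mem, Finset.inter_eq_right.mpr hT]
    simp
  rw [h, ex_sum]
  exact Finset.sum_congr rfl fun i hi => ex_mem p hi

/-- probability that no coin of `Z ⊆ U` shows success -/
lemma ex_disjoint (p : I → ℝ) (U Z : Finset I) (hZ : Z ⊆ U) :
    ex p U (fun T => if Disjoint T Z then (1 : ℝ) else 0) ∅ = ∏ i ∈ Z, (1 - p i) := by
  induction Z using Finset.induction_on generalizing U with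
  | empty =>
    rw [Finset.prod_empty]
    rw [ex_congr (g := fun _ => (1 : ℝ)) (O' := ∅)]
    · exact ex_const _ _ _ _
    · intro T _; simp
  | insert i Z hi ih =>
    have hiU : i ∈ U := hZ (Finset.mem_insert_self i Z)
    rw [ex_erase p hiU, Finset.prod_insert hi]
    have h1 : ex p (U.erase i) (fun T => if Disjoint T (insert i Z) then (1 : ℝ) else 0)
        (insert i ∅) = 0 := by
      rw [ex_congr (g := fun _ => (0 : ℝ)) (O' := ∅)]
      · exact ex_const _ _ _ _
      · intro T _
        rw [if_neg]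
        rw [Finset.not_disjoint_iff]
        exact ⟨i, by simp, by simp⟩
    have h2 : ex p (U.erase i) (fun T => if Disjoint T (insert i Z) then (1 : ℝ) else 0) ∅ =
        ex p (U.erase i) (fun T => if Disjoint T Z then (1 : ℝ) else 0) ∅ := by
      apply ex_congr
      intro T hT
      have hiT : i ∉ T := fun h => Finset.notMem_erase i U (hT h)
      simp only [Finset.empty_union, Finset.disjoint_insert_right, hiT, not_false_eq_true,
        true_and]
    rw [h1, h2, ih]
    · ring
    · intro j hj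
      rw [Finset.mem_erase]
      refine ⟨fun h => hi (h ▸ hj), hZ (Finset.mem_insert_of_mem hj)⟩

end Pool.Agent.Work.MP_465498_pr
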