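import Pool.Agent.Work.MP_465498_pr.Ex

/-!
# The exploration lemma
-/

namespace Pool.Agent.Work.MP_465498_pr

open Classical in
/-- indicator of a proposition -/
noncomputable def ind (P : Prop) : ℝ := if P then 1 else 0

lemma ind_nonneg (P : Prop) : 0 ≤ ind P := by unfold ind; split_ifs <;> norm_num
lemma ind_le_one (P : Prop) : ind P ≤ 1 := by unfold ind; split_ifs <;> norm_num
lemma ind_mono {P Q : Prop} (h : P → Q) : ind P ≤ ind Q := by
  unfold ind
  by_cases hP : P
  · rw [if_pos hP, if_pos (h hP)]
  · rw [if_neg hP]; split_ifs <;> norm_num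
lemma ind_congr {P Q : Prop} (h : P ↔ Q) : ind P = ind Q := by
  rw [propext h]
lemma ind_true {P : Prop} (h : P) : ind P = 1 := by unfold ind; rw [if_pos h]
lemma ind_false {P : Prop} (h : ¬ P) : ind P = 0 := by unfold ind; rw [if_neg h]

variable {V E ι : Type*} [DecidableEq V] [LinearOrder E] [DecidableEq ι]

/-- `e` is the owner of the vertex `w`: the smallest open hyperedge containing `w` -/
def Own (A : E → Finset V) (ω : Finset E) (e : E) (w : V) : Prop :=
  e ∈ ω ∧ w ∈ A e ∧ ∀ e' ∈ ω, w ∈ A e' → e ≤ e'

/-- one step of the directed model -/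
def St (A : E → Finset V) (K : ι → Finset V) (ω : Finset E) (σ : Finset ι) (x y : V) : Prop :=
  (∃ e, Own A ω e x ∧ y ∈ A e) ∨ ∃ i ∈ σ, x ∈ K i ∧ y ∈ K i

/-- `B` can be reached from `S` -/
def Rch (A : E → Finset V) (K : ι → Finset V) (S B : Finset V) (ω : Finset E) (σ : Finset ι) :
    Prop :=
  ∃ s ∈ S, ∃ b ∈ B, Relation.ReflTransGen (St A K ω σ) s b

variable {A : E → Finset V} {K : ι → Finset V} {B : Finset V}

omit [DecidableEq ι] in
lemma Rch_union {S X : Finset V} {ω : Finset E} {σ : Finset ι} {w : V} (hw : w ∈ S)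
    (hX : ∀ x ∈ X, St A K ω σ w x) : Rch A K (S ∪ X) B ω σ ↔ Rch A K S B ω σ := by
  constructor
  · rintro ⟨s, hs, b, hb, h⟩
    rcases Finset.mem_union.mp hs with hs | hs
    · exact ⟨s, hs, b, hb, h⟩
    · exact ⟨w, hw, b, hb, Relation.ReflTransGen.head (hX s hs) h⟩
  · rintro ⟨s, hs, b, hb, h⟩
    exact ⟨s, Finset.mem_union_left _ hs, b, hb, h⟩

/-- expectation over the remaining coins of both kinds -/
noncomputable def ex2 (q ε : ℝ) (UE : Finset E) (Ui : Finset ι) (f : Finset E → Finset ι → ℝ)
    (OE : Finset E) (Oi : Finset ι) : ℝ :=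
  ex (fun _ : E => q) UE (fun ω => ex (fun _ : ι => ε) Ui (fun σ => f ω σ) Oi) OE

lemma ex2_erase_left {q ε : ℝ} {UE : Finset E} {Ui : Finset ι} {e : E} (he : e ∈ UE)
    (f : Finset E → Finset ι → ℝ) (OE : Finset E) (Oi : Finset ι) :
    ex2 q ε UE Ui f OE Oi = q * ex2 q ε (UE.erase e) Ui f (insert e OE) Oi +
      (1 - q) * ex2 q ε (UE.erase e) Ui f OE Oi := by
  unfold ex2
  exact ex_erase _ he _ _

lemma ex2_erase_right {q ε : ℝ} {UE : Finset E} {Ui : Finset ι} {i : ι} (hi : i ∈ Ui)
    (f : Finset E → Finset ι → ℝ) (OE : Finset E) (Oi : Finset ι) :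
    ex2 q ε UE Ui f OE Oi = ε * ex2 q ε UE (Ui.erase i) f OE (insert i Oi) +
      (1 - ε) * ex2 q ε UE (Ui.erase i) f OE Oi := by
  unfold ex2
  rw [← ex_mul_left, ← ex_mul_left, ← ex_add]
  apply ex_congr
  intro T _
  exact ex_erase _ hi _ _

lemma ex2_congr {q ε : ℝ} {UE : Finset E} {Ui : Finset ι} {f g : Finset E → Finset ι → ℝ}
    {OE : Finset E} {Oi : Finset ι}
    (h : ∀ T ⊆ UE, ∀ T' ⊆ Ui, f (OE ∪ T) (Oi ∪ T') = g (OE ∪ T) (Oi ∪ T')) :
    ex2 q ε UE Ui f OE Oi = ex2 q ε UE Ui g OE Oi := by
  unfold ex2
  apply ex_congr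
  intro T hT
  apply ex_congr
  intro T' hT'
  exact h T hT T' hT'

lemma ex2_mono {q ε : ℝ} (hq0 : 0 ≤ q) (hq1 : q ≤ 1) (hε0 : 0 ≤ ε) (hε1 : ε ≤ 1)
    {UE : Finset E} {Ui : Finset ι} {f g : Finset E → Finset ι → ℝ}
    {OE : Finset E} {Oi : Finset ι}
    (h : ∀ T ⊆ UE, ∀ T' ⊆ Ui, f (OE ∪ T) (Oi ∪ T') ≤ g (OE ∪ T) (Oi ∪ T')) :
    ex2 q ε UE Ui f OE Oi ≤ ex2 q ε UE Ui g OE Oi := by
  unfold ex2
  apply ex_mono (fun _ => hq0) (fun _ => hq1)
  intro T hT
  apply ex_mono (fun _ => hε0) (fun _ => hε1)
  intro T' hT'
  exact h T hT T' hT'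

lemma ex2_const {q ε : ℝ} (UE : Finset E) (Ui : Finset ι) (c : ℝ)
    (OE : Finset E) (Oi : Finset ι) : ex2 q ε UE Ui (fun _ _ => c) OE Oi = c := by
  unfold ex2
  simp only [ex_const]

/-- the hypotheses on the dominating function `f S W1 W2` -/
structure Dominates (A : E → Finset V) (K : ι → Finset V) (Γ : Finset E) (M : Finset ι)
    (B : Finset V) (q ε : ℝ) (f : Finset V → Finset V → Finset V → ℝ) : Prop where
  nonneg : ∀ S W1 W2, 0 ≤ f S W1 W2
  one : ∀ S W1 W2, (S ∩ B).Nonempty → 1 ≤ f S W1 W2
  mono : ∀ S S' W1 W2, S ⊆ S' → f S W1 W2 ≤ f S' W1 W2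
  step1 : ∀ S W1 W2 w, w ∈ S → w ∉ W1 →
    f S (insert w W1) W2 + q * ∑ e ∈ Γ.filter (fun e => w ∈ A e),
      (f (S ∪ A e) (insert w W1) W2 - f S (insert w W1) W2) ≤ f S W1 W2
  step2 : ∀ S W1 W2 w, w ∈ S → w ∉ W2 → f S W1 (insert w W2) ≤ f S W1 W2
  step2' : ∀ S W1 W2 w, w ∈ S → w ∉ W2 → ∀ i ∈ M, w ∈ K i →
    f S W1 (insert w W2) + ε * (f (S ∪ K i) W1 (insert w W2) - f S W1 (insert w W2)) ≤ f S W1 W2

/-- the invariants of the exploration -/
structure Inv (A : E → Finset V) (K : ι → Finset V) (Γ : Finset E) (M : Finset ι)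
    (N : Finset V) (S W1 W2 : Finset V) (UE OE : Finset E) (Ui Oi : Finset ι) : Prop where
  sub1 : UE ⊆ Γ
  sub2 : Ui ⊆ M
  disj1 : Disjoint OE UE
  disj2 : Disjoint Oi Ui
  open1 : ∀ e ∈ OE, A e ⊆ S
  open2 : ∀ i ∈ Oi, K i ⊆ S
  seen1 : ∀ w ∈ W1, ∀ e ∈ UE, w ∈ A e → ∃ e' ∈ OE, e' < e ∧ w ∈ A e'
  seen2 : ∀ w ∈ W2, ∀ i ∈ Ui, w ∉ K i
  univ : S ⊆ N

theorem explore_aux {q ε : ℝ} (hq0 : 0 ≤ q) (hq1 : q ≤ 1) (hε0 : 0 ≤ ε) (hε1 : ε ≤ 1)
    {Γ : Finset E} {M : Finset ι} (N : Finset V) (hN1 : ∀ e ∈ Γ, A e ⊆ N)
    (hN2 : ∀ i ∈ M, K i ⊆ N) (hdis : ∀ i ∈ M, ∀ j ∈ M, i ≠ j → Disjoint (K i) (K j))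
    {f : Finset V → Finset V → Finset V → ℝ} (hf : Dominates A K Γ M B q ε f) :
    ∀ (d : ℕ) (S W1 W2 : Finset V) (UE OE : Finset E) (Ui Oi : Finset ι),
      (N \ W1).card + (N \ W2).card = d → Inv A K Γ M N S W1 W2 UE OE Ui Oi →
      ex2 q ε UE Ui (fun ω σ => ind (Rch A K S B ω σ)) OE Oi ≤ f S W1 W2 := by
  intro d
  induction d using Nat.strong_induction_on with
  | _ d IH =>
  intro S W1 W2 UE OE Ui Oi hd inv
  by_cases hS : S ⊆ W1 ∧ S ⊆ W2
  · -- everything is examined
    by_cases hB : (S ∩ B).Nonempty
    · calc ex2 q ε UE Ui (fun ω σ => ind (Rch A K S B ω σ)) OE Oi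
          ≤ ex2 q ε UE Ui (fun _ _ => 1) OE Oi :=
            ex2_mono hq0 hq1 hε0 hε1 (fun T _ T' _ => ind_le_one _)
        _ = 1 := ex2_const _ _ _ _ _
        _ ≤ _ := hf.one _ _ _ hB
    · calc ex2 q ε UE Ui (fun ω σ => ind (Rch A K S B ω σ)) OE Oi
          ≤ ex2 q ε UE Ui (fun _ _ => 0) OE Oi := by
            apply ex2_mono hq0 hq1 hε0 hε1
            intro T hT T' hT'
            rw [ind_false]
            rintro ⟨s, hs, b, hb, h⟩
            apply hB
            refine ⟨b, Finset.mem_inter.mpr ⟨?_, hb⟩⟩
            -- closure of S is S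
            clear hb
            induction h with
            | refl => exact hs
            | @tail x y _ hst ih =>
              rcases hst with ⟨e, he, hy⟩ | ⟨i, hi, hx, hy⟩
              · rcases Finset.mem_union.mp he.1 with h1 | h1
                · exact inv.open1 e h1 hy
                · exfalso
                  obtain ⟨e', he', hlt, hxe'⟩ := inv.seen1 x (hS.1 ih) e (hT h1) he.2.1
                  exact absurd (he.2.2 e' (Finset.mem_union_left _ he') hxe') (not_le.mpr hlt)
              · rcases Finset.mem_union.mp hi with h1 | h1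
                · exact inv.open2 i h1 hy
                · exact absurd hx (inv.seen2 x (hS.2 ih) i (hT' h1))
        _ = 0 := ex2_const _ _ _ _ _
        _ ≤ _ := hf.nonneg _ _ _
  · rw [not_and_or] at hS
    rcases hS with hS | hS
    · -- examine device 1 of some vertex
      obtain ⟨w, hwS, hwW⟩ := Finset.not_subset.mp hS
      have hwN : w ∈ N := inv.univ hwS
      have hcard : (N \ insert w W1).card + (N \ W2).card < d := by
        rw [← hd]
        have : (N \ insert w W1).card < (N \ W1).card := by
          apply Finset.card_lt_card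
          rw [Finset.ssubset_iff_of_subset]
          · exact ⟨w, by simp [hwN, hwW], by simp⟩
          · exact Finset.sdiff_subset_sdiff le_rfl (Finset.subset_insert _ _)
        omega
      set h0 := f S (insert w W1) W2 with hh0
      -- inner induction
      have inner : ∀ (c : ℕ) (UE : Finset E), Inv A K Γ M N S W1 W2 UE OE Ui Oi →
          (UE.filter (fun e => w ∈ A e ∧ ∀ e' ∈ OE, w ∈ A e' → e < e')).card = c →
          ex2 q ε UE Ui (fun ω σ => ind (Rch A K S B ω σ)) OE Oi ≤
            h0 + q * ∑ e ∈ UE.filter (fun e => w ∈ A e ∧ ∀ e' ∈ OE, w ∈ A e' → e < e'),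
              (f (S ∪ A e) (insert w W1) W2 - h0) := by
        intro c
        induction c with
        | zero =>
          intro UE inv hc
          rw [Finset.card_eq_zero] at hc
          rw [hc, Finset.sum_empty, mul_zero, add_zero]
          apply IH _ hcard S (insert w W1) W2 UE OE Ui Oi rfl
          refine ⟨inv.sub1, inv.sub2, inv.disj1, inv.disj2, inv.open1, inv.open2, ?_, inv.seen2,
            inv.univ⟩
          intro w' hw' e he hwe
          rcases Finset.mem_insert.mp hw' with rfl | hw'
          · by_contra hcon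
            push Not at hcon
            have : e ∈ UE.filter (fun e => w' ∈ A e ∧ ∀ e' ∈ OE, w' ∈ A e' → e < e') := by
              rw [Finset.mem_filter]
              refine ⟨he, hwe, ?_⟩
              intro e' he' hwe'
              rcases lt_trichotomy e e' with h | h | h
              · exact h
              · exfalso
                subst h
                exact (Finset.disjoint_left.mp inv.disj1 he') he
              · exact absurd hwe' (hcon e' he' h)
            rw [hc] at this
            simp at this
          · exact inv.seen1 w' hw' e he hwe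
        | succ c ihc =>
          intro UE inv hc
          set Uw := UE.filter (fun e => w ∈ A e ∧ ∀ e' ∈ OE, w ∈ A e' → e < e') with hUw
          have hne : Uw.Nonempty := by
            rw [← Finset.card_pos, hc]; omega
          set e := Uw.min' hne with he
          have heU : e ∈ Uw := Finset.min'_mem _ _
          have heU' := Finset.mem_filter.mp heU
          have hmin : ∀ e' ∈ Uw, e ≤ e' := fun e' he' => Finset.min'_le _ _ he'
          rw [ex2_erase_left heU'.1]
          -- open case
          have hopen : ex2 q ε (UE.erase e) Ui (fun ω σ => ind (Rch A K S B ω σ))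
              (insert e OE) Oi ≤ f (S ∪ A e) (insert w W1) W2 := by
            have hcongr : ex2 q ε (UE.erase e) Ui (fun ω σ => ind (Rch A K S B ω σ))
                (insert e OE) Oi = ex2 q ε (UE.erase e) Ui
                  (fun ω σ => ind (Rch A K (S ∪ A e) B ω σ)) (insert e OE) Oi := by
              apply ex2_congr
              intro T hT T' _
              apply ind_congr
              rw [Rch_union hwS]
              intro x hx
              left
              refine ⟨e, ⟨?_, heU'.2.1, ?_⟩, hx⟩
              · exact Finset.mem_union_left _ (Finset.mem_insert_self _ _)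
              · intro e' he' hwe'
                rcases Finset.mem_union.mp he' with h1 | h1
                · rcases Finset.mem_insert.mp h1 with h2 | h2
                  · exact h2.ge
                  · exact (heU'.2.2 e' h2 hwe').le
                · by_contra hlt
                  push Not at hlt
                  have : e' ∈ Uw := by
                    rw [hUw, Finset.mem_filter]
                    refine ⟨Finset.mem_of_mem_erase (hT h1), hwe', ?_⟩
                    intro e'' he'' hwe''
                    exact hlt.trans (heU'.2.2 e'' he'' hwe'')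
                  exact absurd (hmin e' this) (not_le.mpr hlt)
            rw [hcongr]
            apply IH _ hcard (S ∪ A e) (insert w W1) W2 (UE.erase e) (insert e OE) Ui Oi rfl
            refine ⟨(Finset.erase_subset _ _).trans inv.sub1, inv.sub2, ?_, inv.disj2, ?_, ?_, ?_,
              inv.seen2, ?_⟩
            · rw [Finset.disjoint_left]
              intro a ha hb
              rcases Finset.mem_insert.mp ha with rfl | ha
              · exact (Finset.notMem_erase _ _) hb
              · exact (Finset.disjoint_left.mp inv.disj1 ha) (Finset.mem_of_mem_erase hb)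
            · intro e' he'
              rcases Finset.mem_insert.mp he' with rfl | he'
              · exact Finset.subset_union_right
              · exact (inv.open1 e' he').trans Finset.subset_union_left
            · intro i hi
              exact (inv.open2 i hi).trans Finset.subset_union_left
            · intro w' hw' e' he' hwe'
              rcases Finset.mem_insert.mp hw' with rfl | hw'
              · refine ⟨e, Finset.mem_insert_self _ _, ?_, heU'.2.1⟩
                have hne' : e' ≠ e := Finset.ne_of_mem_erase he'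
                rcases lt_trichotomy e' e with h | h | h
                · exfalso
                  have : e' ∈ Uw := by
                    rw [hUw, Finset.mem_filter]
                    refine ⟨Finset.mem_of_mem_erase he', hwe', ?_⟩
                    intro e'' he'' hwe''
                    exact h.trans (heU'.2.2 e'' he'' hwe'')
                  exact absurd (hmin e' this) (not_le.mpr h)
                · exact absurd h hne'
                · exact h
              · obtain ⟨e'', h1, h2, h3⟩ := inv.seen1 w' hw' e' (Finset.mem_of_mem_erase he') hwe'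
                exact ⟨e'', Finset.mem_insert_of_mem h1, h2, h3⟩
            · exact Finset.union_subset inv.univ (hN1 e (inv.sub1 heU'.1))
          -- closed case
          have hinv' : Inv A K Γ M N S W1 W2 (UE.erase e) OE Ui Oi := by
            refine ⟨(Finset.erase_subset _ _).trans inv.sub1, inv.sub2, ?_, inv.disj2,
              inv.open1, inv.open2, ?_, inv.seen2, inv.univ⟩
            · exact inv.disj1.mono_right (Finset.erase_subset _ _)
            · intro w' hw' e' he' hwe'
              exact inv.seen1 w' hw' e' (Finset.mem_of_mem_erase he') hwe'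
          have hfil : (UE.erase e).filter (fun e => w ∈ A e ∧ ∀ e' ∈ OE, w ∈ A e' → e < e') =
              Uw.erase e := by
            rw [hUw, Finset.filter_erase]
          have hclosed := ihc (UE.erase e) hinv' (by
            rw [hfil, Finset.card_erase_of_mem heU, hc]; omega)
          rw [hfil] at hclosed
          have hsum : ∑ e' ∈ Uw, (f (S ∪ A e') (insert w W1) W2 - h0) =
              (f (S ∪ A e) (insert w W1) W2 - h0) +
                ∑ e' ∈ Uw.erase e, (f (S ∪ A e') (insert w W1) W2 - h0) :=
            (Finset.add_sum_erase _ _ heU).symm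
          rw [hsum]
          have hrest : 0 ≤ ∑ e' ∈ Uw.erase e, (f (S ∪ A e') (insert w W1) W2 - h0) :=
            Finset.sum_nonneg fun e' _ => sub_nonneg.mpr
              (hf.mono _ _ _ _ Finset.subset_union_left)
          have h1q : 0 ≤ 1 - q := by linarith
          calc q * ex2 q ε (UE.erase e) Ui (fun ω σ => ind (Rch A K S B ω σ)) (insert e OE) Oi +
                (1 - q) * ex2 q ε (UE.erase e) Ui (fun ω σ => ind (Rch A K S B ω σ)) OE Oi
              ≤ q * f (S ∪ A e) (insert w W1) W2 + (1 - q) * (h0 + q *
                  ∑ e' ∈ Uw.erase e, (f (S ∪ A e') (insert w W1) W2 - h0)) := by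
                gcongr
            _ ≤ _ := by
                have : 0 ≤ q * (q * ∑ e' ∈ Uw.erase e,
                    (f (S ∪ A e') (insert w W1) W2 - h0)) := by positivity
                nlinarith
      have h1 := inner _ UE inv rfl
      refine h1.trans (le_trans ?_ (hf.step1 S W1 W2 w hwS hwW))
      rw [← hh0]
      refine add_le_add le_rfl (mul_le_mul_of_nonneg_left
        (Finset.sum_le_sum_of_subset_of_nonneg ?_ ?_) hq0)
      · intro e he
        rw [Finset.mem_filter] at he ⊢
        exact ⟨inv.sub1 he.1, he.2.1⟩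
      · intro e _ _
        exact sub_nonneg.mpr (hf.mono _ _ _ _ Finset.subset_union_left)
    · -- examine device 2 of some vertex
      obtain ⟨w, hwS, hwW⟩ := Finset.not_subset.mp hS
      have hwN : w ∈ N := inv.univ hwS
      have hcard : (N \ W1).card + (N \ insert w W2).card < d := by
        rw [← hd]
        have : (N \ insert w W2).card < (N \ W2).card := by
          apply Finset.card_lt_card
          rw [Finset.ssubset_iff_of_subset]
          · exact ⟨w, by simp [hwN, hwW], by simp⟩
          · exact Finset.sdiff_subset_sdiff le_rfl (Finset.subset_insert _ _)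
        omega
      by_cases hi : ∃ i ∈ Ui, w ∈ K i
      · obtain ⟨i, hiU, hwi⟩ := hi
        have hiM := inv.sub2 hiU
        rw [ex2_erase_right hiU]
        have hopen : ex2 q ε UE (Ui.erase i) (fun ω σ => ind (Rch A K S B ω σ))
            OE (insert i Oi) ≤ f (S ∪ K i) W1 (insert w W2) := by
          have hcongr : ex2 q ε UE (Ui.erase i) (fun ω σ => ind (Rch A K S B ω σ))
              OE (insert i Oi) = ex2 q ε UE (Ui.erase i)
                (fun ω σ => ind (Rch A K (S ∪ K i) B ω σ)) OE (insert i Oi) := by
            apply ex2_congr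
            intro T _ T' _
            apply ind_congr
            rw [Rch_union hwS]
            intro x hx
            right
            exact ⟨i, Finset.mem_union_left _ (Finset.mem_insert_self _ _), hwi, hx⟩
          rw [hcongr]
          apply IH _ hcard (S ∪ K i) W1 (insert w W2) UE OE (Ui.erase i) (insert i Oi) rfl
          refine ⟨inv.sub1, (Finset.erase_subset _ _).trans inv.sub2, inv.disj1, ?_, ?_, ?_,
            inv.seen1, ?_, ?_⟩
          · rw [Finset.disjoint_left]
            intro a ha hb
            rcases Finset.mem_insert.mp ha with rfl | ha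
            · exact (Finset.notMem_erase _ _) hb
            · exact (Finset.disjoint_left.mp inv.disj2 ha) (Finset.mem_of_mem_erase hb)
          · intro e' he'
            exact (inv.open1 e' he').trans Finset.subset_union_left
          · intro j hj
            rcases Finset.mem_insert.mp hj with rfl | hj
            · exact Finset.subset_union_right
            · exact (inv.open2 j hj).trans Finset.subset_union_left
          · intro w' hw' j hj
            rcases Finset.mem_insert.mp hw' with rfl | hw'
            · have hji : j ≠ i := Finset.ne_of_mem_erase hj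
              have := hdis i hiM j (inv.sub2 (Finset.mem_of_mem_erase hj)) hji.symm
              exact Finset.disjoint_left.mp this hwi
            · exact inv.seen2 w' hw' j (Finset.mem_of_mem_erase hj)
          · exact Finset.union_subset inv.univ (hN2 i hiM)
        have hclosed : ex2 q ε UE (Ui.erase i) (fun ω σ => ind (Rch A K S B ω σ))
            OE Oi ≤ f S W1 (insert w W2) := by
          apply IH _ hcard S W1 (insert w W2) UE OE (Ui.erase i) Oi rfl
          refine ⟨inv.sub1, (Finset.erase_subset _ _).trans inv.sub2, inv.disj1, ?_, inv.open1,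
            inv.open2, inv.seen1, ?_, inv.univ⟩
          · exact inv.disj2.mono_right (Finset.erase_subset _ _)
          · intro w' hw' j hj
            rcases Finset.mem_insert.mp hw' with rfl | hw'
            · have hji : j ≠ i := Finset.ne_of_mem_erase hj
              have := hdis i hiM j (inv.sub2 (Finset.mem_of_mem_erase hj)) hji.symm
              exact Finset.disjoint_left.mp this hwi
            · exact inv.seen2 w' hw' j (Finset.mem_of_mem_erase hj)
        have h1ε : 0 ≤ 1 - ε := by linarith
        calc ε * ex2 q ε UE (Ui.erase i) (fun ω σ => ind (Rch A K S B ω σ)) OE (insert i Oi) +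
              (1 - ε) * ex2 q ε UE (Ui.erase i) (fun ω σ => ind (Rch A K S B ω σ)) OE Oi
            ≤ ε * f (S ∪ K i) W1 (insert w W2) + (1 - ε) * f S W1 (insert w W2) := by gcongr
          _ = f S W1 (insert w W2) + ε * (f (S ∪ K i) W1 (insert w W2) -
                f S W1 (insert w W2)) := by ring
          _ ≤ _ := hf.step2' S W1 W2 w hwS hwW i hiM hwi
      · push Not at hi
        refine le_trans ?_ (hf.step2 S W1 W2 w hwS hwW)
        apply IH _ hcard S W1 (insert w W2) UE OE Ui Oi rfl
        refine ⟨inv.sub1, inv.sub2, inv.disj1, inv.disj2, inv.open1, inv.open2, inv.seen1, ?_,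
          inv.univ⟩
        intro w' hw' j hj
        rcases Finset.mem_insert.mp hw' with rfl | hw'
        · exact hi j hj
        · exact inv.seen2 w' hw' j hj

/-- the exploration lemma -/
theorem explore {q ε : ℝ} (hq0 : 0 ≤ q) (hq1 : q ≤ 1) (hε0 : 0 ≤ ε) (hε1 : ε ≤ 1)
    {Γ : Finset E} {M : Finset ι} (hdis : ∀ i ∈ M, ∀ j ∈ M, i ≠ j → Disjoint (K i) (K j))
    {f : Finset V → Finset V → Finset V → ℝ} (hf : Dominates A K Γ M B q ε f) (S : Finset V) :
    ex2 q ε Γ M (fun ω σ => ind (Rch A K S B ω σ)) ∅ ∅ ≤ f S ∅ ∅ := by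
  set N : Finset V := S ∪ Γ.biUnion A ∪ M.biUnion K with hN
  apply explore_aux hq0 hq1 hε0 hε1 N ?_ ?_ hdis hf _ S ∅ ∅ Γ ∅ M ∅ rfl
  · refine ⟨le_rfl, le_rfl, Finset.disjoint_empty_left _, Finset.disjoint_empty_left _,
      by simp, by simp, by simp, by simp, ?_⟩
    intro x hx
    simp [hN, hx]
  · intro e he x hx
    rw [hN, Finset.mem_union, Finset.mem_union]
    exact Or.inl (Or.inr (Finset.mem_biUnion.mpr ⟨e, he, hx⟩))
  · intro i hi x hx
    rw [hN, Finset.mem_union]
    exact Or.inr (Finset.mem_biUnion.mpr ⟨i, hi, hx⟩)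

end Pool.Agent.Work.MP_465498_pr
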