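import Pool.Agent.Work.MP_465498_pr.Sparse

/-!
# The random set visited by a Poisson number of walkers
-/

set_option linter.unusedSectionVars false
set_option linter.style.haveILetI false

namespace Pool.Agent.Work.MP_465498_pr

open MeasureTheory Measure ProbabilityTheory
open scoped ENNReal NNReal

variable {V : Type*} [MeasurableSpace V] [DiscreteMeasurableSpace V] [Countable V]

/-- the set visited by the first `p.1` walkers of the sequence `p.2` -/
def uset (p : ℕ × (ℕ → ℕ → V)) : Set V := {y | ∃ i, i < p.1 ∧ ∃ n, p.2 i n = y}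

lemma measurable_uset : Measurable (uset : ℕ × (ℕ → ℕ → V) → Set V) := by
  rw [measurable_set_iff]
  intro a
  apply Measurable.exists
  intro i
  apply Measurable.and
  · exact (Measurable.of_discrete (f := fun m : ℕ => i < m)).comp measurable_fst
  · apply Measurable.exists
    intro n
    apply Measurable.eq_const
    fun_prop

/-- sets avoiding `K` -/
def avd (K : Set V) : Set (Set V) := {T | Disjoint T K}

lemma measurableSet_avd (K : Set V) : MeasurableSet (avd K) := by
  have : avd K = {T : Set V | ∀ a, a ∈ K → a ∉ T} := by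
    ext T
    simp only [avd, Set.mem_ofPred_eq, Set.disjoint_right]
  rw [this, measurableSet_setOfPred]
  apply Measurable.forall
  intro a
  exact measurable_const.imp (measurable_set_notMem a)

lemma generateFrom_avd : (inferInstance : MeasurableSpace (Set V)) =
    MeasurableSpace.generateFrom {S | ∃ K : Finset V, S = avd (K : Set V)} := by
  apply le_antisymm
  · have h : @Measurable (Set V) (Set V)
        (MeasurableSpace.generateFrom {S | ∃ K : Finset V, S = avd (K : Set V)}) inferInstance id := by
      rw [@measurable_set_iff]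
      intro a
      rw [← @measurableSet_setOfPred]
      have : {x : Set V | a ∈ id x} = (avd (({a} : Finset V) : Set V))ᶜ := by
        ext T
        simp [avd]
      rw [this]
      apply MeasurableSet.compl
      exact MeasurableSpace.measurableSet_generateFrom ⟨{a}, rfl⟩
    intro s hs
    exact h hs
  · apply MeasurableSpace.generateFrom_le
    rintro _ ⟨K, rfl⟩
    exact measurableSet_avd _

/-- a law on sets is determined by its avoidance probabilities -/
theorem ext_avd {P Q : Measure (Set V)} [IsProbabilityMeasure P] [IsProbabilityMeasure Q]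
    (h : ∀ K : Finset V, P (avd (K : Set V)) = Q (avd (K : Set V))) : P = Q := by
  classical
  refine MeasureTheory.ext_of_generate_finite _ generateFrom_avd ?_ ?_ ?_
  · rintro _ ⟨K, rfl⟩ _ ⟨K', rfl⟩ _
    refine ⟨K ∪ K', ?_⟩
    ext T
    simp only [avd, Set.mem_inter_iff, Set.mem_ofPred_eq, Finset.coe_union,
      Set.disjoint_union_right]
  · rintro _ ⟨K, rfl⟩
    exact h K
  · simp

variable {W : V → Measure (ℕ → V)} [∀ x, IsProbabilityMeasure (W x)]

/-- number of walkers and walkers -/
noncomputable def qm (W : V → Measure (ℕ → V)) (lam : ℝ≥0) (x : V) :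
    Measure (ℕ × (ℕ → ℕ → V)) :=
  (poissonMeasure lam).prod (Measure.infinitePi (fun _ : ℕ => W x))

instance (lam : ℝ≥0) (x : V) : IsProbabilityMeasure (qm W lam x) := by
  unfold qm; infer_instance

/-- the law of the random set -/
noncomputable def nu (W : V → Measure (ℕ → V)) (lam : ℝ≥0) (x : V) : Measure (Set V) :=
  (qm W lam x).map uset

instance (lam : ℝ≥0) (x : V) : IsProbabilityMeasure (nu W lam x) :=
  isProbabilityMeasure_map measurable_uset.aemeasurable

/-- the avoidance formula -/
theorem nu_avd (lam : ℝ≥0) (x : V) (K : Set V) :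
    nu W lam x (avd K) = ENNReal.ofReal (Real.exp (-(lam * (W x).real (hit K)))) := by
  have hm : MeasurableSet (uset ⁻¹' (avd K) : Set (ℕ × (ℕ → ℕ → V))) :=
    measurable_uset (measurableSet_avd K)
  unfold nu qm
  rw [Measure.map_apply measurable_uset (measurableSet_avd K), Measure.prod_apply hm,
    lintegral_countable']
  have h1 : ∀ m : ℕ, Prod.mk m ⁻¹' (uset ⁻¹' (avd K)) =
      Set.pi (Finset.range m : Set ℕ) (fun _ => (hit K)ᶜ : ℕ → Set (ℕ → V)) := by
    intro m
    ext q
    simp only [Set.mem_preimage, avd, Set.mem_ofPred_eq, Set.disjoint_left, uset, Set.mem_pi,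
      Finset.coe_range, Set.mem_Iio, Set.mem_compl_iff, hit]
    constructor
    · rintro h i hi ⟨n, hn⟩
      exact h ⟨i, hi, n, rfl⟩ hn
    · rintro h a ⟨i, hi, n, rfl⟩ ha
      exact h i hi ⟨n, ha⟩
  have h2 : ∀ m : ℕ, Measure.infinitePi (fun _ : ℕ => W x) (Prod.mk m ⁻¹' (uset ⁻¹' (avd K))) =
      ENNReal.ofReal ((1 - (W x).real (hit K)) ^ m) := by
    intro m
    rw [h1, Measure.infinitePi_pi _ (fun i _ => (measurableSet_hit K).compl), Finset.prod_const,
      Finset.card_range, ENNReal.ofReal_pow (by
        have := measureReal_le_one (μ := W x) (s := hit K); linarith),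
      ← probReal_compl_eq_one_sub (measurableSet_hit K), ofReal_measureReal]
  simp_rw [h2, poissonMeasure_singleton]
  have h3 : ∀ m : ℕ, ENNReal.ofReal ((1 - (W x).real (hit K)) ^ m) *
      ENNReal.ofReal (Real.exp (-lam) * lam ^ m / (m.factorial : ℝ)) =
      ENNReal.ofReal (Real.exp (-lam) * ((lam * (1 - (W x).real (hit K))) ^ m / m.factorial)) := by
    intro m
    rw [← ENNReal.ofReal_mul (pow_nonneg (by
        have := measureReal_le_one (μ := W x) (s := hit K); linarith) m)]
    congr 1
    rw [mul_pow]
    ring
  simp_rw [h3]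
  have hs := (NormedSpace.expSeries_div_hasSum_exp
    ((lam : ℝ) * (1 - (W x).real (hit K)))).mul_left (Real.exp (-lam))
  rw [← ENNReal.ofReal_tsum_of_nonneg _ hs.summable, hs.tsum_eq, ← Real.exp_eq_exp_ℝ,
    ← Real.exp_add]
  · congr 2
    ring
  · intro m
    have : 0 ≤ 1 - (W x).real (hit K) := by
      have := measureReal_le_one (μ := W x) (s := hit K); linarith
    positivity

/-- the probability that a given vertex is visited -/
lemma nu_mem (lam : ℝ≥0) (x y : V) :
    nu W lam x {T | y ∉ T} = ENNReal.ofReal (Real.exp (-(lam * (W x).real (hit {y})))) := by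
  rw [← nu_avd]
  congr 1
  ext T
  simp [avd]

/-- three independent layers -/
theorem nu_layers (lam : ℝ≥0) (x : V) :
    (Measure.infinitePi (fun _ : Fin 3 => nu W lam x)).map (fun T => ⋃ j, T j) =
      nu W (3 * lam) x := by
  have hmeas : Measurable (fun T : Fin 3 → Set V => ⋃ j, T j) := by
    rw [measurable_set_iff]
    intro a
    simp only [Set.mem_iUnion]
    apply Measurable.exists
    intro j
    exact (measurable_set_mem a).comp (measurable_pi_apply j)
  haveI : IsProbabilityMeasure
      ((Measure.infinitePi (fun _ : Fin 3 => nu W lam x)).map (fun T => ⋃ j, T j)) :=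
    isProbabilityMeasure_map hmeas.aemeasurable
  apply ext_avd
  intro K
  rw [Measure.map_apply hmeas (measurableSet_avd _)]
  have h1 : (fun T : Fin 3 → Set V => ⋃ j, T j) ⁻¹' (avd (K : Set V)) =
      Set.pi ((Finset.univ : Finset (Fin 3)) : Set (Fin 3)) (fun _ => avd (K : Set V)) := by
    ext T
    simp only [Set.mem_preimage, avd, Set.mem_ofPred_eq, Set.disjoint_iUnion_left, Set.mem_pi,
      Finset.coe_univ, Set.mem_univ, true_imp_iff]
  rw [h1, Measure.infinitePi_pi _ (fun _ _ => measurableSet_avd _), Finset.prod_const,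
    Finset.card_univ, Fintype.card_fin, nu_avd, nu_avd, ← ENNReal.ofReal_pow (Real.exp_nonneg _),
    ← Real.exp_nat_mul]
  congr 2
  push_cast
  ring

end Pool.Agent.Work.MP_465498_pr
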