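import Pool.Agent.Work.MP_465498_pr.FrogSet

/-!
# The random set visited by a Poisson number of walkers: invariance, covering, domination
-/

set_option linter.unusedSectionVars false
set_option linter.style.haveILetI false

namespace Pool.Agent.Work.MP_465498_pr

open MeasureTheory Measure ProbabilityTheory
open scoped ENNReal NNReal

variable {V : Type*} [MeasurableSpace V] [DiscreteMeasurableSpace V] [Countable V]
  {G : SimpleGraph V} [G.LocallyFinite] {D : ℕ} {W : V → Measure (ℕ → V)}

lemma measurable_image (φ : V ≃ V) : Measurable (fun T : Set V => φ '' T) := by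
  rw [measurable_set_iff]
  intro a
  have : (fun T : Set V => a ∈ φ '' T) = fun T => φ.symm a ∈ T := by
    funext T
    rw [Equiv.image_eq_preimage_symm]
    rfl
  rw [this]
  exact measurable_set_mem _

/-- invariance of the law of the random set -/
theorem nu_aut [∀ x, IsProbabilityMeasure (W x)] (h : Srw G D W) (lam : ℝ≥0) (φ : G ≃g G) (x : V) :
    nu W lam (φ x) = (nu W lam x).map (fun T => φ '' T) := by
  have hmeas : Measurable (fun T : Set V => φ '' T) := measurable_image φ.toEquiv
  haveI : IsProbabilityMeasure ((nu W lam x).map (fun T => φ '' T)) :=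
    isProbabilityMeasure_map hmeas.aemeasurable
  apply ext_avd
  intro K
  rw [Measure.map_apply hmeas (measurableSet_avd _)]
  have h1 : (fun T : Set V => φ '' T) ⁻¹' (avd (K : Set V)) = avd (φ ⁻¹' (K : Set V)) := by
    ext T
    simp only [Set.mem_preimage, avd, Set.mem_ofPred_eq, Set.disjoint_left, Set.mem_image]
    constructor
    · intro h a ha hK
      exact h ⟨a, ha, rfl⟩ hK
    · rintro h _ ⟨a, ha, rfl⟩ hK
      exact h ha hK
  have h2 : W (φ x) (hit (K : Set V)) = W x (hit (φ ⁻¹' (K : Set V))) := by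
    rw [h.map_aut φ x, Measure.map_apply (measurable_mapp φ) (measurableSet_hit _)]
    rfl
  rw [h1, nu_avd, nu_avd, measureReal_def, measureReal_def, h2]

/-- almost sure properties of the walks that only increase -/
theorem nu_ae [∀ x, IsProbabilityMeasure (W x)] (lam : ℝ≥0) (x : V) {p : Set V → Prop}
    (hp : MeasurableSet {T | p T}) (hae : ∀ᵐ ω ∂(W x), ∀ T, Set.range ω ⊆ T → p T) :
    ∀ᵐ T ∂(nu W lam x), T.Nonempty → p T := by
  have hne : MeasurableSet {T : Set V | T.Nonempty} := by
    rw [measurableSet_setOfPred]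
    unfold Set.Nonempty
    exact Measurable.exists fun a => measurable_set_mem a
  unfold nu
  rw [ae_map_iff measurable_uset.aemeasurable]
  · have h1 : ∀ᵐ q ∂(Measure.infinitePi (fun _ : ℕ => W x)), ∀ T, Set.range (q 0) ⊆ T → p T := by
      have hmp := measurePreserving_eval_infinitePi (fun _ : ℕ => W x) 0
      exact hmp.quasiMeasurePreserving.ae hae
    have h2 : ∀ᵐ r ∂(qm W lam x), ∀ T, Set.range (r.2 0) ⊆ T → p T :=
      Measure.quasiMeasurePreserving_snd.ae h1
    filter_upwards [h2] with r hr
    rintro ⟨a, i, hi, n, hn⟩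
    apply hr
    rintro _ ⟨m, rfl⟩
    exact ⟨0, by omega, m, rfl⟩
  · rw [measurableSet_setOfPred] at hp hne ⊢
    exact hne.imp hp

/-- two walkers -/
lemma pi_two [∀ x, IsProbabilityMeasure (W x)] (x : V) {A B : Set (ℕ → V)} (hA : MeasurableSet A)
    (hB : MeasurableSet B) :
    Measure.infinitePi (fun _ : ℕ => W x) {q | q 0 ∈ A ∧ q 1 ∈ B} = W x A * W x B := by
  have h1 : {q : ℕ → ℕ → V | q 0 ∈ A ∧ q 1 ∈ B} =
      Set.pi ((Finset.range 2 : Finset ℕ) : Set ℕ) (fun i => if i = 0 then A else B) := by
    ext q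
    simp only [Set.mem_ofPred_eq, Set.mem_pi, Finset.coe_range, Set.mem_Iio]
    constructor
    · rintro ⟨h0, h1⟩ i hi
      interval_cases i
      · simpa using h0
      · simpa using h1
    · intro h
      exact ⟨by simpa using h 0 (by omega), by simpa using h 1 (by omega)⟩
  rw [h1, Measure.infinitePi_pi]
  · rw [Finset.prod_range_succ, Finset.prod_range_one]
    simp
  · intro i _
    split_ifs
    · exact hA
    · exact hB

/-- one walker -/
lemma pi_one [∀ x, IsProbabilityMeasure (W x)] (x : V) {A : Set (ℕ → V)} (hA : MeasurableSet A) :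
    Measure.infinitePi (fun _ : ℕ => W x) {q | q 0 ∈ A} = W x A := by
  have := (measurePreserving_eval_infinitePi (fun _ : ℕ => W x) 0).measure_preimage
    hA.nullMeasurableSet
  exact this

/-- covering probability -/
lemma measurableSet_supset (K : Set V) : MeasurableSet {T : Set V | K ⊆ T} := by
  rw [measurableSet_setOfPred]
  exact Measurable.subset measurable_const measurable_id

/-- from every vertex there is a path covering a finite set -/
lemma exists_cover_path (hc : G.Connected) (w : V) (K : Finset V) :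
    ∃ n, ∃ z : ℕ → V, z 0 = w ∧ IsPath G n z ∧ ∀ y ∈ K, ∃ k ≤ n, z k = y := by
  classical
  induction K using Finset.induction_on with
  | empty => exact ⟨0, fun _ => w, rfl, fun k hk => absurd hk (Nat.not_lt_zero k), by simp⟩
  | insert a K _ ih =>
    obtain ⟨n, z, hz0, hzp, hz⟩ := ih
    -- extend the path to `a`
    have key : ∀ b, Relation.ReflTransGen G.Adj (z n) b →
        ∃ m, ∃ z' : ℕ → V, n ≤ m ∧ (∀ k ≤ n, z' k = z k) ∧ IsPath G m z' ∧ z' m = b := by
      intro b hb
      induction hb with
      | refl => exact ⟨n, z, le_rfl, fun _ _ => rfl, hzp, rfl⟩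
      | @tail b c _ hbc ih =>
        obtain ⟨m, z', hnm, hzz, hp, hb⟩ := ih
        refine ⟨m + 1, fun k => if k ≤ m then z' k else c, by omega, ?_, ?_, ?_⟩
        · intro k hk
          show (if k ≤ m then z' k else c) = z k
          rw [if_pos (by omega), hzz k hk]
        · intro k hk
          show G.Adj (if k ≤ m then z' k else c) (if k + 1 ≤ m then z' (k + 1) else c)
          rw [if_pos (by omega)]
          by_cases hkm : k + 1 ≤ m
          · rw [if_pos hkm]; exact hp k (by omega)
          · rw [if_neg hkm]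
            obtain rfl : k = m := by omega
            rw [hb]; exact hbc
        · show (if m + 1 ≤ m then z' (m + 1) else c) = c
          rw [if_neg (by omega)]
    obtain ⟨m, z', hnm, hzz, hp, hb⟩ := key a
      ((SimpleGraph.reachable_iff_reflTransGen _ _).mp (hc.preconnected _ _))
    refine ⟨m, z', by rw [hzz 0 (by omega), hz0], hp, ?_⟩
    intro y hy
    rcases Finset.mem_insert.mp hy with rfl | hy
    · exact ⟨m, le_rfl, hb⟩
    · obtain ⟨k, hk, hky⟩ := hz y hy
      exact ⟨k, by omega, by rw [hzz k hk, hky]⟩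

lemma nu_cover_pos [∀ x, IsProbabilityMeasure (W x)] (h : Srw G D W) (hc : G.Connected)
    {lam : ℝ≥0} (hlam : 0 < lam) (w : V) (K : Finset V) : 0 < nu W lam w {T | (K : Set V) ⊆ T} := by
  obtain ⟨n, z, hz0, hzp, hz⟩ := exists_cover_path hc w K
  have hsub : ({1} : Set ℕ) ×ˢ {q : ℕ → ℕ → V | q 0 ∈ cyl n z} ⊆
      uset ⁻¹' {T : Set V | (K : Set V) ⊆ T} := by
    rintro ⟨m, q⟩ ⟨hm, hq⟩ y hy
    obtain ⟨k, hk, hky⟩ := hz y hy
    simp only [Set.mem_singleton_iff] at hm
    refine ⟨0, by simp [hm], k, ?_⟩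
    rw [← hky]
    exact hq k hk
  have hpos : 0 < qm W lam w (({1} : Set ℕ) ×ˢ {q : ℕ → ℕ → V | q 0 ∈ cyl n z}) := by
    unfold qm
    rw [Measure.prod_prod, pi_one w (measurableSet_cyl n z), h.cyl_path w n z hz0 hzp,
      poissonMeasure_singleton]
    apply ENNReal.mul_pos
    · have : 0 < Real.exp (-(lam : ℝ)) * (lam : ℝ) ^ 1 / (Nat.factorial 1 : ℝ) := by
        have : (0 : ℝ) < lam := hlam
        positivity
      exact (ENNReal.ofReal_pos.mpr this).ne'
    · exact pow_ne_zero _ (ENNReal.inv_ne_zero.mpr (ENNReal.natCast_ne_top D))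
  unfold nu
  rw [Measure.map_apply measurable_uset (measurableSet_supset _)]
  exact hpos.trans_le (measure_mono hsub)

/-- covering probability is bounded below uniformly over translates -/
lemma exists_cover [∀ x, IsProbabilityMeasure (W x)] (h : Srw G D W) (hc : G.Connected)
    {lam : ℝ≥0} (hlam : 0 < lam) (K : Finset V) :
    ∃ ε : ℝ, 0 < ε ∧ ε ≤ 1 ∧ ∀ (φ : G ≃g G), ∀ w ∈ (φ '' (K : Set V)),
      ε ≤ (nu W lam w).real {T | φ '' (K : Set V) ⊆ T} := by
  classical
  have h1 : ∀ w, 0 < (nu W lam w).real {T | (K : Set V) ⊆ T} := by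
    intro w
    rw [measureReal_def]
    exact ENNReal.toReal_pos (nu_cover_pos h hc hlam w K).ne' (measure_ne_top _ _)
  obtain ⟨ε, hε0, hε⟩ : ∃ ε : ℝ, 0 < ε ∧ ∀ w ∈ K, ε ≤ (nu W lam w).real {T | (K : Set V) ⊆ T} := by
    by_cases hK : K.Nonempty
    · obtain ⟨w, hw, hmin⟩ := Finset.exists_min_image K
        (fun w => (nu W lam w).real {T | (K : Set V) ⊆ T}) hK
      exact ⟨_, h1 w, hmin⟩
    · rw [Finset.not_nonempty_iff_eq_empty] at hK
      subst hK
      exact ⟨1, one_pos, by simp⟩
  refine ⟨min ε 1, lt_min hε0 one_pos, min_le_right _ _, ?_⟩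
  rintro φ _ ⟨w, hw, rfl⟩
  refine (min_le_left _ _).trans ((hε w hw).trans ?_)
  rw [measureReal_def, measureReal_def]
  apply le_of_eq
  congr 1
  have hmeas : Measurable (fun T : Set V => φ '' T) := measurable_image φ.toEquiv
  rw [nu_aut h lam φ w, Measure.map_apply hmeas (measurableSet_supset _)]
  congr 1
  ext T
  simp only [Set.mem_ofPred_eq, Set.mem_preimage]
  exact (Set.image_subset_image_iff φ.injective).symm

end Pool.Agent.Work.MP_465498_pr
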