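import Mathlib

/-!
# Neighbourhoods in locally finite graphs, amenability, separated sets
-/

namespace Pool.Agent.Work.MP_465498_pr

open Classical

variable {V : Type*} {G : SimpleGraph V} [G.LocallyFinite]

/-- closed neighbourhood of a finite set -/
noncomputable def nb (G : SimpleGraph V) [G.LocallyFinite] (F : Finset V) : Finset V :=
  F ∪ F.biUnion (fun x => G.neighborFinset x)

lemma mem_nb {F : Finset V} {y : V} : y ∈ nb G F ↔ y ∈ F ∨ ∃ x ∈ F, G.Adj x y := by
  simp [nb]

lemma subset_nb (F : Finset V) : F ⊆ nb G F := Finset.subset_union_left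

lemma nb_mono {F F' : Finset V} (h : F ⊆ F') : nb G F ⊆ nb G F' := by
  intro y hy
  rw [mem_nb] at hy ⊢
  rcases hy with hy | ⟨x, hx, hxy⟩
  · exact Or.inl (h hy)
  · exact Or.inr ⟨x, h hx, hxy⟩

/-- the `n`-neighbourhood of a finite set -/
noncomputable def nbn (G : SimpleGraph V) [G.LocallyFinite] (n : ℕ) (F : Finset V) : Finset V :=
  (nb G)^[n] F

lemma nbn_zero (F : Finset V) : nbn G 0 F = F := rfl

lemma nbn_succ (n : ℕ) (F : Finset V) : nbn G (n + 1) F = nb G (nbn G n F) := by
  unfold nbn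
  rw [Function.iterate_succ_apply']

lemma nbn_succ' (n : ℕ) (F : Finset V) : nbn G (n + 1) F = nbn G n (nb G F) := by
  unfold nbn
  rw [Function.iterate_succ_apply]

lemma nbn_add (m n : ℕ) (F : Finset V) : nbn G (m + n) F = nbn G m (nbn G n F) := by
  unfold nbn
  rw [Function.iterate_add_apply]

lemma nbn_mono {F F' : Finset V} (h : F ⊆ F') (n : ℕ) : nbn G n F ⊆ nbn G n F' := by
  induction n with
  | zero => exact h
  | succ n ih => rw [nbn_succ, nbn_succ]; exact nb_mono ih

lemma subset_nbn (n : ℕ) (F : Finset V) : F ⊆ nbn G n F := by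
  induction n with
  | zero => exact subset_rfl
  | succ n ih => rw [nbn_succ]; exact ih.trans (subset_nb _)

lemma nbn_le {m n : ℕ} (h : m ≤ n) (F : Finset V) : nbn G m F ⊆ nbn G n F := by
  obtain ⟨k, rfl⟩ := Nat.exists_eq_add_of_le h
  rw [add_comm, nbn_add]
  exact subset_nbn _ _

/-- a path of length `n` starting in `F` stays in the neighbourhoods of `F` -/
lemma path_mem_nbn {F : Finset V} {z : ℕ → V} {n : ℕ} (h0 : z 0 ∈ F)
    (h : ∀ k < n, G.Adj (z k) (z (k + 1))) : ∀ k ≤ n, z k ∈ nbn G k F := by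
  intro k
  induction k with
  | zero => intro _; exact h0
  | succ k ih =>
    intro hk
    rw [nbn_succ, mem_nb]
    exact Or.inr ⟨z k, ih (by omega), h k (by omega)⟩

/-- backwards along a path -/
lemma path_mem_nbn' {F : Finset V} {z : ℕ → V} {n : ℕ} (h0 : z n ∈ F)
    (h : ∀ k < n, G.Adj (z k) (z (k + 1))) : z 0 ∈ nbn G n F := by
  have := path_mem_nbn (G := G) (F := F) (z := fun i => z (n - i)) (n := n) (by simpa using h0)
    (by
      intro k hk
      have := (h (n - (k + 1)) (by omega)).symm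
      have e : n - (k + 1) + 1 = n - k := by omega
      rw [e] at this
      exact this) n le_rfl
  simpa using this

lemma mem_nbn_comm {x y : V} {n : ℕ} (h : y ∈ nbn G n {x}) : x ∈ nbn G n {y} := by
  induction n generalizing x y with
  | zero =>
    rw [nbn_zero] at h ⊢
    rw [Finset.mem_singleton] at h ⊢
    exact h.symm
  | succ n ih =>
    rw [nbn_succ, mem_nb] at h
    rw [nbn_succ']
    rcases h with h | ⟨z, hz, hzy⟩
    · exact nbn_mono (subset_nb _) n (ih h)
    · have : x ∈ nbn G n {z} := ih hz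
      refine nbn_mono ?_ n this
      rw [Finset.singleton_subset_iff, mem_nb]
      exact Or.inr ⟨y, Finset.mem_singleton_self y, hzy.symm⟩

lemma nbn_subset_of_mem {m n : ℕ} {x y : V} (h : y ∈ nbn G m {x}) :
    nbn G n {y} ⊆ nbn G (n + m) {x} := by
  rw [nbn_add]
  exact nbn_mono (Finset.singleton_subset_iff.mpr h) n

lemma mem_nbn_iff {n : ℕ} {F : Finset V} {y : V} : y ∈ nbn G n F ↔ ∃ x ∈ F, y ∈ nbn G n {x} := by
  induction n generalizing y with
  | zero => simp [nbn_zero]
  | succ n ih =>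
    rw [nbn_succ, mem_nb]
    constructor
    · rintro (h | ⟨z, hz, hzy⟩)
      · obtain ⟨x, hx, hy⟩ := ih.mp h
        exact ⟨x, hx, by rw [nbn_succ]; exact subset_nb _ hy⟩
      · obtain ⟨x, hx, hy⟩ := ih.mp hz
        exact ⟨x, hx, by rw [nbn_succ, mem_nb]; exact Or.inr ⟨z, hy, hzy⟩⟩
    · rintro ⟨x, hx, hy⟩
      rw [nbn_succ, mem_nb] at hy
      rcases hy with hy | ⟨z, hz, hzy⟩
      · exact Or.inl (ih.mpr ⟨x, hx, hy⟩)
      · exact Or.inr ⟨z, ih.mpr ⟨x, hx, hz⟩, hzy⟩

section card

variable {D : ℕ} (hD : ∀ x, G.degree x = D)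
include hD

lemma card_nb (F : Finset V) : (nb G F).card ≤ (D + 1) * F.card := by
  calc (nb G F).card ≤ F.card + (F.biUnion (fun x => G.neighborFinset x)).card :=
        Finset.card_union_le _ _
    _ ≤ F.card + ∑ x ∈ F, (G.neighborFinset x).card := by gcongr; exact Finset.card_biUnion_le
    _ = F.card + ∑ x ∈ F, D := by
        congr 1
        apply Finset.sum_congr rfl
        intro x _
        exact hD x
    _ = (D + 1) * F.card := by rw [Finset.sum_const, smul_eq_mul]; ring

lemma card_nbn (n : ℕ) (F : Finset V) : (nbn G n F).card ≤ (D + 1) ^ n * F.card := by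
  induction n with
  | zero => simp [nbn_zero]
  | succ n ih =>
    rw [nbn_succ]
    calc (nb G (nbn G n F)).card ≤ (D + 1) * (nbn G n F).card := card_nb hD _
      _ ≤ (D + 1) * ((D + 1) ^ n * F.card) := by gcongr
      _ = (D + 1) ^ (n + 1) * F.card := by ring

end card

/-- every neighbourhood is covered by the set and a neighbourhood of its outer boundary -/
lemma nbn_subset_union (n : ℕ) (F : Finset V) : nbn G n F ⊆ F ∪ nbn G n (nb G F \ F) := by
  induction n with
  | zero => exact Finset.subset_union_left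
  | succ n ih =>
    rw [nbn_succ]
    refine (nb_mono ih).trans ?_
    intro y hy
    rw [mem_nb] at hy
    rw [Finset.mem_union]
    have hcase : ∀ y, y ∈ F ∪ nbn G n (nb G F \ F) → y ∈ F ∨ y ∈ nbn G (n + 1) (nb G F \ F) := by
      intro y hy
      rcases Finset.mem_union.mp hy with h | h
      · exact Or.inl h
      · exact Or.inr (nbn_le (Nat.le_succ n) _ h)
    rcases hy with hy | ⟨x, hx, hxy⟩
    · exact hcase y hy
    · rcases Finset.mem_union.mp hx with hx | hx
      · by_cases hyF : y ∈ F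
        · exact Or.inl hyF
        · right
          apply subset_nbn
          rw [Finset.mem_sdiff, mem_nb]
          exact ⟨Or.inr ⟨x, hx, hxy⟩, hyF⟩
      · right
        rw [nbn_succ, mem_nb]
        exact Or.inr ⟨x, hx, hxy⟩

/-- Folner sets with small `n`-neighbourhoods -/
lemma exists_folner {D : ℕ} (hD : ∀ x, G.degree x = D)
    (ham : ∀ ε : ℝ, 0 < ε → ∃ F : Finset V, F.Nonempty ∧ ((nb G F \ F).card : ℝ) ≤ ε * F.card)
    (n : ℕ) : ∃ F : Finset V, F.Nonempty ∧ (nbn G n F).card ≤ 2 * F.card := by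
  have hpos : (0 : ℝ) < (((D : ℝ) + 1) ^ n)⁻¹ := by positivity
  obtain ⟨F, hF, hb⟩ := ham _ hpos
  refine ⟨F, hF, ?_⟩
  have h1 : (nbn G n F).card ≤ F.card + (D + 1) ^ n * (nb G F \ F).card := by
    calc (nbn G n F).card ≤ (F ∪ nbn G n (nb G F \ F)).card :=
          Finset.card_le_card (nbn_subset_union n F)
      _ ≤ F.card + (nbn G n (nb G F \ F)).card := Finset.card_union_le _ _
      _ ≤ _ := by gcongr; exact card_nbn hD n _
  have h2 : ((D + 1) ^ n * (nb G F \ F).card : ℝ) ≤ F.card := by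
    calc (((D : ℝ) + 1) ^ n * (nb G F \ F).card : ℝ)
        ≤ ((D : ℝ) + 1) ^ n * ((((D : ℝ) + 1) ^ n)⁻¹ * F.card) := by gcongr
      _ = F.card := by
          rw [← mul_assoc, mul_inv_cancel₀ (by positivity), one_mul]
  have h3 : (D + 1) ^ n * (nb G F \ F).card ≤ F.card := by exact_mod_cast h2
  omega

/-- separated sets -/
def Sep (G : SimpleGraph V) [G.LocallyFinite] (ρ : ℕ) (M : Finset V) : Prop :=
  ∀ i ∈ M, ∀ j ∈ M, i ≠ j → j ∉ nbn G ρ {i}

/-- maximal separated subsets -/
lemma exists_separated {D : ℕ} (hD : ∀ x, G.degree x = D) (F : Finset V) (ρ : ℕ) :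
    ∃ M ⊆ F, Sep G ρ M ∧ F.card ≤ (D + 1) ^ ρ * M.card := by
  set 𝒮 := F.powerset.filter (fun M => Sep G ρ M) with h𝒮
  have hne : 𝒮.Nonempty := by
    refine ⟨∅, ?_⟩
    rw [h𝒮, Finset.mem_filter]
    exact ⟨Finset.empty_mem_powerset _, fun i hi => absurd hi (Finset.notMem_empty i)⟩
  obtain ⟨M, hM, hmax⟩ := Finset.exists_max_image 𝒮 Finset.card hne
  rw [h𝒮, Finset.mem_filter, Finset.mem_powerset] at hM
  refine ⟨M, hM.1, hM.2, ?_⟩
  have hcov : F ⊆ nbn G ρ M := by
    intro y hy
    by_contra hcon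
    have hyM : y ∉ M := fun h => hcon (subset_nbn _ _ h)
    have hins : insert y M ∈ 𝒮 := by
      rw [h𝒮, Finset.mem_filter, Finset.mem_powerset]
      refine ⟨Finset.insert_subset hy hM.1, ?_⟩
      intro i hi j hj hij hji
      rcases Finset.mem_insert.mp hi with hi' | hi'
      · rcases Finset.mem_insert.mp hj with hj' | hj'
        · exact hij (hi'.trans hj'.symm)
        · subst hi'
          exact hcon (mem_nbn_iff.mpr ⟨j, hj', mem_nbn_comm hji⟩)
      · rcases Finset.mem_insert.mp hj with hj' | hj'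
        · subst hj'
          exact hcon (mem_nbn_iff.mpr ⟨i, hi', hji⟩)
        · exact hM.2 i hi' j hj' hij hji
    have := hmax _ hins
    rw [Finset.card_insert_of_notMem hyM] at this
    omega
  exact (Finset.card_le_card hcov).trans (card_nbn hD ρ M)

section aut

omit [G.LocallyFinite] in
lemma degree_eq [G.LocallyFinite] (htr : ∀ x y : V, ∃ φ : G ≃g G, φ x = y) (x y : V) :
    G.degree x = G.degree y := by
  obtain ⟨φ, rfl⟩ := htr x y
  exact (φ.degree_eq x).symm

lemma nb_image (φ : G ≃g G) (F : Finset V) : nb G (F.image φ) = (nb G F).image φ := by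
  ext y
  rw [mem_nb, Finset.mem_image, Finset.mem_image]
  constructor
  · rintro (⟨x, hx, rfl⟩ | ⟨z, hz, hzy⟩)
    · exact ⟨x, subset_nb _ hx, rfl⟩
    · obtain ⟨x, hx, rfl⟩ := Finset.mem_image.mp hz
      refine ⟨φ.symm y, ?_, by simp⟩
      rw [mem_nb]
      right
      refine ⟨x, hx, ?_⟩
      rw [← φ.map_adj_iff]
      simpa using hzy
  · rintro ⟨x, hx, rfl⟩
    rw [mem_nb] at hx
    rcases hx with hx | ⟨z, hz, hzx⟩
    · exact Or.inl ⟨x, hx, rfl⟩
    · exact Or.inr ⟨φ z, Finset.mem_image_of_mem _ hz, φ.map_adj_iff.mpr hzx⟩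

lemma nbn_image (φ : G ≃g G) (n : ℕ) (F : Finset V) :
    nbn G n (F.image φ) = (nbn G n F).image φ := by
  induction n with
  | zero => rfl
  | succ n ih => rw [nbn_succ, nbn_succ, ih, nb_image]

lemma mem_nbn_aut (φ : G ≃g G) (n : ℕ) {x o : V} (h : x ∈ nbn G n {o}) :
    φ x ∈ nbn G n {φ o} := by
  have h1 := nbn_image φ n {o}
  rw [Finset.image_singleton] at h1
  rw [h1]
  exact Finset.mem_image_of_mem _ h

end aut

/-- every vertex is in a ball -/
lemma exists_mem_nbn (hc : G.Connected) (x y : V) : ∃ n, y ∈ nbn G n {x} := by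
  obtain ⟨p⟩ := hc.preconnected x y
  induction p with
  | nil => exact ⟨0, by simp [nbn_zero]⟩
  | @cons u v w huv _ ih =>
    obtain ⟨n, hn⟩ := ih
    refine ⟨n + 1, ?_⟩
    rw [nbn_succ']
    refine nbn_mono ?_ n hn
    rw [Finset.singleton_subset_iff, mem_nb]
    exact Or.inr ⟨u, Finset.mem_singleton_self u, huv⟩

lemma exists_subset_nbn (hc : G.Connected) (x : V) (F : Finset V) : ∃ n, F ⊆ nbn G n {x} := by
  induction F using Finset.induction_on with
  | empty => exact ⟨0, by simp⟩
  | insert y F _ ih =>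
    obtain ⟨n, hn⟩ := ih
    obtain ⟨m, hm⟩ := exists_mem_nbn hc x y
    refine ⟨max m n, ?_⟩
    rw [Finset.insert_subset_iff]
    exact ⟨nbn_le (le_max_left _ _) _ hm, hn.trans (nbn_le (le_max_right _ _) _)⟩

lemma countable_of_connected (hc : G.Connected) : Countable V := by
  obtain ⟨x⟩ := hc.nonempty
  rw [← Set.countable_univ_iff]
  have : (Set.univ : Set V) = ⋃ n : ℕ, (nbn G n {x} : Set V) := by
    ext y
    simp only [Set.mem_univ, Set.mem_iUnion, true_iff]
    obtain ⟨n, hn⟩ := exists_mem_nbn hc x y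
    exact ⟨n, hn⟩
  rw [this]
  exact Set.countable_iUnion fun n => (nbn G n {x}).countable_toSet

end Pool.Agent.Work.MP_465498_pr
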