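import Pool.Agent.Work.MP_465498_pr.Walk

/-!
# Potential theory of simple random walk on a transitive graph
-/

set_option linter.unusedSectionVars false
set_option linter.style.haveILetI false

namespace Pool.Agent.Work.MP_465498_pr

open MeasureTheory Measure ProbabilityTheory
open scoped ENNReal NNReal

variable {V : Type*} [MeasurableSpace V] [DiscreteMeasurableSpace V] [Countable V]
  {G : SimpleGraph V} [G.LocallyFinite] {D : ℕ} {W : V → Measure (ℕ → V)}

/-- apply a map to every vertex of a path -/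
def mapp (φ : V → V) (ω : ℕ → V) : ℕ → V := fun n => φ (ω n)

lemma measurable_mapp (φ : V → V) : Measurable (mapp φ) := by
  rw [measurable_pi_iff]
  intro n
  exact (Measurable.of_discrete).comp (measurable_pi_apply n)

/-- invariance under automorphisms -/
lemma Srw.map_aut (h : Srw G D W) (φ : G ≃g G) (x : V) : W (φ x) = (W x).map (mapp φ) := by
  haveI := h.prob
  haveI : IsProbabilityMeasure ((W x).map (mapp φ)) :=
    isProbabilityMeasure_map (measurable_mapp φ).aemeasurable
  apply ext_cyl
  intro n γ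
  rw [Measure.map_apply (measurable_mapp φ) (measurableSet_cyl n γ)]
  have h1 : mapp φ ⁻¹' (cyl n γ) = cyl n (fun k => φ.symm (γ k)) := by
    ext ω
    simp only [Set.mem_preimage, cyl, Set.mem_ofPred_eq, mapp]
    constructor
    · intro hc k hk
      rw [← hc k hk]; simp
    · intro hc k hk
      rw [hc k hk]; simp
  rw [h1]
  by_cases hp : γ 0 = φ x ∧ IsPath G n γ
  · rw [h.cyl_path _ n γ hp.1 hp.2, h.cyl_path]
    · rw [hp.1]; simp
    · intro k hk
      rw [← φ.map_adj_iff]
      simpa using hp.2 k hk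
  · rw [h.cyl_zero _ n γ hp, h.cyl_zero]
    rintro ⟨h2, h3⟩
    apply hp
    refine ⟨by rw [← h2]; simp, ?_⟩
    intro k hk
    have := h3 k hk
    rw [← φ.map_adj_iff] at this
    simpa using this

lemma Srw.pr_aut (h : Srw G D W) (φ : G ≃g G) (n : ℕ) (x y : V) :
    pr W n (φ x) (φ y) = pr W n x y := by
  unfold pr
  rw [h.map_aut φ x, Measure.map_apply (measurable_mapp φ) (measurableSet_eq n _)]
  congr 1
  ext ω
  simp [mapp]

/-- the walk never returns to `B` after time `0` -/
def noret (B : Set V) : Set (ℕ → V) := {ω | ∀ i, ω (i + 1) ∉ B}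

lemma measurableSet_noret (B : Set V) : MeasurableSet (noret B) := by
  have : noret B = ⋂ i, {ω : ℕ → V | ω (i + 1) ∈ Bᶜ} := by
    ext ω; simp [noret]
  rw [this]
  exact MeasurableSet.iInter fun i => measurableSet_eval _ _

/-- the walk hits `B` -/
def hit (B : Set V) : Set (ℕ → V) := {ω | ∃ i, ω i ∈ B}

lemma measurableSet_hit (B : Set V) : MeasurableSet (hit B) := by
  have : hit B = ⋃ i, {ω : ℕ → V | ω i ∈ B} := by
    ext ω; simp [hit]
  rw [this]
  exact MeasurableSet.iUnion fun i => measurableSet_eval _ _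

/-- time `0` is the last visit to `B` -/
def lastv (B : Set V) : Set (ℕ → V) := {ω | ω 0 ∈ B ∧ ∀ i, ω (i + 1) ∉ B}

lemma measurableSet_lastv (B : Set V) : MeasurableSet (lastv B) := by
  have : lastv B = {ω : ℕ → V | ω 0 ∈ B} ∩ noret B := rfl
  rw [this]
  exact (measurableSet_eval _ _).inter (measurableSet_noret B)

lemma disjoint_lastv (B : Set V) :
    Pairwise (Function.onFun Disjoint (fun n => shift^[n] ⁻¹' (lastv B))) := by
  intro m n hmn
  rw [Function.onFun, Set.disjoint_left]
  intro ω h1 h2
  simp only [Set.mem_preimage, lastv, Set.mem_ofPred_eq, shift_iterate] at h1 h2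
  rcases lt_or_gt_of_ne hmn with hlt | hlt
  · have := h1.2 (n - m - 1)
    rw [show m + (n - m - 1 + 1) = n + 0 by omega] at this
    exact this h2.1
  · have := h2.2 (m - n - 1)
    rw [show n + (m - n - 1 + 1) = m + 0 by omega] at this
    exact this h1.1

lemma Srw.lastv_mem (h : Srw G D W) {B : Set V} {b : V} (hb : b ∈ B) :
    W b (lastv B) = W b (noret B) := by
  apply measure_congr
  filter_upwards [h.ae_start b] with ω hω
  apply propext
  show (ω 0 ∈ B ∧ ∀ i, ω (i + 1) ∉ B) ↔ (∀ i, ω (i + 1) ∉ B)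
  rw [hω]
  simp [hb]

lemma Srw.lastv_notMem (h : Srw G D W) {B : Set V} {b : V} (hb : b ∉ B) :
    W b (lastv B) = 0 := by
  refine measure_mono_null ?_ (h.start b)
  intro ω hω h2
  apply hb
  rw [← h2]
  exact hω.1

/-- Green's function -/
noncomputable def green (W : V → Measure (ℕ → V)) (x y : V) : ℝ≥0∞ := ∑' n, pr W n x y

lemma Srw.green_symm (h : Srw G D W) (x y : V) : green W x y = green W y x := by
  unfold green
  exact tsum_congr fun n => h.pr_symm n x y

lemma Srw.green_mul_le (h : Srw G D W) (x y : V) : green W x y * W y (noret {y}) ≤ 1 := by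
  haveI := h.prob
  have h1 : ∀ n, W x (shift^[n] ⁻¹' (lastv {y})) = pr W n x y * W y (noret {y}) := by
    intro n
    rw [h.markov n x (measurableSet_lastv _), tsum_eq_single y]
    · rw [h.lastv_mem (Set.mem_singleton y)]
    · intro z hz
      rw [h.lastv_notMem (by simpa using hz), mul_zero]
  unfold green
  rw [← ENNReal.tsum_mul_right]
  simp_rw [← h1]
  rw [← measure_iUnion (disjoint_lastv {y})
    (fun n => (measurable_shift.iterate n) (measurableSet_lastv _))]
  exact prob_le_one

lemma Srw.green_ne_top (h : Srw G D W) (x y : V) (he : W y (noret {y}) ≠ 0) :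
    green W x y ≠ ∞ := by
  intro hcon
  have := h.green_mul_le x y
  rw [hcon, ENNReal.top_mul he] at this
  simp at this

lemma Srw.hit_le_green (h : Srw G D W) (x y : V) : W x (hit {y}) ≤ green W x y := by
  have : hit {y} = ⋃ i, {ω : ℕ → V | ω i = y} := by
    ext ω; simp [hit]
  rw [this]
  exact measure_iUnion_le _

lemma two_mul_le_sq (a b : ℝ≥0∞) : 2 * (a * b) ≤ a * a + b * b := by
  rcases le_total a b with hab | hab
  · obtain ⟨c, rfl⟩ := exists_add_of_le hab
    calc 2 * (a * (a + c)) ≤ 2 * (a * (a + c)) + c * c := le_self_add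
      _ = a * a + (a + c) * (a + c) := by ring
  · obtain ⟨c, rfl⟩ := exists_add_of_le hab
    calc 2 * ((b + c) * b) ≤ 2 * ((b + c) * b) + c * c := le_self_add
      _ = (b + c) * (b + c) + b * b := by ring

lemma tsum_drop (N : ℕ) {f : ℕ → ℝ≥0∞} (hf : ∀ n < N, f n = 0) :
    ∑' n, f n = ∑' n, f (n + N) := by
  rw [← ENNReal.summable.sum_add_tsum_nat_add' (k := N), Finset.sum_eq_zero, zero_add]
  intro n hn
  exact hf n (Finset.mem_range.mp hn)

section transitive

variable (htr : ∀ x y : V, ∃ φ : G ≃g G, φ x = y)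
include htr

lemma Srw.pr_diag (h : Srw G D W) (n : ℕ) (x y : V) : pr W n x x = pr W n y y := by
  obtain ⟨φ, rfl⟩ := htr x y
  exact (h.pr_aut φ n x x).symm

lemma Srw.noret_diag (h : Srw G D W) (x y : V) : W x (noret {x}) = W y (noret {y}) := by
  obtain ⟨φ, rfl⟩ := htr x y
  rw [h.map_aut φ x, Measure.map_apply (measurable_mapp φ) (measurableSet_noret _)]
  congr 1
  ext ω
  simp [mapp, noret]

lemma Srw.pr_even_le (h : Srw G D W) (n : ℕ) (x y o : V) :
    pr W (2 * n) x y ≤ pr W (2 * n) o o := by
  have h1 : 2 * pr W (2 * n) x y ≤ 2 * pr W (2 * n) o o := by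
    calc 2 * pr W (2 * n) x y = ∑' z, 2 * (pr W n x z * pr W n z y) := by
          rw [two_mul n, h.chapman n n x y, ENNReal.tsum_mul_left]
      _ ≤ ∑' z, (pr W n x z * pr W n x z + pr W n z y * pr W n z y) :=
          ENNReal.tsum_le_tsum fun z => two_mul_le_sq _ _
      _ = ∑' z, pr W n x z * pr W n z x + ∑' z, pr W n y z * pr W n z y := by
          rw [ENNReal.tsum_add]
          congr 1
          · exact tsum_congr fun z => by rw [h.pr_symm n z x]
          · exact tsum_congr fun z => by rw [h.pr_symm n y z]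
      _ = pr W (2 * n) x x + pr W (2 * n) y y := by
          rw [two_mul n, h.chapman n n x x, h.chapman n n y y]
      _ = 2 * pr W (2 * n) o o := by
          rw [h.pr_diag htr (2 * n) x o, h.pr_diag htr (2 * n) y o]
          exact (two_mul _).symm
  exact (ENNReal.mul_le_mul_iff_right (by norm_num) (by norm_num)).mp h1

lemma Srw.pr_odd_le (h : Srw G D W) (n : ℕ) (x y o : V) :
    pr W (2 * n + 1) x y ≤ pr W (2 * n) o o := by
  rw [h.pr_succ]
  calc (D : ℝ≥0∞)⁻¹ * ∑ z ∈ G.neighborFinset x, pr W (2 * n) z y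
      ≤ (D : ℝ≥0∞)⁻¹ * ∑ z ∈ G.neighborFinset x, pr W (2 * n) o o := by
        gcongr with z _
        exact h.pr_even_le htr n z y o
    _ = pr W (2 * n) o o := by
        have hcard : (G.neighborFinset x).card = D := h.deg x
        rw [Finset.sum_const, hcard, nsmul_eq_mul, ← mul_assoc, h.inv_mul, one_mul]

/-- Green's function tends to zero at infinity -/
lemma Srw.green_finite (h : Srw G D W) (o : V) (he : W o (noret {o}) ≠ 0) (x : V) {δ : ℝ≥0∞}
    (hδ : 0 < δ) : {y | δ ≤ green W x y}.Finite := by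
  have hsum : ∑' n, pr W (2 * n) o o ≠ ∞ := by
    have hle : ∑' n, pr W (2 * n) o o ≤ green W o o :=
      ENNReal.tsum_comp_le_tsum_of_injective
        (fun a b hab => by simpa using hab : Function.Injective (fun n : ℕ => 2 * n)) _
    exact ne_top_of_le_ne_top (h.green_ne_top o o he) hle
  have htend := ENNReal.tendsto_sum_nat_add (fun n => pr W (2 * n) o o) hsum
  have hδ2 : 0 < δ / 2 / 2 := by
    rw [pos_iff_ne_zero] at hδ ⊢
    intro h0
    rw [ENNReal.div_eq_zero_iff, ENNReal.div_eq_zero_iff] at h0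
    rcases h0 with (h0 | h0) | h0
    · exact hδ h0
    · exact ENNReal.ofNat_ne_top h0
    · exact ENNReal.ofNat_ne_top h0
  by_cases hδt : δ = ∞
  · subst hδt
    convert Set.finite_empty
    ext y
    simp only [Set.mem_ofPred_eq, top_le_iff, Set.mem_empty_iff_false, iff_false]
    apply h.green_ne_top
    rw [h.noret_diag htr y o]
    exact he
  have hev := htend.eventually (gt_mem_nhds hδ2)
  obtain ⟨N, hN⟩ := hev.exists
  have hfin : (⋃ n ∈ Finset.range (2 * N), {y | pr W n x y ≠ 0}).Finite :=
    (Finset.range (2 * N)).finite_toSet.biUnion (fun n _ => h.pr_finite n x)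
  apply hfin.subset
  intro y hy
  by_contra hcon
  simp only [Set.mem_iUnion, Set.mem_ofPred_eq, exists_prop, not_exists, not_and, not_not,
    Finset.mem_range] at hcon
  have hg : green W x y ≤ 2 * (δ / 2 / 2) := by
    unfold green
    have hsplit : ∑' n, pr W n x y = ∑' n, pr W (2 * n) x y + ∑' n, pr W (2 * n + 1) x y :=
      (tsum_even_add_odd ENNReal.summable ENNReal.summable).symm
    rw [hsplit, two_mul]
    have heven : ∀ n < N, pr W (2 * n) x y = 0 := fun n hn => hcon (2 * n) (by omega)
    have hodd : ∀ n < N, pr W (2 * n + 1) x y = 0 := fun n hn => hcon (2 * n + 1) (by omega)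
    apply add_le_add
    · rw [tsum_drop N heven]
      exact (ENNReal.tsum_le_tsum fun n => h.pr_even_le htr (n + N) x y o).trans hN.le
    · rw [tsum_drop N hodd]
      exact (ENNReal.tsum_le_tsum fun n => h.pr_odd_le htr (n + N) x y o).trans hN.le
  have h2 : 2 * (δ / 2 / 2) = δ / 2 :=
    ENNReal.mul_div_cancel (by norm_num) (by norm_num)
  rw [h2] at hg
  have h3 : δ / 2 < δ := ENNReal.half_lt_self hδ.ne' hδt
  exact absurd (hy.trans hg) (not_le.mpr h3)

end transitive

end Pool.Agent.Work.MP_465498_pr
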