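import Pool.Agent.Work.MP_465498_pr.Green

/-!
# Potential theory of simple random walk on a transitive graph, second part
-/

set_option linter.unusedSectionVars false
set_option linter.style.haveILetI false

namespace Pool.Agent.Work.MP_465498_pr

open MeasureTheory Measure ProbabilityTheory
open scoped ENNReal NNReal

variable {V : Type*} [MeasurableSpace V] [DiscreteMeasurableSpace V] [Countable V]
  {G : SimpleGraph V} [G.LocallyFinite] {D : ℕ} {W : V → Measure (ℕ → V)}

/-- lower bound for the escape probabilities -/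
lemma Srw.noret_le (h : Srw G D W) [DecidableEq V] (B : Finset V) (b : V) :
    W b (noret {b}) ≤ W b (noret (B : Set V)) + ∑ c ∈ B.erase b, green W b c := by
  have hsub : noret {b} ⊆ noret (B : Set V) ∪ ⋃ c ∈ B.erase b, hit {c} := by
    intro ω hω
    by_cases h1 : ω ∈ noret (B : Set V)
    · exact Or.inl h1
    · right
      simp only [noret, Set.mem_ofPred_eq, not_forall, not_not, Finset.mem_coe] at h1
      obtain ⟨i, hi⟩ := h1
      simp only [Set.mem_iUnion]
      refine ⟨ω (i + 1), Finset.mem_erase.mpr ⟨?_, hi⟩, i + 1, rfl⟩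
      exact hω i
  calc W b (noret {b}) ≤ W b (noret (B : Set V) ∪ ⋃ c ∈ B.erase b, hit {c}) := measure_mono hsub
    _ ≤ W b (noret (B : Set V)) + W b (⋃ c ∈ B.erase b, hit {c}) := measure_union_le _ _
    _ ≤ W b (noret (B : Set V)) + ∑ c ∈ B.erase b, W b (hit {c}) := by
        gcongr; exact measure_biUnion_finset_le _ _
    _ ≤ _ := by
        gcongr with c _
        exact h.hit_le_green b c

/-- the sum of all walk laws -/
noncomputable def tot (W : V → Measure (ℕ → V)) : Measure (ℕ → V) := Measure.sum W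

lemma tot_apply (W : V → Measure (ℕ → V)) {E : Set (ℕ → V)} (hE : MeasurableSet E) :
    tot W E = ∑' x, W x E := Measure.sum_apply _ hE

lemma le_tot (W : V → Measure (ℕ → V)) (x : V) {E : Set (ℕ → V)} (hE : MeasurableSet E) :
    W x E ≤ tot W E := by
  rw [tot_apply W hE]
  exact ENNReal.le_tsum x

/-- the total measure is invariant under the shift -/
lemma Srw.tot_shift (h : Srw G D W) {E : Set (ℕ → V)} (hE : MeasurableSet E) :
    tot W (shift ⁻¹' E) = tot W E := by
  classical
  rw [tot_apply W (measurable_shift hE), tot_apply W hE]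
  have h1 : ∀ x, W x (shift ⁻¹' E) = ∑' z, (D : ℝ≥0∞)⁻¹ * (if G.Adj x z then W z E else 0) := by
    intro x
    rw [h.step_shift x hE, ENNReal.tsum_mul_left]
    congr 1
    rw [tsum_eq_sum (s := G.neighborFinset x)]
    · apply Finset.sum_congr rfl
      intro z hz
      rw [if_pos ((G.mem_neighborFinset x z).mp hz)]
    · intro z hz
      rw [if_neg (fun hc => hz ((G.mem_neighborFinset x z).mpr hc))]
  simp_rw [h1]
  rw [ENNReal.tsum_comm]
  apply tsum_congr
  intro z
  rw [tsum_eq_sum (s := G.neighborFinset z)]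
  · have hcard : (G.neighborFinset z).card = D := h.deg z
    rw [Finset.sum_congr rfl (g := fun _ => (D : ℝ≥0∞)⁻¹ * W z E)]
    · rw [Finset.sum_const, hcard, nsmul_eq_mul, ← mul_assoc, mul_comm (D : ℝ≥0∞), h.inv_mul,
        one_mul]
    · intro x hx
      rw [if_pos ((G.mem_neighborFinset z x).mp hx).symm]
  · intro x hx
    rw [if_neg (fun hc => hx ((G.mem_neighborFinset z x).mpr hc.symm)), mul_zero]

lemma Srw.tot_shift_iterate (h : Srw G D W) (n : ℕ) {E : Set (ℕ → V)} (hE : MeasurableSet E) :
    tot W (shift^[n] ⁻¹' E) = tot W E := by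
  induction n with
  | zero => rfl
  | succ n ih =>
    have e : shift^[n + 1] ⁻¹' E = shift ⁻¹' (shift^[n] ⁻¹' E) := by
      ext ω
      simp only [Set.mem_preimage, Function.iterate_succ_apply]
    rw [e, h.tot_shift ((measurable_shift.iterate n) hE), ih]

/-- the capacity -/
noncomputable def cap (W : V → Measure (ℕ → V)) (B : Finset V) : ℝ≥0∞ :=
  ∑ b ∈ B, W b (noret (B : Set V))

lemma Srw.tot_lastv (h : Srw G D W) (B : Finset V) : tot W (lastv (B : Set V)) = cap W B := by
  rw [tot_apply W (measurableSet_lastv _), tsum_eq_sum (s := B)]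
  · apply Finset.sum_congr rfl
    intro b hb
    exact h.lastv_mem (Finset.mem_coe.mpr hb)
  · intro b hb
    exact h.lastv_notMem (fun hc => hb (Finset.mem_coe.mp hc))

lemma Srw.tot_hit_ge (h : Srw G D W) (B : Finset V) (n : ℕ) :
    ((n : ℝ≥0∞) + 1) * cap W B ≤ tot W {ω | ∃ k ≤ n, ω k ∈ B} := by
  have hsub : (⋃ k ∈ Finset.range (n + 1), shift^[k] ⁻¹' (lastv (B : Set V))) ⊆
      {ω | ∃ k ≤ n, ω k ∈ B} := by
    intro ω hω
    simp only [Set.mem_iUnion, Finset.mem_range, exists_prop] at hω
    obtain ⟨k, hk, hω⟩ := hω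
    refine ⟨k, by omega, ?_⟩
    have := hω.1
    rwa [shift_iterate] at this
  calc ((n : ℝ≥0∞) + 1) * cap W B
      = ∑ k ∈ Finset.range (n + 1), tot W (shift^[k] ⁻¹' (lastv (B : Set V))) := by
        rw [Finset.sum_congr rfl (g := fun _ => cap W B)]
        · simp
        · intro k _
          rw [h.tot_shift_iterate k (measurableSet_lastv _), h.tot_lastv]
    _ = tot W (⋃ k ∈ Finset.range (n + 1), shift^[k] ⁻¹' (lastv (B : Set V))) := by
        rw [measure_biUnion_finset]
        · intro i _ j _ hij
          exact disjoint_lastv (B : Set V) hij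
        · intro k _
          exact (measurable_shift.iterate k) (measurableSet_lastv _)
    _ ≤ _ := measure_mono hsub

/-- in the transient case the expected number of vertices from which `y` is hit is infinite -/
lemma Srw.tsum_hit (h : Srw G D W) (y : V) (he : W y (noret {y}) ≠ 0) :
    ∑' x, W x (hit {y}) = ∞ := by
  rw [← tot_apply W (measurableSet_hit _)]
  rw [eq_top_iff]
  have hcap : cap W {y} = W y (noret {y}) := by
    unfold cap
    simp
  have h1 : ∀ n : ℕ, (n : ℝ≥0∞) * W y (noret {y}) ≤ tot W (hit {y}) := by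
    intro n
    calc (n : ℝ≥0∞) * W y (noret {y}) ≤ ((n : ℝ≥0∞) + 1) * cap W {y} := by
          rw [hcap]; gcongr; exact le_self_add
      _ ≤ tot W {ω | ∃ k ≤ n, ω k ∈ ({y} : Finset V)} := h.tot_hit_ge {y} n
      _ ≤ _ := by
          apply measure_mono
          rintro ω ⟨k, _, hk⟩
          exact ⟨k, by simpa using hk⟩
  by_contra hcon
  rw [not_le, lt_top_iff_ne_top] at hcon
  obtain ⟨n, hn⟩ := ENNReal.exists_nat_mul_gt he hcon
  exact absurd (h1 n) (not_le.mpr hn)

/-- in the transient case the range is infinite -/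
lemma Srw.ae_infinite (h : Srw G D W) (he : ∀ y, W y (noret {y}) ≠ 0) (x : V) :
    ∀ᵐ ω ∂(W x), (Set.range ω).Infinite := by
  classical
  have h1 : ∀ B : Finset V, ∀ᵐ ω ∂(W x), ¬ (∀ n, ω n ∈ B) := by
    intro B
    rw [ae_iff]
    simp only [not_not]
    have h2 : ∀ n, W x {ω | ∀ n, ω n ∈ B} ≤ ∑ b ∈ B, pr W n x b := by
      intro n
      calc W x {ω | ∀ n, ω n ∈ B} ≤ W x (⋃ b ∈ B, {ω | ω n = b}) := by
            apply measure_mono
            intro ω hω
            simp only [Set.mem_iUnion, Set.mem_ofPred_eq, exists_prop, exists_eq_right']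
            exact hω n
        _ ≤ _ := measure_biUnion_finset_le _ _
    have h3 : Filter.Tendsto (fun n => ∑ b ∈ B, pr W n x b) Filter.atTop (nhds 0) := by
      have : (0 : ℝ≥0∞) = ∑ b ∈ B, 0 := by simp
      rw [this]
      apply tendsto_finsetSum
      intro b _
      exact ENNReal.tendsto_atTop_zero_of_tsum_ne_top (h.green_ne_top x b (he b))
    exact le_antisymm (ge_of_tendsto' h3 h2) zero_le
  rw [← ae_all_iff] at h1
  filter_upwards [h1] with ω hω hfin
  apply hω hfin.toFinset
  intro n
  simp

/-- in the recurrent case every vertex is hit -/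
lemma Srw.recurrent (h : Srw G D W) (hc : G.Connected) (he : ∀ y, W y (noret {y}) = 0)
    (x y : V) : W x (hit {y}) = 1 := by
  haveI := h.prob
  -- the set of good vertices is closed under taking neighbours
  have key : ∀ x, W x (hit {y}) = 1 → ∀ z, G.Adj x z → W z (hit {y}) = 1 := by
    intro x hx z hxz
    have h1 : W x (shift ⁻¹' (hit {y})) = 1 := by
      by_cases hxy : x = y
      · subst hxy
        have : shift ⁻¹' (hit {x}) = (noret {x})ᶜ := by
          ext ω
          simp [hit, noret, shift]
        rw [this, prob_compl_eq_one_iff (measurableSet_noret _)]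
        exact he x
      · rw [← hx]
        apply measure_congr
        filter_upwards [h.ae_start x] with ω hω
        apply propext
        show (∃ i, ω (i + 1) ∈ ({y} : Set V)) ↔ (∃ i, ω i ∈ ({y} : Set V))
        constructor
        · rintro ⟨i, hi⟩; exact ⟨i + 1, hi⟩
        · rintro ⟨i, hi⟩
          cases i with
          | zero =>
            rw [hω] at hi
            exact absurd hi hxy
          | succ i => exact ⟨i, hi⟩
    rw [h.step_shift x (measurableSet_hit _)] at h1
    by_contra hne
    have hlt : W z (hit {y}) < 1 := lt_of_le_of_ne prob_le_one hne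
    have hz : z ∈ G.neighborFinset x := (G.mem_neighborFinset x z).mpr hxz
    have hcard : (G.neighborFinset x).card = D := h.deg x
    have h2 : ∑ w ∈ G.neighborFinset x, W w (hit {y}) < D := by
      calc ∑ w ∈ G.neighborFinset x, W w (hit {y}) < ∑ w ∈ G.neighborFinset x, (1 : ℝ≥0∞) := by
            classical
            rw [← Finset.add_sum_erase _ _ hz, ← Finset.add_sum_erase _ _ hz]
            apply ENNReal.add_lt_add_of_lt_of_le _ hlt (Finset.sum_le_sum fun w _ => prob_le_one)
            exact (ENNReal.sum_lt_top.mpr fun w _ => measure_lt_top _ _).ne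
        _ = D := by rw [Finset.sum_const, hcard, nsmul_eq_mul, mul_one]
    have h3 : (D : ℝ≥0∞) = ∑ w ∈ G.neighborFinset x, W w (hit {y}) := by
      calc (D : ℝ≥0∞) = D * ((D : ℝ≥0∞)⁻¹ * ∑ w ∈ G.neighborFinset x, W w (hit {y})) := by
            rw [h1, mul_one]
        _ = _ := by rw [← mul_assoc, mul_comm (D : ℝ≥0∞), h.inv_mul, one_mul]
    exact absurd h3.symm h2.ne
  have h0 : W y (hit {y}) = 1 := by
    rw [← prob_compl_eq_zero_iff (measurableSet_hit _)]
    refine measure_mono_null ?_ (h.start y)
    intro ω hω h2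
    exact hω ⟨0, h2⟩
  have hr := (SimpleGraph.reachable_iff_reflTransGen y x).mp (hc.preconnected y x)
  induction hr with
  | refl => exact h0
  | tail _ hbc ih => exact key _ ih _ hbc

/-- in the recurrent case the range is everything -/
lemma Srw.ae_range_univ (h : Srw G D W) (hc : G.Connected) (he : ∀ y, W y (noret {y}) = 0)
    (x : V) : ∀ᵐ ω ∂(W x), Set.range ω = Set.univ := by
  haveI := h.prob
  have h1 : ∀ᵐ ω ∂(W x), ∀ y, ω ∈ hit ({y} : Set V) := by
    rw [ae_all_iff]
    intro y
    rw [ae_iff]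
    exact (prob_compl_eq_zero_iff (measurableSet_hit _)).mpr (h.recurrent hc he x y)
  filter_upwards [h1] with ω hω
  rw [Set.eq_univ_iff_forall]
  intro y
  obtain ⟨i, hi⟩ := hω y
  exact ⟨i, hi⟩

/-!
### Counting paths
-/

/-- paths of `n` steps started in `F`, constant after time `n` -/
def pathSet (G : SimpleGraph V) (n : ℕ) (F : Finset V) : Set (ℕ → V) :=
  {z | z 0 ∈ F ∧ IsPath G n z ∧ ∀ k, n ≤ k → z k = z n}

omit [MeasurableSpace V] [DiscreteMeasurableSpace V] [Countable V] in
lemma pathSet_finite (n : ℕ) (F : Finset V) : (pathSet G n F).Finite := by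
  classical
  have hfin : (Set.pi Set.univ (fun _ : Fin (n + 1) => (nbn G n F : Set V))).Finite :=
    Set.Finite.pi fun _ => (nbn G n F).finite_toSet
  apply Set.Finite.of_finite_image (f := fun z (k : Fin (n + 1)) => z k) (hfin.subset ?_)
  · intro z hz z' hz' hzz
    funext k
    by_cases hk : k < n + 1
    · exact congrFun hzz ⟨k, hk⟩
    · rw [hz.2.2 k (by omega), hz'.2.2 k (by omega)]
      exact congrFun hzz ⟨n, by omega⟩
  · rintro _ ⟨z, hz, rfl⟩ k _
    exact nbn_le (by omega) _ (path_mem_nbn hz.1 hz.2.1 k (by omega))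

/-- the hyperedges -/
noncomputable def gam (G : SimpleGraph V) [G.LocallyFinite] (n : ℕ) (F : Finset V) :
    Finset (ℕ → V) := (pathSet_finite (G := G) n F).toFinset

omit [MeasurableSpace V] [DiscreteMeasurableSpace V] [Countable V] in
lemma mem_gam {n : ℕ} {F : Finset V} {z : ℕ → V} :
    z ∈ gam G n F ↔ z 0 ∈ F ∧ IsPath G n z ∧ ∀ k, n ≤ k → z k = z n := by
  simp [gam, pathSet]

omit [MeasurableSpace V] [DiscreteMeasurableSpace V] [Countable V] in
lemma cyl_disjoint {n : ℕ} {F : Finset V} {z z' : ℕ → V} (hz : z ∈ gam G n F)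
    (hz' : z' ∈ gam G n F) (hne : z ≠ z') : Disjoint (cyl n z) (cyl n z') := by
  rw [Set.disjoint_left]
  intro ω h1 h2
  apply hne
  rw [mem_gam] at hz hz'
  funext k
  by_cases hk : k ≤ n
  · rw [← h1 k hk, h2 k hk]
  · rw [hz.2.2 k (by omega), hz'.2.2 k (by omega), ← h1 n le_rfl, h2 n le_rfl]

/-- the number of paths -/
lemma Srw.card_gam (h : Srw G D W) (n : ℕ) (F : Finset V) :
    ((gam G n F).card : ℝ≥0∞) * (D : ℝ≥0∞)⁻¹ ^ n ≤ F.card := by
  classical
  haveI := h.prob
  set μ : Measure (ℕ → V) := ∑ x ∈ F, W x with hμ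
  calc ((gam G n F).card : ℝ≥0∞) * (D : ℝ≥0∞)⁻¹ ^ n = ∑ z ∈ gam G n F, (D : ℝ≥0∞)⁻¹ ^ n := by
        rw [Finset.sum_const, nsmul_eq_mul]
    _ ≤ ∑ z ∈ gam G n F, μ (cyl n z) := by
        apply Finset.sum_le_sum
        intro z hz
        rw [mem_gam] at hz
        rw [hμ, Measure.finsetSum_apply, ← h.cyl_path (z 0) n z rfl hz.2.1]
        exact Finset.single_le_sum (f := fun x => W x (cyl n z)) (fun _ _ => zero_le) hz.1
    _ = μ (⋃ z ∈ gam G n F, cyl n z) := by
        rw [measure_biUnion_finset]
        · intro z hz z' hz' hne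
          exact cyl_disjoint hz hz' hne
        · intro z _
          exact measurableSet_cyl n z
    _ ≤ μ Set.univ := measure_mono (Set.subset_univ _)
    _ = F.card := by
        rw [hμ, Measure.finsetSum_apply]
        simp

/-- the vertices of a path -/
noncomputable def verts [DecidableEq V] (n : ℕ) (z : ℕ → V) : Finset V :=
  (Finset.range (n + 1)).image z

/-- the number of paths hitting a set -/
lemma Srw.card_hit (h : Srw G D W) [DecidableEq V] (n : ℕ) (F B : Finset V)
    (hBF : nbn G n B ⊆ F) :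
    ((n : ℝ≥0∞) + 1) * cap W B ≤
      (((gam G n F).filter (fun z => (verts n z ∩ B).Nonempty)).card : ℝ≥0∞) *
        (D : ℝ≥0∞)⁻¹ ^ n := by
  classical
  set Z := (gam G n F).filter (fun z => (verts n z ∩ B).Nonempty) with hZ
  have hae : ∀ᵐ ω ∂(tot W), ∀ i, G.Adj (ω i) (ω (i + 1)) := by
    unfold tot
    rw [Measure.ae_sum_iff]
    exact fun x => h.ae_adj x
  calc ((n : ℝ≥0∞) + 1) * cap W B ≤ tot W {ω | ∃ k ≤ n, ω k ∈ B} := h.tot_hit_ge B n
    _ ≤ tot W (⋃ z ∈ Z, cyl n z) := by
        apply measure_mono_ae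
        filter_upwards [hae] with ω hω
        rintro ⟨k, hk, hkB⟩
        show ω ∈ ⋃ z ∈ Z, cyl n z
        simp only [Set.mem_iUnion, exists_prop]
        refine ⟨fun i => ω (min i n), ?_, ?_⟩
        · rw [hZ, Finset.mem_filter, mem_gam]
          refine ⟨⟨?_, ?_, ?_⟩, ?_⟩
          · show ω (min 0 n) ∈ F
            rw [Nat.zero_min]
            apply hBF
            apply nbn_le hk
            exact path_mem_nbn' (G := G) (z := ω) hkB (fun i _ => hω i)
          · intro i hi
            show G.Adj (ω (min i n)) (ω (min (i + 1) n))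
            rw [min_eq_left (by omega), min_eq_left (by omega)]
            exact hω i
          · intro i hi
            show ω (min i n) = ω (min n n)
            rw [min_eq_right hi, min_self]
          · refine ⟨ω k, Finset.mem_inter.mpr ⟨?_, hkB⟩⟩
            unfold verts
            rw [Finset.mem_image]
            exact ⟨k, Finset.mem_range.mpr (by omega), by rw [min_eq_left hk]⟩
        · intro i hi
          show ω i = ω (min i n)
          rw [min_eq_left hi]
    _ ≤ ∑ z ∈ Z, tot W (cyl n z) := measure_biUnion_finset_le _ _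
    _ = ∑ z ∈ Z, (D : ℝ≥0∞)⁻¹ ^ n := by
        apply Finset.sum_congr rfl
        intro z hz
        rw [hZ, Finset.mem_filter, mem_gam] at hz
        rw [tot_apply W (measurableSet_cyl n z), tsum_eq_single (z 0)]
        · exact h.cyl_path (z 0) n z rfl hz.1.2.1
        · intro x hx
          exact h.cyl_zero x n z (fun hc => hx hc.1.symm)
    _ = _ := by rw [Finset.sum_const, nsmul_eq_mul]

end Pool.Agent.Work.MP_465498_pr
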