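import Pool.Agent.Work.MP_465498_pr.Transfer

/-!
# The frog model with infinite lifespan on amenable transitive graphs
-/

set_option linter.unusedSectionVars false
set_option linter.style.haveILetI false

namespace Pool.Agent.Work.MP_465498_pr

open MeasureTheory Measure ProbabilityTheory
open scoped ENNReal NNReal

variable {V : Type*} [MeasurableSpace V] [DiscreteMeasurableSpace V]
  {G : SimpleGraph V} [G.LocallyFinite] {lam : ℝ≥0} {Ω : Type*} [MeasurableSpace Ω]
  {P : Measure Ω} [IsProbabilityMeasure P]

/-- amenable regular graphs have Folner sets with small neighbourhoods -/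
lemma folner_of_amenable {D : ℕ} (hD : ∀ x, G.degree x = D) (ham : IsAmenable G) (n : ℕ) :
    ∃ F : Finset V, F.Nonempty ∧ (nbn G n F).card ≤ 2 * F.card := by
  classical
  apply exists_folner hD
  intro ε hε
  obtain ⟨F, hF, hlim⟩ := ham
  obtain ⟨k, hk⟩ := (hlim.eventually (gt_mem_nhds hε)).exists
  refine ⟨F k, hF k, ?_⟩
  have hpos : (0 : ℝ) < (F k).card := by exact_mod_cast (hF k).card_pos
  rw [div_lt_iff₀ hpos] at hk
  refine le_trans (le_of_eq ?_) hk.le
  congr 1
  rw [← Set.ncard_coe_finset]
  congr 1
  ext y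
  simp only [vertexBoundary, Finset.coe_sdiff, Set.mem_sdiff, Finset.mem_coe, mem_nb,
    Set.mem_ofPred_eq]
  constructor
  · rintro ⟨h1 | h1, h2⟩
    · exact absurd h1 h2
    · exact ⟨h2, h1⟩
  · rintro ⟨h1, h2⟩
    exact ⟨Or.inr h2, h1⟩

/-- positive holding times -/
lemma exp_pos : ∀ᵐ t ∂(expMeasure 1), 0 < t := by
  have h1 : expMeasure 1 (Set.Iio 0) = 0 := by
    unfold expMeasure gammaMeasure
    rw [withDensity_apply _ measurableSet_Iio]
    exact lintegral_exponentialPDF_of_nonpos le_rfl
  have h2 : expMeasure 1 {(0 : ℝ)} = 0 := by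
    unfold expMeasure gammaMeasure
    exact (withDensity_absolutelyContinuous _ _) (by simp)
  rw [ae_iff]
  have : {t : ℝ | ¬ 0 < t} = Set.Iio 0 ∪ {0} := by
    ext t
    simp only [not_lt, Set.mem_ofPred_eq, Set.mem_union, Set.mem_Iio, Set.mem_singleton_iff]
    exact le_iff_lt_or_eq
  rw [this]
  exact measure_union_null h1 h2

/-- every state of the jump chain is visited by the continuous-time walk -/
lemma exists_jumpCount {τ : ℕ → ℝ} (hτ : ∀ k, 0 < τ k) (n : ℕ) :
    ∃ t : ℝ, 0 ≤ t ∧ jumpCount τ t = n := by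
  refine ⟨∑ k ∈ Finset.range n, τ k, Finset.sum_nonneg fun k _ => (hτ k).le, ?_⟩
  have hmono : StrictMono (fun m => ∑ k ∈ Finset.range m, τ k) := by
    apply strictMono_nat_of_lt_succ
    intro m
    rw [Finset.sum_range_succ]
    linarith [hτ m]
  unfold jumpCount
  have : {m | ∑ k ∈ Finset.range m, τ k ≤ ∑ k ∈ Finset.range n, τ k} = Set.Iic n := by
    ext m
    exact hmono.le_iff_le
  rw [this, csSup_Iic]

namespace FrogModel

/-- the law of the walks -/
noncomputable def law (m : FrogModel G lam P) (x : V) : Measure (ℕ → V) := P.map (m.jump x 0)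

instance (m : FrogModel G lam P) (x : V) : IsProbabilityMeasure (m.law x) :=
  isProbabilityMeasure_map (m.measurable_jump x 0).aemeasurable

lemma map_jump_cyl (m : FrogModel G lam P) (x : V) (i n : ℕ) (γ : ℕ → V) :
    P.map (m.jump x i) (cyl n γ) = srwProb G x n γ := by
  rw [Measure.map_apply (m.measurable_jump x i) (measurableSet_cyl n γ), ← m.law_jump x i n γ]
  rfl

lemma srw (m : FrogModel G lam P) {D : ℕ} (hD : ∀ x, G.degree x = D) (hD0 : 0 < D) :
    Srw G D m.law := by
  refine ⟨hD, hD0, fun x => inferInstance, ?_, ?_⟩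
  · intro x n γ h0 hp
    unfold law
    rw [m.map_jump_cyl, srwProb, if_pos ⟨h0, hp⟩]
    simp [hD]
  · intro x n γ hn
    unfold law
    rw [m.map_jump_cyl, srwProb]
    exact if_neg hn

lemma map_jump [Countable V] (m : FrogModel G lam P) (x : V) (i : ℕ) :
    P.map (m.jump x i) = m.law x := by
  haveI : IsProbabilityMeasure (P.map (m.jump x i)) :=
    isProbabilityMeasure_map (m.measurable_jump x i).aemeasurable
  apply ext_cyl
  intro n γ
  unfold law
  rw [m.map_jump_cyl, m.map_jump_cyl]

/-- the number of particles and the jump chains of the particles at `x` -/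
def site (m : FrogModel G lam P) (x : V) (ω : Ω) : ℕ × (ℕ → ℕ → V) :=
  (m.η x ω, fun i => m.jump x i ω)

lemma measurable_site (m : FrogModel G lam P) (x : V) : Measurable (m.site x) :=
  (m.measurable_η x).prodMk (measurable_pi_iff.mpr fun i => m.measurable_jump x i)

lemma map_site [Countable V] (m : FrogModel G lam P) (x : V) :
    P.map (m.site x) = qm m.law lam x := by
  have hj : iIndepFun (fun i ω => m.jump x i ω) P :=
    (m.indep_particles x).comp (fun _ p => p.1) (fun _ => measurable_fst)
  have hn : IndepFun (m.η x) (fun ω i => m.jump x i ω) P := by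
    have hm : Measurable (fun (q : ℕ → (ℕ → V) × (ℕ → ℝ)) i => (q i).1) :=
      measurable_pi_iff.mpr fun i => measurable_fst.comp (measurable_pi_apply i)
    exact (m.indep_number x).comp measurable_id hm
  have hmj : Measurable (fun ω i => m.jump x i ω) :=
    measurable_pi_iff.mpr fun i => m.measurable_jump x i
  have h1 := (indepFun_iff_map_prod_eq_prod_map_map (m.measurable_η x).aemeasurable
    hmj.aemeasurable).mp hn
  have h2 := hj.map_fun_eq_infinitePi_map (fun i => m.measurable_jump x i)
  simp_rw [m.map_jump] at h2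
  unfold site qm
  rw [h1, h2, m.law_η]

lemma indep_site (m : FrogModel G lam P) : iIndepFun (fun x ω => m.site x ω) P := by
  have hm : Measurable (fun (q : ℕ × (ℕ → (ℕ → V) × (ℕ → ℝ))) => (q.1, fun i => (q.2 i).1)) :=
    measurable_fst.prodMk (measurable_pi_iff.mpr fun i =>
      measurable_fst.comp ((measurable_pi_apply i).comp measurable_snd))
  exact m.indep_sites.comp (fun _ q => (q.1, fun i => (q.2 i).1)) (fun _ => hm)

lemma map_uset [Countable V] (m : FrogModel G lam P) :
    P.map (fun ω x => uset (m.site x ω)) = infinitePi (fun x : V => nu m.law lam x) := by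
  have h1 := (m.indep_site).map_fun_eq_infinitePi_map (fun x => m.measurable_site x)
  have h2 : (fun ω x => uset (m.site x ω)) =
      (fun (s : V → ℕ × (ℕ → ℕ → V)) x => uset (s x)) ∘ (fun ω x => m.site x ω) := rfl
  rw [h2, ← Measure.map_map]
  · rw [h1]
    simp_rw [m.map_site]
    rw [infinitePi_map_pi (μ := fun x : V => qm m.law lam x) (f := fun _ => uset)
      (fun _ => measurable_uset)]
    rfl
  · rw [measurable_pi_iff]
    intro x
    exact measurable_uset.comp (measurable_pi_apply x)
  · exact measurable_pi_iff.mpr fun x => m.measurable_site x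

/-- coverage -/
theorem coverage [Infinite V] (m : FrogModel G lam P) (hc : G.Connected)
    (htr : IsVertexTransitive G) (ham : IsAmenable G) (hlam : 0 < lam) (o : V) :
    ∀ᵐ ω ∂P, 0 < m.η o ω → m.cluster o ω = Set.univ := by
  haveI : Countable V := countable_of_connected hc
  have hD : ∀ x, G.degree x = G.degree o := fun x => degree_eq htr x o
  have hD0 : 0 < G.degree o := hc.preconnected.degree_pos_of_nontrivial o
  have h := m.srw hD hD0
  have hfull := full_nu h hc htr (folner_of_amenable hD ham) hlam o
  rw [← m.map_uset] at hfull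
  have hmu : Measurable (fun ω x => uset (m.site x ω)) :=
    measurable_pi_iff.mpr fun x => measurable_uset.comp (m.measurable_site x)
  have hfull' : ∀ᵐ ω ∂P, Full o (fun x => uset (m.site x ω)) :=
    ae_of_ae_map hmu.aemeasurable hfull
  have hstart : ∀ᵐ ω ∂P, m.jump o 0 ω 0 = o := by
    have := h.ae_start o
    exact ae_of_ae_map (m.measurable_jump o 0).aemeasurable this
  have hhold : ∀ᵐ ω ∂P, ∀ x i k, 0 < m.hold x i ω k := by
    rw [ae_all_iff]; intro x
    rw [ae_all_iff]; intro i
    rw [ae_all_iff]; intro k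
    haveI : IsProbabilityMeasure (expMeasure 1) := isProbabilityMeasure_expMeasure one_pos
    have h1 : ∀ᵐ τ ∂(Measure.infinitePi (fun _ : ℕ => expMeasure 1)), 0 < τ k :=
      (measurePreserving_eval_infinitePi (fun _ : ℕ => expMeasure 1) k).quasiMeasurePreserving.ae
        exp_pos
    rw [← m.law_hold x i] at h1
    exact ae_of_ae_map (m.measurable_hold x i).aemeasurable h1
  filter_upwards [hfull', hstart, hhold] with ω h1 h2 h3 hη
  rw [Set.eq_univ_iff_forall]
  intro y
  have ho : o ∈ uset (m.site o ω) := ⟨0, hη, 0, h2⟩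
  refine Relation.ReflTransGen.mono ?_ _ _ (h1 ho y)
  rintro x z ⟨i, hi, n, hn⟩
  right
  obtain ⟨t, ht0, ht⟩ := exists_jumpCount (h3 x i) n
  refine ⟨i, hi, t, ht0, ?_⟩
  unfold position
  rw [ht]
  exact hn

/-- coverage, conditionally on the presence of particles at the origin -/
theorem coverage_cond [Infinite V] (m : FrogModel G lam P) (hc : G.Connected)
    (htr : IsVertexTransitive G) (ham : IsAmenable G) (hlam : 0 < lam) (o : V) :
    P[{ω | m.cluster o ω = Set.univ} | {ω | 0 < m.η o ω}] = 1 := by
  have hae := m.coverage hc htr ham hlam o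
  have hms : MeasurableSet {ω | 0 < m.η o ω} :=
    (m.measurable_η o) (MeasurableSet.of_discrete (s := {k : ℕ | 0 < k}))
  have hpos : P {ω | 0 < m.η o ω} ≠ 0 := by
    have h1 : P.map (m.η o) {1} ≠ 0 := by
      rw [m.law_η, poissonMeasure_singleton]
      have hl : (0 : ℝ) < lam := hlam
      have : 0 < Real.exp (-(lam : ℝ)) * (lam : ℝ) ^ 1 / (Nat.factorial 1 : ℝ) := by positivity
      exact (ENNReal.ofReal_pos.mpr this).ne'
    rw [Measure.map_apply (m.measurable_η o) (measurableSet_singleton 1)] at h1
    intro h0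
    apply h1
    refine measure_mono_null ?_ h0
    intro ω hω
    have : m.η o ω = 1 := hω
    show 0 < m.η o ω
    omega
  rw [cond_apply hms]
  have heq : P ({ω | 0 < m.η o ω} ∩ {ω | m.cluster o ω = Set.univ}) = P {ω | 0 < m.η o ω} := by
    apply measure_congr
    filter_upwards [hae] with ω hω
    apply propext
    constructor
    · exact fun h => h.1
    · exact fun h => ⟨h, hω h⟩
  rw [heq]
  exact ENNReal.inv_mul_cancel hpos (measure_ne_top _ _)

end FrogModel

end Pool.Agent.Work.MP_465498_pr
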