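import Pool.Agent.Work.MP_465498_pr.Dom

/-!
# Reachability in the random environment
-/

set_option linter.unusedSectionVars false
set_option linter.style.haveILetI false

namespace Pool.Agent.Work.MP_465498_pr

open MeasureTheory Measure ProbabilityTheory
open scoped ENNReal NNReal

section resample

variable {ι : Type*} [DecidableEq ι] {X : ι → Type*} [∀ i, MeasurableSpace (X i)]

theorem measurable_update_pair (i : ι) :
    Measurable (fun q : X i × (∀ j, X j) => Function.update q.2 i q.1) := by
  rw [measurable_pi_iff]
  intro j
  by_cases h : j = i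
  · subst h
    simp only [Function.update_self]
    exact measurable_fst
  · simp only [Function.update_of_ne h]
    exact (measurable_pi_apply j).comp measurable_snd

variable (μ : ∀ i, Measure (X i)) [∀ i, IsProbabilityMeasure (μ i)]

theorem resample (i : ι) :
    ((μ i).prod (infinitePi μ)).map (fun q => Function.update q.2 i q.1) = infinitePi μ := by
  refine eq_infinitePi μ (fun s t ht => ?_)
  rw [Measure.map_apply (measurable_update_pair i)
    (MeasurableSet.pi s.countable_toSet (fun j _ => ht j))]
  by_cases hi : i ∈ s
  · have h1 : (fun q : X i × (∀ j, X j) => Function.update q.2 i q.1) ⁻¹' (Set.pi s t)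
        = (t i) ×ˢ (Set.pi (s.erase i : Finset ι) t) := by
      ext q
      simp only [Set.mem_preimage, Set.mem_pi, Set.mem_prod, Finset.mem_coe, Finset.mem_erase]
      constructor
      · intro h
        refine ⟨by simpa using h i hi, fun j hj => ?_⟩
        have := h j hj.2
        rwa [Function.update_of_ne hj.1] at this
      · rintro ⟨h1, h2⟩ j hj
        by_cases h : j = i
        · subst h
          simpa using h1
        · rw [Function.update_of_ne h]
          exact h2 j ⟨h, hj⟩
    rw [h1, Measure.prod_prod, infinitePi_pi μ (fun j _ => ht j), ← Finset.mul_prod_erase s _ hi]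
  · have h1 : (fun q : X i × (∀ j, X j) => Function.update q.2 i q.1) ⁻¹' (Set.pi s t)
        = Set.univ ×ˢ (Set.pi s t) := by
      ext q
      simp only [Set.mem_preimage, Set.mem_pi, Set.mem_prod, Finset.mem_coe, Set.mem_univ, true_and]
      constructor
      · intro h j hj
        have := h j hj
        have hne : j ≠ i := fun e => hi (e ▸ Finset.mem_coe.1 hj)
        rwa [Function.update_of_ne hne] at this
      · intro h j hj
        have hne : j ≠ i := fun e => hi (e ▸ Finset.mem_coe.1 hj)
        rw [Function.update_of_ne hne]
        exact h j hj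
    rw [h1, Measure.prod_prod, infinitePi_pi μ (fun j _ => ht j)]
    simp

theorem measure_resample (i : ι) {S : Set (∀ j, X j)} (hS : MeasurableSet S) :
    infinitePi μ S = ((μ i).prod (infinitePi μ)) {q | Function.update q.2 i q.1 ∈ S} := by
  conv_lhs => rw [← resample μ i]
  rw [Measure.map_apply (measurable_update_pair i) hS]
  rfl

end resample

variable {V : Type*} {L : Type*}

/-- one step using the devices in `U` -/
def Stp (U : Set (V × L)) (R : V × L → Set V) (x y : V) : Prop := ∃ j, (x, j) ∈ U ∧ y ∈ R (x, j)

/-- `B` is reached from `S` using the devices in `U` -/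
def Hits (U : Set (V × L)) (S B : Set V) (R : V × L → Set V) : Prop :=
  ∃ s ∈ S, ∃ b ∈ B, Relation.ReflTransGen (Stp U R) s b

lemma Hits.mono {U U' : Set (V × L)} {S S' B : Set V} {R : V × L → Set V}
    (hU : U ⊆ U') (hS : S ⊆ S') (h : Hits U S B R) : Hits U' S' B R := by
  obtain ⟨s, hs, b, hb, hr⟩ := h
  exact ⟨s, hS hs, b, hb,
    Relation.ReflTransGen.mono (fun x y ⟨j, hj, hy⟩ => ⟨j, hU hj, hy⟩) _ _ hr⟩

lemma hits_update [DecidableEq V] [DecidableEq L] {U : Set (V × L)} {S B : Set V}
    {R : V × L → Set V} {c : V × L} (hc : c ∈ U) (hcS : c.1 ∈ S) (T : Set V) :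
    Hits U S B (Function.update R c T) ↔ Hits (U \ {c}) (S ∪ T) B R := by
  constructor
  · rintro ⟨s, hs, b, hb, hr⟩
    suffices h : ∃ s' ∈ S ∪ T, Relation.ReflTransGen (Stp (U \ {c}) R) s' b by
      obtain ⟨s', hs', h⟩ := h
      exact ⟨s', hs', b, hb, h⟩
    clear hb
    induction hr with
    | refl => exact ⟨s, Or.inl hs, Relation.ReflTransGen.refl⟩
    | @tail y z _ hyz ih =>
      obtain ⟨j, hj, hz⟩ := hyz
      by_cases hjc : (y, j) = c
      · rw [hjc, Function.update_self] at hz
        exact ⟨z, Or.inr hz, Relation.ReflTransGen.refl⟩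
      · rw [Function.update_of_ne hjc] at hz
        obtain ⟨s', hs', h⟩ := ih
        exact ⟨s', hs', h.tail ⟨j, ⟨hj, hjc⟩, hz⟩⟩
  · rintro ⟨s, hs, b, hb, hr⟩
    have hr' : Relation.ReflTransGen (Stp U (Function.update R c T)) s b := by
      refine Relation.ReflTransGen.mono ?_ _ _ hr
      rintro x y ⟨j, hj, hy⟩
      refine ⟨j, hj.1, ?_⟩
      rw [Function.update_of_ne hj.2]
      exact hy
    rcases hs with hs | hs
    · exact ⟨s, hs, b, hb, hr'⟩
    · refine ⟨c.1, hcS, b, hb, Relation.ReflTransGen.head ⟨c.2, hc, ?_⟩ hr'⟩
      show s ∈ Function.update R c T c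
      rw [Function.update_self]
      exact hs

/-- reachability in exactly `n` steps -/
def reachn (r : V → V → Prop) : ℕ → V → V → Prop
  | 0 => fun x y => x = y
  | n + 1 => fun x y => ∃ z, reachn r n x z ∧ r z y

lemma reach_iff (r : V → V → Prop) (x y : V) :
    Relation.ReflTransGen r x y ↔ ∃ n, reachn r n x y := by
  constructor
  · intro h
    induction h with
    | refl => exact ⟨0, rfl⟩
    | tail _ h ih =>
      obtain ⟨n, hn⟩ := ih
      exact ⟨n + 1, _, hn, h⟩
  · rintro ⟨n, hn⟩
    induction n generalizing y with
    | zero => rw [show x = y from hn]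
    | succ n ih =>
      obtain ⟨z, hz, hzy⟩ := hn
      exact (ih z hz).tail hzy

variable [MeasurableSpace V] [DiscreteMeasurableSpace V] [Countable V] [Countable L]

lemma measurable_stp (U : Set (V × L)) (x y : V) :
    Measurable (fun R : V × L → Set V => Stp U R x y) := by
  apply Measurable.exists
  intro j
  apply Measurable.and measurable_const
  exact (measurable_set_mem y).comp (measurable_pi_apply (x, j))

lemma measurable_reachn (U : Set (V × L)) (n : ℕ) (x y : V) :
    Measurable (fun R : V × L → Set V => reachn (Stp U R) n x y) := by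
  induction n generalizing y with
  | zero => exact measurable_const
  | succ n ih => exact Measurable.exists fun z => (ih z).and (measurable_stp U z y)

lemma measurable_reach (U : Set (V × L)) (x y : V) :
    Measurable (fun R : V × L → Set V => Relation.ReflTransGen (Stp U R) x y) := by
  simp_rw [reach_iff]
  exact Measurable.exists fun n => measurable_reachn U n x y

lemma measurableSet_hits_joint (U : Set (V × L)) (S B : Set V) :
    MeasurableSet {q : Set V × (V × L → Set V) | Hits U (S ∪ q.1) B q.2} := by
  rw [measurableSet_setOfPred]
  unfold Hits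
  apply Measurable.exists
  intro s
  apply Measurable.and
  · apply Measurable.or measurable_const
    exact (measurable_set_mem s).comp measurable_fst
  · apply Measurable.exists
    intro b
    exact measurable_const.and ((measurable_reach U s b).comp measurable_snd)

lemma measurableSet_hits (U : Set (V × L)) (S B : Set V) :
    MeasurableSet {R : V × L → Set V | Hits U S B R} := by
  rw [measurableSet_setOfPred]
  unfold Hits
  apply Measurable.exists
  intro s
  apply Measurable.and measurable_const
  apply Measurable.exists
  intro b
  exact measurable_const.and (measurable_reach U s b)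

end Pool.Agent.Work.MP_465498_pr
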