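import Pool.Agent.Work.MP_465498_pr.Green2

/-!
# Finite subsets of infinite sets of large capacity
-/

set_option linter.unusedSectionVars false
set_option linter.style.haveILetI false

namespace Pool.Agent.Work.MP_465498_pr

open MeasureTheory Measure ProbabilityTheory
open scoped ENNReal NNReal

variable {V : Type*} [MeasurableSpace V] [DiscreteMeasurableSpace V] [Countable V]
  {G : SimpleGraph V} [G.LocallyFinite] {D : ℕ} {W : V → Measure (ℕ → V)}

variable (htr : ∀ x y : V, ∃ φ : G ≃g G, φ x = y)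
include htr

lemma Srw.exists_sparse (h : Srw G D W) (o : V) (he : W o (noret {o}) ≠ 0) {S : Set V}
    (hS : S.Infinite) {δ : ℝ≥0∞} (hδ : 0 < δ) (k : ℕ) :
    ∃ B : Finset V, (B : Set V) ⊆ S ∧ B.card = k ∧
      ∀ b ∈ B, ∀ c ∈ B, b ≠ c → green W b c < δ := by
  classical
  induction k with
  | zero => exact ⟨∅, by simp, by simp, by simp⟩
  | succ k ih =>
    obtain ⟨B, hBS, hBc, hB⟩ := ih
    have hfin : ((B : Set V) ∪ ⋃ b ∈ B, {y | δ ≤ green W b y}).Finite :=
      B.finite_toSet.union (B.finite_toSet.biUnion (fun b _ => h.green_finite htr o he b hδ))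
    obtain ⟨x, hxS, hx⟩ := hS.exists_notMem_finite hfin
    simp only [Set.mem_union, Finset.mem_coe, Set.mem_iUnion, Set.mem_ofPred_eq, exists_prop,
      not_or, not_exists, not_and, not_le] at hx
    refine ⟨insert x B, ?_, ?_, ?_⟩
    · rw [Finset.coe_insert, Set.insert_subset_iff]
      exact ⟨hxS, hBS⟩
    · rw [Finset.card_insert_of_notMem hx.1, hBc]
    · intro b hb c hc hbc
      rcases Finset.mem_insert.mp hb with hb | hb <;> rcases Finset.mem_insert.mp hc with hc | hc
      · exact absurd (hb.trans hc.symm) hbc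
      · rw [hb, h.green_symm]
        exact hx.2 c hc
      · rw [hc]
        exact hx.2 b hb
      · exact hB b hb c hc hbc

lemma Srw.exists_cap (h : Srw G D W) (o : V) (he : W o (noret {o}) ≠ 0) {S : Set V}
    (hS : S.Infinite) {C : ℝ≥0∞} (hC : C ≠ ∞) :
    ∃ B : Finset V, (B : Set V) ⊆ S ∧ C ≤ cap W B := by
  classical
  haveI := h.prob
  set e := W o (noret {o}) with hedef
  have het : e ≠ ∞ := measure_ne_top _ _
  have he2 : e / 2 ≠ 0 := by
    intro h0
    rw [ENNReal.div_eq_zero_iff] at h0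
    rcases h0 with h0 | h0
    · exact he h0
    · exact ENNReal.ofNat_ne_top h0
  have he2t : e / 2 ≠ ∞ := ENNReal.div_ne_top het (by norm_num)
  obtain ⟨k, hk⟩ := ENNReal.exists_nat_mul_gt he2 hC
  set k' := k + 1 with hk'
  have hk0 : (k' : ℝ≥0∞) ≠ 0 := by simp [hk']
  have hkt : (k' : ℝ≥0∞) ≠ ∞ := ENNReal.natCast_ne_top _
  have hδ : 0 < e / 2 / k' := by
    rw [pos_iff_ne_zero]
    intro h0
    rw [ENNReal.div_eq_zero_iff] at h0
    rcases h0 with h0 | h0
    · exact he2 h0
    · exact hkt h0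
  obtain ⟨B, hBS, hBc, hB⟩ := h.exists_sparse htr o he hS hδ k'
  refine ⟨B, hBS, ?_⟩
  have h1 : ∀ b ∈ B, e / 2 ≤ W b (noret (B : Set V)) := by
    intro b hb
    have h2 := h.noret_le B b
    have h3 : ∑ c ∈ B.erase b, green W b c ≤ e / 2 := by
      calc ∑ c ∈ B.erase b, green W b c ≤ ∑ c ∈ B.erase b, e / 2 / k' := by
            apply Finset.sum_le_sum
            intro c hc
            rw [Finset.mem_erase] at hc
            exact (hB b hb c hc.2 hc.1.symm).le
        _ = ((B.erase b).card : ℝ≥0∞) * (e / 2 / k') := by rw [Finset.sum_const, nsmul_eq_mul]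
        _ ≤ (k' : ℝ≥0∞) * (e / 2 / k') := by
            gcongr
            rw [← hBc]
            exact Finset.card_le_card (Finset.erase_subset _ _)
        _ = e / 2 := ENNReal.mul_div_cancel hk0 hkt
    rw [h.noret_diag htr b o, ← hedef] at h2
    have h4 : e / 2 + e / 2 ≤ W b (noret (B : Set V)) + e / 2 := by
      rw [ENNReal.add_halves]
      exact h2.trans (by gcongr)
    exact (ENNReal.add_le_add_iff_right he2t).mp h4
  calc C ≤ k * (e / 2) := hk.le
    _ ≤ k' * (e / 2) := by
        gcongr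
        omega
    _ = ∑ b ∈ B, e / 2 := by rw [Finset.sum_const, hBc, nsmul_eq_mul]
    _ ≤ cap W B := Finset.sum_le_sum h1

end Pool.Agent.Work.MP_465498_pr
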