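import Pool.Agent.Work.MP_465498_pr.Env

/-!
# Sets of large capacity are connected with high probability
-/

set_option linter.unusedSectionVars false
set_option linter.style.haveILetI false

namespace Pool.Agent.Work.MP_465498_pr

open MeasureTheory Measure ProbabilityTheory
open scoped ENNReal NNReal

variable {V : Type*} [MeasurableSpace V] [DiscreteMeasurableSpace V] [Countable V]
  {W : V → Measure (ℕ → V)} [∀ x, IsProbabilityMeasure (W x)]
  {G : SimpleGraph V} [G.LocallyFinite] {D : ℕ}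

/-- the action of an automorphism on environments -/
def act (φ : G ≃g G) (R : V × Fin 3 → Set V) : V × Fin 3 → Set V :=
  fun c => φ '' R (φ.symm c.1, c.2)

lemma env_act (h : Srw G D W) (lam : ℝ≥0) (φ : G ≃g G) :
    (env W lam).map (act φ) = env W lam := by
  have hmeas : Measurable (fun T : Set V => φ '' T) := measurable_image φ.toEquiv
  have h1 : act φ = (fun (R : V × Fin 3 → Set V) c => φ '' (R c)) ∘
      (fun (R : V × Fin 3 → Set V) c => R (φ.symm c.1, c.2)) := rfl
  have hinj : Function.Injective (fun c : V × Fin 3 => ((φ.symm c.1, c.2) : V × Fin 3)) := by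
    rintro ⟨x, j⟩ ⟨y, k⟩ hxy
    simp only [Prod.mk.injEq] at hxy
    rw [φ.symm.injective hxy.1, hxy.2]
  rw [h1, ← Measure.map_map]
  · unfold env
    rw [map_infinitePi_infinitePi_of_inj (P := fun c : V × Fin 3 => nu W lam c.1) hinj,
      infinitePi_map_pi (μ := fun c : V × Fin 3 => nu W lam (φ.symm c.1))
        (f := fun _ T => φ '' T) (fun _ => hmeas)]
    congr 1
    funext c
    rw [← nu_aut h lam φ (φ.symm c.1)]
    simp
  · rw [measurable_pi_iff]
    intro c
    exact hmeas.comp (measurable_pi_apply c)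
  · rw [measurable_pi_iff]
    intro c
    exact measurable_pi_apply _

lemma measurable_act (φ : G ≃g G) : Measurable (act φ) := by
  have hmeas : Measurable (fun T : Set V => φ '' T) := measurable_image φ.toEquiv
  rw [measurable_pi_iff]
  intro c
  exact hmeas.comp (measurable_pi_apply (φ.symm c.1, c.2))

omit [MeasurableSpace V] [DiscreteMeasurableSpace V] [Countable V] [G.LocallyFinite] in
lemma hits_act (φ : G ≃g G) (k1 k2 : Fin 3) (S B : Set V) (R : V × Fin 3 → Set V) :
    Hits (dev k1 k2 ∅ ∅) (φ '' S) (φ '' B) (act φ R) ↔ Hits (dev k1 k2 ∅ ∅) S B R := by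
  have hstep : ∀ x y, Stp (dev k1 k2 ∅ ∅) (act φ R) (φ x) (φ y) ↔ Stp (dev k1 k2 ∅ ∅) R x y := by
    intro x y
    unfold Stp
    apply exists_congr
    intro j
    apply and_congr
    · simp [dev]
    · simp [act]
  constructor
  · rintro ⟨_, ⟨s, hs, rfl⟩, _, ⟨b, hb, rfl⟩, hr⟩
    refine ⟨s, hs, b, hb, ?_⟩
    have := Relation.ReflTransGen.lift (r := Stp (dev k1 k2 ∅ ∅) (act φ R))
      (p := Stp (dev k1 k2 ∅ ∅) R) φ.symm (by
        intro x y hxy
        show Stp (dev k1 k2 ∅ ∅) R (φ.symm x) (φ.symm y)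
        rw [← hstep]
        simpa using hxy) _ _ hr
    simpa [Function.onFun] using this
  · rintro ⟨s, hs, b, hb, hr⟩
    refine ⟨φ s, ⟨s, hs, rfl⟩, φ b, ⟨b, hb, rfl⟩, ?_⟩
    exact Relation.ReflTransGen.lift (r := Stp (dev k1 k2 ∅ ∅) R)
      (p := Stp (dev k1 k2 ∅ ∅) (act φ R)) φ (by
        intro x y hxy
        exact (hstep x y).mpr hxy) _ _ hr

/-- invariance of the reach probability -/
lemma pf_act (h : Srw G D W) (lam : ℝ≥0) (φ : G ≃g G) (k1 k2 : Fin 3) (S B : Set V) :
    pf W lam (dev k1 k2 ∅ ∅) (φ '' S) (φ '' B) = pf W lam (dev k1 k2 ∅ ∅) S B := by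
  unfold pf
  rw [measureReal_def, measureReal_def]
  congr 1
  conv_lhs => rw [← env_act h lam φ]
  rw [Measure.map_apply (measurable_act φ) (measurableSet_hits _ _ _)]
  congr 1
  ext R
  exact hits_act φ k1 k2 S B R

/-- invariance of the capacity -/
lemma cap_act (h : Srw G D W) [DecidableEq V] (φ : G ≃g G) (B : Finset V) :
    cap W (B.image φ) = cap W B := by
  unfold cap
  rw [Finset.sum_image (fun x _ y _ hxy => φ.injective hxy)]
  apply Finset.sum_congr rfl
  intro b _
  rw [h.map_aut φ b, Measure.map_apply (measurable_mapp φ) (measurableSet_noret _)]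
  congr 1
  ext ω
  simp [mapp, noret]

lemma cap_ne_top (B : Finset V) : cap W B ≠ ∞ := by
  unfold cap
  rw [ENNReal.sum_ne_top]
  intro b _
  exact measure_ne_top _ _

/-- sets of large capacity are connected with high probability: bound for paths of length `n` -/
theorem star_aux [DecidableEq V] (h : Srw G D W) (hc : G.Connected)
    (htr : ∀ x y : V, ∃ φ : G ≃g G, φ x = y)
    (hfol : ∀ n, ∃ F : Finset V, F.Nonempty ∧ (nbn G n F).card ≤ 2 * F.card)
    {lam : ℝ≥0} (hlam : 0 < lam) {k1 k2 : Fin 3} (hk : k1 ≠ k2) (B1 B2 : Finset V) :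
    ∃ C : ℝ, ∀ n : ℕ, (1 - Real.exp (-(u2 lam * (cap W B1).toReal))) *
      (1 - Real.exp (-(u2 lam * (cap W B2).toReal))) - C / ((n : ℝ) + 1) ≤
      pf W lam (dev k1 k2 ∅ ∅) (B1 : Set V) (B2 : Set V) := by
  obtain ⟨o⟩ := hc.nonempty
  set K0 : Finset V := B1 ∪ B2 with hK0
  obtain ⟨ρ, hρ⟩ := exists_subset_nbn hc o K0
  choose φ hφ using fun v => htr o v
  set K : V → Finset V := fun v => K0.image (φ v) with hK
  obtain ⟨ε, hε0, hε1, hε⟩ := exists_cover h hc hlam K0
  have hDpos : (0 : ℝ) < D := by exact_mod_cast h.pos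
  have hD1 : (1 : ℝ) ≤ D := by exact_mod_cast h.pos
  have hu0 : 0 < u2 lam := u2_pos hlam
  have hu1 : u2 lam ≤ 1 := u2_le_one lam
  refine ⟨2 * ((D : ℝ) + 1) ^ (2 * ρ) / ε, ?_⟩
  intro n
  obtain ⟨F, hFne, hF⟩ := hfol (n + ρ)
  obtain ⟨M, hMF, hMsep, hMc⟩ := exists_separated h.deg F (2 * ρ)
  set F' := nbn G (n + ρ) F with hF'
  set q : ℝ := u2 lam * (D : ℝ)⁻¹ ^ n / (n + 1) with hq
  have hn1 : (0 : ℝ) < (n : ℝ) + 1 := by positivity
  have hq0 : 0 ≤ q := by positivity
  have hDn : (D : ℝ)⁻¹ ^ n ≤ 1 := pow_le_one₀ (by positivity) (inv_le_one_of_one_le₀ hD1)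
  have hq1 : q ≤ 1 := by
    rw [hq, div_le_one hn1]
    have : u2 lam * (D : ℝ)⁻¹ ^ n ≤ 1 * 1 := mul_le_mul hu1 hDn (by positivity) (by norm_num)
    have : (0 : ℝ) ≤ n := by positivity
    linarith
  have hMne : M.Nonempty := by
    rw [← Finset.card_pos]
    have := hFne.card_pos
    by_contra hcon
    have h0 : M.card = 0 := by omega
    rw [h0, mul_zero] at hMc
    omega
  -- balls
  have hKball : ∀ v, K v ⊆ nbn G ρ {v} := by
    intro v y hy
    obtain ⟨x, hx, rfl⟩ := Finset.mem_image.mp hy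
    have := mem_nbn_aut (φ v) ρ (hρ hx)
    rwa [hφ v] at this
  have hdis : ∀ i ∈ M, ∀ j ∈ M, i ≠ j → Disjoint (K i) (K j) := by
    intro i hi j hj hij
    rw [Finset.disjoint_left]
    intro z hzi hzj
    apply hMsep i hi j hj hij
    have h1 : z ∈ nbn G ρ {i} := hKball i hzi
    have h2 : j ∈ nbn G ρ {z} := mem_nbn_comm (hKball j hzj)
    rw [two_mul]
    exact nbn_subset_of_mem h1 h2
  -- the order on the hyperedges
  letI : DecidableRel (WellOrderingRel (α := ℕ → V)) := Classical.decRel _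
  letI : LinearOrder (ℕ → V) := linearOrderOfSTO (WellOrderingRel (α := ℕ → V))
  set P := pf W lam (dev k1 k2 ∅ ∅) (B1 : Set V) (B2 : Set V) with hP
  have hrate : ∀ B : Finset V, B ⊆ K0 → ∀ i ∈ M,
      (1 - q) ^ ((gam G n F').filter (fun z => (verts n z ∩ (B.image (φ i))).Nonempty)).card ≤
      Real.exp (-(u2 lam * (cap W B).toReal)) := by
    intro B hB i hi
    set m := ((gam G n F').filter (fun z => (verts n z ∩ (B.image (φ i))).Nonempty)).card with hm
    have h1 := h.card_hit n F' (B.image (φ i)) (by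
      rw [hF', nbn_add]
      apply nbn_mono
      refine ((Finset.image_subset_image hB).trans (hKball i)).trans ?_
      exact nbn_mono (Finset.singleton_subset_iff.mpr (hMF hi)) ρ)
    rw [cap_act h, ← hm] at h1
    have h2 : ((n : ℝ) + 1) * (cap W B).toReal ≤ m * (D : ℝ)⁻¹ ^ n := by
      have h3 := ENNReal.toReal_mono (by
        apply ENNReal.mul_ne_top (ENNReal.natCast_ne_top _)
        apply ENNReal.pow_ne_top
        exact ENNReal.inv_ne_top.mpr h.ne_zero) h1
      rw [ENNReal.toReal_mul, ENNReal.toReal_mul, ENNReal.toReal_pow, ENNReal.toReal_inv,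
        ENNReal.toReal_natCast, ENNReal.toReal_natCast, ENNReal.toReal_add
        (ENNReal.natCast_ne_top _) ENNReal.one_ne_top, ENNReal.toReal_natCast,
        ENNReal.toReal_one] at h3
      exact h3
    calc (1 - q) ^ m ≤ (Real.exp (-q)) ^ m := by
          apply pow_le_pow_left₀ (by linarith)
          have := Real.add_one_le_exp (-q)
          linarith
      _ = Real.exp (-(m * q)) := by
          rw [← Real.exp_nat_mul]
          congr 1
          ring
      _ ≤ Real.exp (-(u2 lam * (cap W B).toReal)) := by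
          apply Real.exp_le_exp.mpr
          apply neg_le_neg
          rw [hq, ← mul_div_assoc, le_div_iff₀ hn1]
          nlinarith [mul_le_mul_of_nonneg_left h2 hu0.le]
  have hakn := akn (A := verts n) (K := K) hq0 hq1 hε0 hε1 (gam G n F') M hMne
    (fun i => B1.image (φ i)) (fun i => B2.image (φ i))
    (fun i => Finset.image_subset_image Finset.subset_union_left)
    (fun i => Finset.image_subset_image Finset.subset_union_right) P
    (Real.exp (-(u2 lam * (cap W B1).toReal))) (Real.exp (-(u2 lam * (cap W B2).toReal)))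
    (by
      rw [Real.exp_le_one_iff]
      have : 0 ≤ (cap W B1).toReal := ENNReal.toReal_nonneg
      nlinarith)
    (by
      rw [Real.exp_le_one_iff]
      have : 0 ≤ (cap W B2).toReal := ENNReal.toReal_nonneg
      nlinarith)
    (by
      intro i hi
      have hdom := dominates h lam hk n F' (B2.image (φ i)) M K (ε := ε) (by
        intro j _ w hw
        have := hε (φ j) w (by
          rw [hK, Finset.mem_image] at hw
          obtain ⟨a, ha, rfl⟩ := hw
          exact ⟨a, ha, rfl⟩)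
        rw [hK, Finset.coe_image]
        exact this)
      have hex := explore hq0 hq1 hε0.le hε1 hdis hdom (B1.image (φ i))
      refine hex.trans (le_of_eq ?_)
      rw [hP, ← pf_act h lam (φ i)]
      simp only [Finset.coe_image, Finset.coe_empty])
    (hrate B1 Finset.subset_union_left) (hrate B2 Finset.subset_union_right)
  refine le_trans ?_ hakn
  apply sub_le_sub_left
  -- the error term
  have hMpos : (0 : ℝ) < M.card := by exact_mod_cast hMne.card_pos
  have hcard : q * (gam G n F').card ≤ u2 lam / (n + 1) * F'.card := by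
    have h1 := h.card_gam n F'
    have h2 : ((gam G n F').card : ℝ) * (D : ℝ)⁻¹ ^ n ≤ F'.card := by
      have h3 := ENNReal.toReal_mono (ENNReal.natCast_ne_top _) h1
      rw [ENNReal.toReal_mul, ENNReal.toReal_pow, ENNReal.toReal_inv,
        ENNReal.toReal_natCast, ENNReal.toReal_natCast, ENNReal.toReal_natCast] at h3
      exact h3
    calc q * (gam G n F').card = u2 lam / (n + 1) * (((gam G n F').card : ℝ) * (D : ℝ)⁻¹ ^ n) := by
          rw [hq]; ring
      _ ≤ _ := by gcongr
  have hF'c : (F'.card : ℝ) ≤ 2 * (((D : ℝ) + 1) ^ (2 * ρ) * M.card) := by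
    calc (F'.card : ℝ) ≤ ((2 * F.card : ℕ) : ℝ) := by exact_mod_cast hF
      _ ≤ ((2 * ((D + 1) ^ (2 * ρ) * M.card) : ℕ) : ℝ) := by
          exact_mod_cast Nat.mul_le_mul_left 2 hMc
      _ = _ := by push_cast; ring
  rw [div_le_div_iff₀ (by positivity) hn1]
  have h5 : q * (gam G n F').card ≤
      u2 lam / (n + 1) * (2 * (((D : ℝ) + 1) ^ (2 * ρ) * M.card)) := by
    refine hcard.trans ?_
    gcongr
  calc q * (gam G n F').card * ((n : ℝ) + 1)
      ≤ u2 lam / (n + 1) * (2 * (((D : ℝ) + 1) ^ (2 * ρ) * M.card)) * ((n : ℝ) + 1) := by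
        gcongr
    _ = u2 lam * (2 * (((D : ℝ) + 1) ^ (2 * ρ) * M.card)) := by
        field_simp
    _ ≤ 1 * (2 * (((D : ℝ) + 1) ^ (2 * ρ) * M.card)) := by gcongr
    _ = 2 * ((D : ℝ) + 1) ^ (2 * ρ) / ε * (ε * M.card) := by
        field_simp

theorem star (h : Srw G D W) (hc : G.Connected) (htr : ∀ x y : V, ∃ φ : G ≃g G, φ x = y)
    (hfol : ∀ n, ∃ F : Finset V, F.Nonempty ∧ (nbn G n F).card ≤ 2 * F.card)
    {lam : ℝ≥0} (hlam : 0 < lam) {k1 k2 : Fin 3} (hk : k1 ≠ k2) (B1 B2 : Finset V) :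
    (1 - Real.exp (-(u2 lam * (cap W B1).toReal))) *
      (1 - Real.exp (-(u2 lam * (cap W B2).toReal))) ≤
      pf W lam (dev k1 k2 ∅ ∅) (B1 : Set V) (B2 : Set V) := by
  classical
  obtain ⟨C, hC⟩ := star_aux h hc htr hfol hlam hk B1 B2
  have hlim : Filter.Tendsto (fun n : ℕ => (1 - Real.exp (-(u2 lam * (cap W B1).toReal))) *
      (1 - Real.exp (-(u2 lam * (cap W B2).toReal))) - C / ((n : ℝ) + 1)) Filter.atTop
      (nhds ((1 - Real.exp (-(u2 lam * (cap W B1).toReal))) *
      (1 - Real.exp (-(u2 lam * (cap W B2).toReal))) - 0)) := by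
    apply Filter.Tendsto.const_sub
    exact tendsto_const_div_atTop_nhds_zero_nat C |>.comp (Filter.tendsto_add_atTop_nat 1)
      |>.congr (fun n => by simp)
  rw [sub_zero] at hlim
  exact le_of_tendsto' hlim hC

end Pool.Agent.Work.MP_465498_pr
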