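import Pool.Agent.Work.MP_465498_pr.Canon
import Pool.Agent.Work.MP_465498_pr.Defs

/-!
# From the three-layer environment to the frog model
-/

set_option linter.unusedSectionVars false
set_option linter.style.haveILetI false

namespace Pool.Agent.Work.MP_465498_pr

open MeasureTheory Measure ProbabilityTheory
open scoped ENNReal NNReal

variable {V : Type*} [MeasurableSpace V] [DiscreteMeasurableSpace V] [Countable V]
  {W : V → Measure (ℕ → V)} [∀ x, IsProbabilityMeasure (W x)]
  {G : SimpleGraph V} [G.LocallyFinite] {D : ℕ}

/-- every vertex is reached from `o` -/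
def Full (o : V) (Q : V → Set V) : Prop :=
  o ∈ Q o → ∀ y, Relation.ReflTransGen (fun x z => z ∈ Q x) o y

lemma measurableSet_full (o : V) : MeasurableSet {Q : V → Set V | Full o Q} := by
  rw [measurableSet_setOfPred]
  unfold Full
  apply Measurable.imp
  · exact (measurable_set_mem o).comp (measurable_pi_apply o)
  · apply Measurable.forall
    intro y
    have h1 : (fun Q : V → Set V => Relation.ReflTransGen (fun x z => z ∈ Q x) o y) =
        (fun R : V × Unit → Set V => Relation.ReflTransGen (Stp Set.univ R) o y) ∘
          (fun (Q : V → Set V) c => Q c.1) := by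
      funext Q
      show Relation.ReflTransGen (fun x z => z ∈ Q x) o y =
        Relation.ReflTransGen (Stp (Set.univ : Set (V × Unit)) (fun c => Q c.1)) o y
      congr 1
      funext x z
      simp [Stp]
    rw [h1]
    apply (measurable_reach _ o y).comp
    rw [measurable_pi_iff]
    intro c
    exact measurable_pi_apply c.1

/-- gluing the layers -/
lemma map_layers (lam : ℝ≥0) :
    (env W lam).map (fun R x => ⋃ j, R (x, j)) =
      infinitePi (fun x : V => nu W (3 * lam) x) := by
  have hmeas : Measurable (fun T : Fin 3 → Set V => ⋃ j, T j) := by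
    rw [measurable_set_iff]
    intro a
    simp only [Set.mem_iUnion]
    apply Measurable.exists
    intro j
    exact (measurable_set_mem a).comp (measurable_pi_apply j)
  have h1 : (fun (R : V × Fin 3 → Set V) x => ⋃ j, R (x, j)) =
      (fun (Q : V → Fin 3 → Set V) x => ⋃ j, Q x j) ∘ (MeasurableEquiv.curry V (Fin 3) (Set V)) := by
    rfl
  rw [h1, ← Measure.map_map]
  · unfold env
    rw [infinitePi_map_curry (fun (x : V) (_ : Fin 3) => nu W lam x),
      infinitePi_map_pi (μ := fun x : V => infinitePi (fun _ : Fin 3 => nu W lam x))
        (f := fun _ T => ⋃ j, T j) (fun _ => hmeas)]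
    congr 1
    funext x
    exact nu_layers lam x
  · rw [measurable_pi_iff]
    intro x
    exact hmeas.comp (measurable_pi_apply x)
  · exact (MeasurableEquiv.curry V (Fin 3) (Set V)).measurable

/-- coverage, in terms of the independent random sets -/
theorem full_nu (h : Srw G D W) (hc : G.Connected) (htr : ∀ x y : V, ∃ φ : G ≃g G, φ x = y)
    (hfol : ∀ n, ∃ F : Finset V, F.Nonempty ∧ (nbn G n F).card ≤ 2 * F.card)
    {lam : ℝ≥0} (hlam : 0 < lam) (o : V) :
    ∀ᵐ Q ∂(infinitePi (fun x : V => nu W lam x)), Full o Q := by
  by_cases he : W o (noret {o}) = 0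
  · -- recurrent case
    have he' : ∀ y, W y (noret {y}) = 0 := fun y => by rw [h.noret_diag htr y o, he]
    have h1 : ∀ᵐ T ∂(nu W lam o), T.Nonempty → T = Set.univ := by
      apply nu_ae lam o
      · have : {T : Set V | T = Set.univ} = {T : Set V | ∀ a, a ∈ T} := by
          ext T
          exact Set.eq_univ_iff_forall
        rw [this, measurableSet_setOfPred]
        exact Measurable.forall fun a => measurable_set_mem a
      · filter_upwards [h.ae_range_univ hc he' o] with ω hω T hT
        rw [hω] at hT
        exact Set.univ_subset_iff.mp hT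
    have h2 : ∀ᵐ Q ∂(infinitePi (fun x : V => nu W lam x)), (Q o).Nonempty → Q o = Set.univ :=
      (measurePreserving_eval_infinitePi (fun x : V => nu W lam x) o).quasiMeasurePreserving.ae h1
    filter_upwards [h2] with Q hQ ho y
    have := hQ ⟨o, ho⟩
    exact Relation.ReflTransGen.single (by rw [this]; trivial)
  · -- transient case
    have he' : ∀ y, W y (noret {y}) ≠ 0 := fun y => by rw [h.noret_diag htr y o]; exact he
    have hlam3 : 0 < lam / 3 := by positivity
    have hl : lam = 3 * (lam / 3) := by
      rw [mul_div_cancel₀]
      norm_num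
    rw [hl, ← map_layers]
    have hmeas : Measurable (fun (R : V × Fin 3 → Set V) x => ⋃ j, R (x, j)) := by
      rw [measurable_pi_iff]
      intro x
      rw [measurable_set_iff]
      intro a
      simp only [Set.mem_iUnion]
      apply Measurable.exists
      intro j
      exact (measurable_set_mem a).comp (measurable_pi_apply (x, j))
    rw [ae_map_iff hmeas.aemeasurable (measurableSet_full o)]
    filter_upwards [canon_all h hc htr hfol he' hlam3 o] with R hR ho y
    obtain ⟨j, hj⟩ := Set.mem_iUnion.mp ho
    refine Relation.ReflTransGen.mono ?_ _ _ (hR ⟨j, hj⟩ y)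
    rintro x z ⟨k, _, hk⟩
    exact Set.mem_iUnion.mpr ⟨k, hk⟩

end Pool.Agent.Work.MP_465498_pr
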