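import Pool.Agent.Work.MP_465498_pr.Graph

/-!
# Simple random walk on a regular graph: laws on path space
-/

set_option linter.unusedSectionVars false
set_option linter.style.haveILetI false

namespace Pool.Agent.Work.MP_465498_pr

open MeasureTheory Measure ProbabilityTheory
open scoped ENNReal NNReal

variable {V : Type*} [MeasurableSpace V] [DiscreteMeasurableSpace V] [Countable V]

/-- cylinder sets -/
def cyl (n : ℕ) (γ : ℕ → V) : Set (ℕ → V) := {ω | ∀ k ≤ n, ω k = γ k}

omit [Countable V] in
lemma measurableSet_eval (n : ℕ) (S : Set V) : MeasurableSet {ω : ℕ → V | ω n ∈ S} :=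
  (measurable_pi_apply n) (MeasurableSet.of_discrete)

omit [Countable V] in
lemma measurableSet_cyl (n : ℕ) (γ : ℕ → V) : MeasurableSet (cyl n γ) := by
  have : cyl n γ = ⋂ k ∈ Finset.range (n + 1), {ω : ℕ → V | ω k ∈ ({γ k} : Set V)} := by
    ext ω
    simp only [cyl, Set.mem_ofPred_eq, Set.mem_iInter, Finset.mem_range, Nat.lt_succ_iff,
      Set.mem_singleton_iff]
  rw [this]
  exact Finset.measurableSet_biInter _ fun k _ => measurableSet_eval k _

theorem ext_cyl {P Q : Measure (ℕ → V)} [IsFiniteMeasure P] [IsFiniteMeasure Q]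
    (h : ∀ n (γ : ℕ → V), P (cyl n γ) = Q (cyl n γ)) : P = Q := by
  classical
  have hfam : IsProjectiveMeasureFamily (fun I : Finset ℕ => P.map I.restrict) := by
    intro I J hJI
    simp only
    rw [Measure.map_map (by fun_prop) (by fun_prop)]
    rfl
  have hP : IsProjectiveLimit P (fun I : Finset ℕ => P.map I.restrict) := fun I => rfl
  have hQ : IsProjectiveLimit Q (fun I : Finset ℕ => P.map I.restrict) := by
    rw [isProjectiveLimit_nat_iff hfam]
    intro n
    refine Measure.ext_of_singleton (fun a => ?_)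
    rw [Measure.map_apply (by fun_prop) (measurableSet_singleton a),
      Measure.map_apply (by fun_prop) (measurableSet_singleton a)]
    have hpre : ∀ (f : (ℕ → V) → ((i : Finset.Iic n) → V)), (∀ x i, f x i = x i) →
        f ⁻¹' {a} = cyl n (fun i => if h : i ∈ Finset.Iic n then a ⟨i, h⟩
          else a ⟨0, by simp⟩) := by
      intro f hf
      ext x
      simp only [Set.mem_preimage, Set.mem_singleton_iff, cyl, Set.mem_ofPred_eq]
      constructor
      · intro hx i hi
        have hi' : i ∈ Finset.Iic n := Finset.mem_Iic.2 hi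
        rw [dif_pos hi', ← hx, hf]
      · intro hx
        ext i
        rw [hf]
        have h1 := hx i (Finset.mem_Iic.1 i.2)
        rw [dif_pos i.2] at h1
        exact h1
    rw [hpre (Preorder.frestrictLe n) (fun x i => rfl),
      hpre ((Finset.Iic n).restrict) (fun x i => rfl)]
    exact (h n _).symm
  exact hP.unique hQ

/-- `γ` is a path of `n` steps -/
def IsPath (G : SimpleGraph V) (n : ℕ) (γ : ℕ → V) : Prop := ∀ k < n, G.Adj (γ k) (γ (k + 1))

/-- the laws of simple random walk on a `D`-regular graph -/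
structure Srw (G : SimpleGraph V) [G.LocallyFinite] (D : ℕ) (W : V → Measure (ℕ → V)) :
    Prop where
  deg : ∀ x, G.degree x = D
  pos : 0 < D
  prob : ∀ x, IsProbabilityMeasure (W x)
  cyl_path : ∀ x n γ, γ 0 = x → IsPath G n γ → W x (cyl n γ) = (D : ℝ≥0∞)⁻¹ ^ n
  cyl_zero : ∀ x n γ, ¬ (γ 0 = x ∧ IsPath G n γ) → W x (cyl n γ) = 0

/-- prepend a vertex -/
def consx (x : V) (ω : ℕ → V) : ℕ → V
  | 0 => x
  | n + 1 => ω n

/-- delete the first vertex -/
def shift (ω : ℕ → V) : ℕ → V := fun n => ω (n + 1)

omit [Countable V] in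
lemma measurable_consx (x : V) : Measurable (consx x) := by
  rw [measurable_pi_iff]
  intro n
  cases n with
  | zero => exact measurable_const
  | succ n => exact measurable_pi_apply n

omit [Countable V] [DiscreteMeasurableSpace V] in
lemma measurable_shift : Measurable (shift : (ℕ → V) → (ℕ → V)) := by
  rw [measurable_pi_iff]
  intro n
  exact measurable_pi_apply (n + 1)

omit [Countable V] [DiscreteMeasurableSpace V] [MeasurableSpace V] in
lemma shift_consx (x : V) (ω : ℕ → V) : shift (consx x ω) = ω := rfl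

omit [Countable V] [DiscreteMeasurableSpace V] [MeasurableSpace V] in
lemma shift_iterate (n : ℕ) (ω : ℕ → V) (i : ℕ) : (shift^[n] ω) i = ω (n + i) := by
  induction n generalizing ω with
  | zero => simp
  | succ n ih =>
    rw [Function.iterate_succ_apply, ih]
    show ω (n + i + 1) = _
    congr 1
    ring

variable {G : SimpleGraph V} [G.LocallyFinite] {D : ℕ} {W : V → Measure (ℕ → V)}

lemma Srw.ne_zero (h : Srw G D W) : (D : ℝ≥0∞) ≠ 0 := by
  simpa using h.pos.ne'

lemma Srw.inv_mul (h : Srw G D W) : (D : ℝ≥0∞)⁻¹ * D = 1 :=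
  ENNReal.inv_mul_cancel h.ne_zero (ENNReal.natCast_ne_top D)

/-- the Markov property at time one -/
theorem Srw.step_measure (h : Srw G D W) (x : V) :
    W x = ∑ z ∈ G.neighborFinset x, (D : ℝ≥0∞)⁻¹ • (W z).map (consx x) := by
  classical
  haveI := h.prob
  set Q : Measure (ℕ → V) := ∑ z ∈ G.neighborFinset x, (D : ℝ≥0∞)⁻¹ • (W z).map (consx x) with hQ
  have hQapp : ∀ E : Set (ℕ → V), MeasurableSet E → Q E =
      (D : ℝ≥0∞)⁻¹ * ∑ z ∈ G.neighborFinset x, W z (consx x ⁻¹' E) := by
    intro E hE
    rw [hQ, Measure.finsetSum_apply, Finset.mul_sum]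
    apply Finset.sum_congr rfl
    intro z _
    rw [Measure.smul_apply, smul_eq_mul, Measure.map_apply (measurable_consx x) hE]
  have hcard : (G.neighborFinset x).card = D := h.deg x
  have hQu : Q Set.univ = 1 := by
    rw [hQapp _ MeasurableSet.univ]
    simp only [Set.preimage_univ, measure_univ, Finset.sum_const, hcard, nsmul_eq_mul, mul_one]
    exact h.inv_mul
  haveI : IsFiniteMeasure Q := ⟨by rw [hQu]; exact ENNReal.one_lt_top⟩
  apply ext_cyl
  intro n γ
  rw [hQapp _ (measurableSet_cyl n γ)]
  cases n with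
  | zero =>
    by_cases h0 : γ 0 = x
    · have h1 : consx x ⁻¹' (cyl 0 γ) = Set.univ := by
        ext ω
        simp only [Set.mem_preimage, cyl, Set.mem_ofPred_eq, Set.mem_univ, iff_true]
        intro k hk
        obtain rfl : k = 0 := by omega
        exact h0.symm
      rw [h.cyl_path x 0 γ h0 (fun k hk => absurd hk (Nat.not_lt_zero k))]
      simp only [h1, measure_univ, Finset.sum_const, hcard, nsmul_eq_mul, mul_one, pow_zero]
      exact h.inv_mul.symm
    · have h1 : consx x ⁻¹' (cyl 0 γ) = ∅ := by
        ext ω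
        simp only [Set.mem_preimage, cyl, Set.mem_ofPred_eq, Set.mem_empty_iff_false, iff_false]
        intro hcon
        exact h0 (hcon 0 le_rfl).symm
      rw [h.cyl_zero x 0 γ (fun hc => h0 hc.1), h1]
      simp
  | succ n =>
    by_cases h0 : γ 0 = x
    · have h1 : consx x ⁻¹' (cyl (n + 1) γ) = cyl n (fun k => γ (k + 1)) := by
        ext ω
        simp only [Set.mem_preimage, cyl, Set.mem_ofPred_eq]
        constructor
        · intro hc k hk
          exact hc (k + 1) (by omega)
        · intro hc k hk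
          cases k with
          | zero => exact h0.symm
          | succ k => exact hc k (by omega)
      rw [h1]
      by_cases hp : IsPath G (n + 1) γ
      · rw [h.cyl_path x (n + 1) γ h0 hp]
        have hadj : γ 1 ∈ G.neighborFinset x := by
          rw [SimpleGraph.mem_neighborFinset, ← h0]
          exact hp 0 (by omega)
        rw [Finset.sum_eq_single_of_mem _ hadj]
        · rw [h.cyl_path (γ 1) n _ rfl (fun k hk => hp (k + 1) (by omega)), pow_succ, mul_comm]
        · intro z _ hz
          exact h.cyl_zero z n _ (fun hc => hz hc.1.symm)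
      · rw [h.cyl_zero x (n + 1) γ (fun hc => hp hc.2)]
        symm
        rw [mul_eq_zero]
        right
        rw [Finset.sum_eq_zero]
        intro z hz
        apply h.cyl_zero
        rintro ⟨hc1, hc2⟩
        apply hp
        intro k hk
        cases k with
        | zero =>
          rw [h0, ← SimpleGraph.mem_neighborFinset]
          have : γ (0 + 1) = z := hc1
          rw [this]
          exact hz
        | succ k => exact hc2 k (by omega)
    · have h1 : consx x ⁻¹' (cyl (n + 1) γ) = ∅ := by
        ext ω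
        simp only [Set.mem_preimage, cyl, Set.mem_ofPred_eq, Set.mem_empty_iff_false, iff_false]
        intro hcon
        exact h0 (hcon 0 (by omega)).symm
      rw [h.cyl_zero x (n + 1) γ (fun hc => h0 hc.1), h1]
      simp

theorem Srw.step (h : Srw G D W) (x : V) {E : Set (ℕ → V)} (hE : MeasurableSet E) :
    W x E = (D : ℝ≥0∞)⁻¹ * ∑ z ∈ G.neighborFinset x, W z (consx x ⁻¹' E) := by
  conv_lhs => rw [h.step_measure x]
  rw [Measure.finsetSum_apply, Finset.mul_sum]
  apply Finset.sum_congr rfl
  intro z _
  rw [Measure.smul_apply, smul_eq_mul, Measure.map_apply (measurable_consx x) hE]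

theorem Srw.step_shift (h : Srw G D W) (x : V) {E : Set (ℕ → V)} (hE : MeasurableSet E) :
    W x (shift ⁻¹' E) = (D : ℝ≥0∞)⁻¹ * ∑ z ∈ G.neighborFinset x, W z E := by
  rw [h.step x (measurable_shift hE)]
  rfl

/-- the walk starts at its starting point -/
lemma Srw.start (h : Srw G D W) (x : V) : W x {ω | ω 0 ≠ x} = 0 := by
  have h1 : {ω : ℕ → V | ω 0 ≠ x} = (cyl 0 (fun _ => x))ᶜ := by
    ext ω
    simp only [Set.mem_ofPred_eq, Set.mem_compl_iff, cyl]
    constructor
    · intro h1 h2
      exact h1 (h2 0 le_rfl)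
    · intro h1 h2
      apply h1
      intro k hk
      obtain rfl : k = 0 := by omega
      exact h2
  haveI := h.prob x
  rw [h1, prob_compl_eq_zero_iff (measurableSet_cyl _ _),
    h.cyl_path x 0 _ rfl (fun k hk => absurd hk (Nat.not_lt_zero k)), pow_zero]

lemma Srw.ae_start (h : Srw G D W) (x : V) : ∀ᵐ ω ∂(W x), ω 0 = x := by
  rw [ae_iff]; exact h.start x

/-- every step is along an edge -/
lemma Srw.ae_adj (h : Srw G D W) (x : V) : ∀ᵐ ω ∂(W x), ∀ i, G.Adj (ω i) (ω (i + 1)) := by
  rw [ae_all_iff]
  intro i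
  rw [ae_iff]
  have hm : MeasurableSet {ω : ℕ → V | ¬ G.Adj (ω i) (ω (i + 1))} := by
    have : {ω : ℕ → V | ¬ G.Adj (ω i) (ω (i + 1))} =
        (fun ω : ℕ → V => (ω i, ω (i + 1))) ⁻¹' {p | ¬ G.Adj p.1 p.2} := rfl
    rw [this]
    exact ((measurable_pi_apply i).prodMk (measurable_pi_apply (i + 1)))
      (MeasurableSet.of_discrete)
  induction i generalizing x with
  | zero =>
    rw [h.step x hm, mul_eq_zero]
    right
    rw [Finset.sum_eq_zero]
    intro z hz
    refine measure_mono_null ?_ (h.start z)
    intro ω hω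
    simp only [Set.mem_preimage, Set.mem_ofPred_eq] at hω ⊢
    intro hz0
    apply hω
    show G.Adj x (ω 0)
    rw [hz0]
    exact (G.mem_neighborFinset x z).mp hz
  | succ i ih =>
    have hm' : MeasurableSet {ω : ℕ → V | ¬ G.Adj (ω i) (ω (i + 1))} := by
      have : {ω : ℕ → V | ¬ G.Adj (ω i) (ω (i + 1))} =
          (fun ω : ℕ → V => (ω i, ω (i + 1))) ⁻¹' {p | ¬ G.Adj p.1 p.2} := rfl
      rw [this]
      exact ((measurable_pi_apply i).prodMk (measurable_pi_apply (i + 1)))
        (MeasurableSet.of_discrete)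
    have := h.step_shift x hm'
    have e : shift ⁻¹' {ω : ℕ → V | ¬ G.Adj (ω i) (ω (i + 1))} =
        {ω : ℕ → V | ¬ G.Adj (ω (i + 1)) (ω (i + 1 + 1))} := rfl
    rw [e] at this
    rw [this, mul_eq_zero]
    right
    rw [Finset.sum_eq_zero]
    intro z _
    exact ih z hm'

/-- transition probabilities -/
noncomputable def pr (W : V → Measure (ℕ → V)) (n : ℕ) (x y : V) : ℝ≥0∞ := W x {ω | ω n = y}

omit [Countable V] in
lemma measurableSet_eq (n : ℕ) (y : V) : MeasurableSet {ω : ℕ → V | ω n = y} :=
  measurableSet_eval n {y}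

lemma Srw.pr_zero_self (h : Srw G D W) (x : V) : pr W 0 x x = 1 := by
  haveI := h.prob x
  unfold pr
  rw [← prob_compl_eq_zero_iff (measurableSet_eq 0 x)]
  exact h.start x

lemma Srw.pr_zero_ne (h : Srw G D W) {x y : V} (hxy : x ≠ y) : pr W 0 x y = 0 := by
  refine measure_mono_null ?_ (h.start x)
  intro ω hω h2
  exact hxy (h2.symm.trans hω)

lemma Srw.pr_succ (h : Srw G D W) (n : ℕ) (x y : V) :
    pr W (n + 1) x y = (D : ℝ≥0∞)⁻¹ * ∑ z ∈ G.neighborFinset x, pr W n z y :=
  h.step_shift x (measurableSet_eq n y)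

lemma Srw.pr_succ' (h : Srw G D W) (n : ℕ) (x y : V) :
    pr W (n + 1) x y = (D : ℝ≥0∞)⁻¹ * ∑ w ∈ G.neighborFinset y, pr W n x w := by
  classical
  induction n generalizing x with
  | zero =>
    rw [h.pr_succ]
    congr 1
    by_cases hxy : G.Adj x y
    · rw [Finset.sum_eq_single_of_mem y ((G.mem_neighborFinset x y).mpr hxy)
        (fun z _ hz => h.pr_zero_ne hz),
        Finset.sum_eq_single_of_mem x ((G.mem_neighborFinset y x).mpr hxy.symm)
        (fun z _ hz => h.pr_zero_ne hz.symm), h.pr_zero_self, h.pr_zero_self]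
    · rw [Finset.sum_eq_zero, Finset.sum_eq_zero]
      · intro z hz
        apply h.pr_zero_ne
        rintro rfl
        exact hxy ((G.mem_neighborFinset y x).mp hz).symm
      · intro z hz
        apply h.pr_zero_ne
        rintro rfl
        exact hxy ((G.mem_neighborFinset x z).mp hz)
  | succ n ih =>
    rw [h.pr_succ (n + 1)]
    simp_rw [ih]
    simp_rw [h.pr_succ n x]
    rw [← Finset.mul_sum, ← Finset.mul_sum, Finset.sum_comm]

lemma Srw.pr_symm (h : Srw G D W) (n : ℕ) (x y : V) : pr W n x y = pr W n y x := by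
  classical
  induction n generalizing x y with
  | zero =>
    by_cases hxy : x = y
    · rw [hxy]
    · rw [h.pr_zero_ne hxy, h.pr_zero_ne (Ne.symm hxy)]
  | succ n ih =>
    rw [h.pr_succ, h.pr_succ']
    simp_rw [ih]

lemma Srw.pr_finite (h : Srw G D W) (n : ℕ) (x : V) : {y | pr W n x y ≠ 0}.Finite := by
  classical
  induction n generalizing x with
  | zero =>
    apply (Set.finite_singleton x).subset
    intro y hy
    by_contra hne
    rw [Set.mem_singleton_iff] at hne
    exact hy (h.pr_zero_ne (Ne.symm hne))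
  | succ n ih =>
    apply ((G.neighborFinset x).finite_toSet.biUnion (fun z _ => ih z)).subset
    intro y hy
    simp only [Set.mem_ofPred_eq, h.pr_succ] at hy
    simp only [Set.mem_iUnion, Set.mem_ofPred_eq, exists_prop]
    by_contra hcon
    push Not at hcon
    apply hy
    rw [Finset.sum_eq_zero (fun z hz => hcon z hz), mul_zero]

/-- the Markov property at time `n` -/
theorem Srw.markov (h : Srw G D W) (n : ℕ) (x : V) {E : Set (ℕ → V)} (hE : MeasurableSet E) :
    W x (shift^[n] ⁻¹' E) = ∑' z, pr W n x z * W z E := by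
  classical
  induction n generalizing x with
  | zero =>
    rw [tsum_eq_single x]
    · rw [h.pr_zero_self, one_mul]
      rfl
    · intro z hz
      rw [h.pr_zero_ne hz.symm, zero_mul]
  | succ n ih =>
    have e : shift^[n + 1] ⁻¹' E = shift ⁻¹' (shift^[n] ⁻¹' E) := by
      ext ω
      simp only [Set.mem_preimage, Function.iterate_succ_apply]
    have hm : MeasurableSet (shift^[n] ⁻¹' E) := (measurable_shift.iterate n) hE
    rw [e, h.step_shift x hm]
    simp_rw [ih, h.pr_succ]
    rw [← Summable.tsum_finsetSum (fun _ _ => ENNReal.summable), ← ENNReal.tsum_mul_left]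
    apply tsum_congr
    intro z
    rw [Finset.mul_sum, Finset.mul_sum, Finset.sum_mul]
    apply Finset.sum_congr rfl
    intro w _
    ring

/-- Chapman-Kolmogorov -/
lemma Srw.chapman (h : Srw G D W) (m n : ℕ) (x y : V) :
    pr W (m + n) x y = ∑' z, pr W m x z * pr W n z y := by
  have := h.markov m x (measurableSet_eq n y)
  unfold pr at this ⊢
  rw [← this]
  congr 1
  ext ω
  simp only [Set.mem_preimage, Set.mem_ofPred_eq, shift_iterate]

end Pool.Agent.Work.MP_465498_pr
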